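import Pool.Agent.PLX.Ns
import Pool.Agent.PLX.NUSea.H0.Dat
import Pool.Agent.NUH0.Ker
import Pool.Agent.NUKer.LogC

/-!
# The kernels of the action identity are `kw`, `kg`; the quadratic part of the exponent
-/

set_option autoImplicit false
set_option linter.unusedSectionVars false

open MeasureTheory Set Filter Topology

namespace NUSea.PLX.H0

open NUMF NUKer NUAct NU42

noncomputable section

variable [Sea]

/-- geometry: paths, smallness of the displacements, bounded continuous kernels -/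
structure Geo (X : Dat) (Cκ : ℝ) : Prop where
  s0 : ∀ a, 0 ≤ X.s a
  path : ∃ b c B, b ≤ l / 7 ∧ (∀ a, Path b c B (X.ζ a) (X.ζ' a)) ∧ ∀ a, Ext b (X.F a)
  small : Small (X.D true) (X.D1 true) (X.D false) (X.D1 false)
  bk : ∀ a b, Bk Cκ (X.κ a b)

variable {X : Dat} {Cκ : ℝ}

lemma Geo.ok (h : Geo X Cκ) : X.gas.Ok := by
  obtain ⟨b, c, B, h1, h2, h3⟩ := h.path
  exact two_ok X.s h1 h2 h3

lemma Geo.dens (h : Geo X Cκ) (a : Bool) : Dens (X.ρ a) :=
  ⟨P_int.const_mul _, fun t => mul_nonneg (h.s0 a) (P_pos t).le, continuous_const.mul P_cont⟩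

lemma Geo.int_rho (a : Bool) : ∫ t, X.ρ a t = X.s a := by
  unfold Dat.ρ
  rw [integral_const_mul, P_mass, mul_one]

lemma path_eq (a : Bool) (t : ℝ) : (t : ℂ) + X.D a t = X.ζ a t := by
  unfold Dat.D
  ring

lemma path_fun (a : Bool) : (fun x : ℝ => (x : ℂ) + X.D a x) = X.ζ a := funext fun t => path_eq a t

lemma Geo.im_lt (h : Geo X Cκ) (a b : Bool) (t t' : ℝ) : |(X.ζ a t - X.ζ b t').im| < l := by
  obtain ⟨β, c, B, h1, h2, h3⟩ := h.path
  have hl := l_pos
  have e1 := (h2 a).im_le t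
  have e2 := (h2 b).im_le t'
  rw [Complex.sub_im]
  refine lt_of_le_of_lt (abs_sub _ _) ?_
  linarith

lemma Geo.sm (h : Geo X Cκ) (a : Bool) (R : ℝ) : Sm R (X.D a) (X.D1 a) := by
  cases a
  · exact h.small.sY R
  · exact h.small.sX R

lemma kappa_same (a : Bool) : X.κ a a = kw (X.D a) (X.D1 a) := by
  unfold Dat.κ
  rw [if_pos rfl]

lemma kappa_diff {a b : Bool} (hab : a ≠ b) : X.κ a b = kg (X.D a) (X.D b) := by
  unfold Dat.κ
  rw [if_neg hab]

lemma sm2_symm {R : ℝ} {D D' : ℝ → ℂ} (h : Sm2 R D D') : Sm2 R D' D where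
  y1 t t' ht ht' := by rw [Yc_symm (by norm_num)]; exact h.y1 t' t ht' ht
  y2 t t' ht ht' := by rw [Yc_symm (by linarith [NUKer.r_pos])]; exact h.y2 t' t ht' ht

lemma Geo.sm2 (h : Geo X Cκ) {a b : Bool} (hab : a ≠ b) (R : ℝ) : Sm2 R (X.D a) (X.D b) := by
  cases a <;> cases b
  · exact absurd rfl hab
  · exact sm2_symm (h.small.sXY R)
  · exact h.small.sXY R
  · exact absurd rfl hab

lemma Geo.kappa_symm (h : Geo X Cκ) (a b : Bool) (t t' : ℝ) : X.κ a b t t' = X.κ b a t' t := by
  rcases eq_or_ne a b with rfl | hab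
  · rw [kappa_same]
    exact kw_symm (R := max |t| |t'|) (h.sm a _) (le_max_left _ _) (le_max_right _ _)
  · rw [kappa_diff hab, kappa_diff hab.symm]
    exact kg_symm _ _ _ _

/-- the kernel of the action identity off the diagonal -/
lemma Geo.kappa_eq (h : Geo X Cκ) (a b : Bool) {t t' : ℝ} (hne : t ≠ t') :
    X.gas.κ a b t t' = X.κ a b t t' := by
  have e0 : X.gas.κ a b t t' = X.gas.K0 a b t t' - (X.gas.K a b t t').re := rfl
  rw [e0]
  unfold Dat.gas
  rw [two_K0, two_K]
  set R := max |t| |t'|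
  have ht : |t| ≤ R := le_max_left _ _
  have ht' : |t'| ≤ R := le_max_right _ _
  rcases eq_or_ne a b with rfl | hab
  · rw [if_pos rfl, if_pos rfl, kappa_same]
    have h1 := Up_eq (h.sm a R) ht ht' hne (by
      rw [path_eq, path_eq]
      exact h.im_lt a a t t')
    rw [path_fun] at h1
    rw [h1, Complex.sub_re, NUKer.Lw_re]
    unfold ks
    rw [Complex.ofReal_re]
    ring
  · rw [if_neg hab, if_neg hab, kappa_diff hab]
    have h1 := Ux_path (h.sm2 hab R) ht ht' (by
      rw [path_eq, path_eq]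
      exact h.im_lt a b t t')
    rw [path_eq, path_eq] at h1
    rw [h1, Complex.sub_re, NUKer.Lg_re]
    unfold kx
    rw [Complex.ofReal_re]
    ring

lemma Geo.kr_eq (h : Geo X Cκ) (a b : Bool) (t : ℝ) :
    X.gas.κρ a b t = ∫ t', X.κ a b t t' * X.ρ b t' := by
  unfold Gas.κρ
  refine integral_congr_ae ?_
  filter_upwards [(Set.countable_singleton t).ae_notMem volume] with t' ht'
  have hne : t ≠ t' := fun he => ht' (by simp [he])
  rw [h.kappa_eq a b hne]
  rfl

variable {p n : ℕ}

/-- species of a point -/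
def sig (p n : ℕ) : Fin p ⊕ Fin n → Bool := Sum.elim (fun _ => true) (fun _ => false)

/-- all points -/
def pts (t : Fin p → ℝ) (t' : Fin n → ℝ) : Fin p ⊕ Fin n → ℝ := Sum.elim t t'

/-- the quadratic statistic of the action identity in terms of `nuF2` -/
lemma Geo.nu2_eq (h : Geo X Cκ) (t : Fin p → ℝ) (t' : Fin n → ℝ) :
    X.gas.nu2 (sig p n) (pts t t') X.κ =
      nuF2 (X.ρ true) (X.ρ true) t t (X.κ true true) + nuF2 (X.ρ true) (X.ρ false) t t' (X.κ true false) +
        (nuF2 (X.ρ false) (X.ρ true) t' t (X.κ false true) +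
          nuF2 (X.ρ false) (X.ρ false) t' t' (X.κ false false)) := by
  have hT := h.dens true
  have hF := h.dens false
  rw [nuF2_expand hT hT t t (h.bk true true), nuF2_expand hT hF t t' (h.bk true false),
    nuF2_expand hF hT t' t (h.bk false true), nuF2_expand hF hF t' t' (h.bk false false)]
  unfold Gas.nu2 sig pts
  simp only [Fintype.sum_sum_type, Sum.elim_inl, Sum.elim_inr, Fintype.sum_bool, h.kr_eq]
  have e1 : ∀ (a b : Bool) (x : ℝ), ∫ u, X.κ a b u x * X.ρ a u = ∫ u, X.κ b a x u * X.ρ a u := by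
    intro a b x
    refine integral_congr_ae (ae_of_all _ fun u => ?_)
    simp only
    rw [h.kappa_symm a b u x]
  simp only [e1]
  have e2 : ∀ a b : Bool, Integrable fun x => X.ρ a x * ∫ u, X.κ a b x u * X.ρ b u := by
    intro a b
    refine (int_bd (h.dens a) (cv_cont (h.dens b) (h.bk a b))
      fun x => abs_int_le (h.dens b) ((h.bk a b).le x)).congr (ae_of_all _ fun x => ?_)
    simp only
    ring
  have e3 : ∀ a : Bool, ∫ x, X.gas.ρ a x * ((∫ u, X.κ a true x u * X.ρ true u) +
      ∫ u, X.κ a false x u * X.ρ false u) = (∫ x, (∫ u, X.κ a true x u * X.ρ true u) * X.ρ a x) +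
        ∫ x, (∫ u, X.κ a false x u * X.ρ false u) * X.ρ a x := by
    intro a
    have e4 : ∀ x, X.gas.ρ a x * ((∫ u, X.κ a true x u * X.ρ true u) +
        ∫ u, X.κ a false x u * X.ρ false u) =
        X.ρ a x * (∫ u, X.κ a true x u * X.ρ true u) + X.ρ a x * ∫ u, X.κ a false x u * X.ρ false u := by
      intro x
      have : X.gas.ρ a x = X.ρ a x := rfl
      rw [this]
      ring
    simp_rw [e4]
    rw [integral_add (e2 a true) (e2 a false)]
    congr 1
    · refine integral_congr_ae (ae_of_all _ fun x => ?_)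
      simp only
      ring
    · refine integral_congr_ae (ae_of_all _ fun x => ?_)
      simp only
      ring
  rw [e3, e3]
  simp only [Finset.sum_add_distrib]
  ring

/-- the pair part of the exponent -/
lemma Geo.ke_eq (h : Geo X Cκ) (t : Fin p → ℝ) (t' : Fin n → ℝ) :
    KE (X.D true) (X.D1 true) (X.D false) (X.D1 false) t t' =
      1 / 2 * ∑ i, ∑ j, X.κ (sig p n i) (sig p n j) (pts t t' i) (pts t t' j) := by
  unfold KE sig pts
  simp only [Fintype.sum_sum_type, Sum.elim_inl, Sum.elim_inr]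
  have e1 : ∑ i : Fin n, ∑ j : Fin p, X.κ false true (t' i) (t j) =
      ∑ i : Fin p, ∑ j : Fin n, X.κ true false (t i) (t' j) := by
    rw [Finset.sum_comm]
    exact Finset.sum_congr rfl fun i _ => Finset.sum_congr rfl fun j _ => h.kappa_symm _ _ _ _
  simp only [Finset.sum_add_distrib]
  rw [e1, kappa_same, kappa_same, kappa_diff (by decide : (true : Bool) ≠ false)]
  ring

end

end NUSea.PLX.H0
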