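import Pool.Agent.PLX.Ns
import Pool.Agent.PLX.NUSea.H0.Ker
import Pool.Agent.NUH0.Point

/-!
# The pointwise bound of the positive gas by two one component gases and small kernels

`WO exp (1/2 ∑ F²) ≤ exp C0 * WX * WY * exp (1/2 ∑ nuF2 κ)`.
-/

set_option autoImplicit false
set_option linter.unusedSectionVars false

open MeasureTheory Set Filter Topology

namespace NUSea.PLX.H0

open NUMF NUKer NUAct NU42 NUE

noncomputable section

variable [Sea]

variable {X : Dat} {Cκ : ℝ} {p n : ℕ}

/-- the field equation of the data -/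
structure Fld (X : Dat) (p n : ℕ) : Prop where
  τi : Integrable X.τ
  τ1 : Integrable fun x => X.τ x * x
  τ0 : ∫ x, X.τ x = ((p : ℝ) - X.s true) - ((n : ℝ) - X.s false)
  eq : ∀ a t, X.gas.lin a t - Dat.sg a * X.Gt t + X.E a t = X.Vm a t + X.φ a t

lemma lgm_abs (t : ℝ) : |lgm t| ≤ 2 * (1 + |t|) := by
  rw [abs_of_nonneg (lg_nonneg Lh_nonneg lgm_eq t)]
  exact lgm_le t

lemma tau_lgm_int {τ : ℝ → ℝ} (hτ : Integrable τ) (hτ1 : Integrable fun x => τ x * x) (x : ℝ) :
    Integrable fun y => τ y * lgm (x - y) := by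
  have h1 : Integrable fun y => (2 * (1 + |x|)) * |τ y| + 2 * |τ y * y| :=
    (hτ.abs.const_mul _).add (hτ1.abs.const_mul _)
  refine h1.mono' (hτ.aestronglyMeasurable.mul
    (lgm_meas.comp (measurable_const.sub measurable_id)).aestronglyMeasurable) (ae_of_all _ fun y => ?_)
  rw [norm_mul, Real.norm_eq_abs, Real.norm_eq_abs]
  have h2 := lgm_abs (x - y)
  have h3 := abs_sub x y
  have h4 := abs_nonneg (τ y)
  calc |τ y| * |lgm (x - y)| ≤ |τ y| * (2 * (1 + |x - y|)) := by gcongr
    _ ≤ |τ y| * (2 * (1 + (|x| + |y|))) := by gcongr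
    _ = _ := by rw [abs_mul]; ring

lemma tau_logg_int {τ : ℝ → ℝ} (hτ : Integrable τ) (hτ1 : Integrable fun x => τ x * x) (x : ℝ) :
    Integrable fun y => τ y * Real.log (g (x - y)) := by
  refine ((hτ.const_mul (Real.log (g 0))).sub (tau_lgm_int hτ hτ1 x)).congr (ae_of_all _ fun y => ?_)
  simp only [Pi.sub_apply]
  unfold lgm
  ring

/-- the density of the splitting: excess plus the charge of the seas -/
def tf (X : Dat) (x : ℝ) : ℝ := X.τ x + (X.s true - X.s false) * P x

lemma P_mul_int : Integrable fun x : ℝ => P x * x := by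
  obtain ⟨C, hC, h⟩ := P_le
  have h1 := (int_exp_abs' (κ := 5 / 3) (by norm_num)).const_mul C
  refine h1.mono' (P_cont.mul continuous_id).aestronglyMeasurable (ae_of_all _ fun x => ?_)
  have h2 := h x
  have h3 := P_pos x
  rw [norm_mul, Real.norm_eq_abs, Real.norm_eq_abs, abs_of_pos h3]
  have h4 : |x| ≤ Real.exp |x| := by linarith [Real.add_one_le_exp |x|]
  have h5 : Real.exp (-(5 / 3) * |x|) = Real.exp (-(8 / 3) * |x|) * Real.exp |x| := by
    rw [← Real.exp_add]; congr 1; ring
  calc P x * |x| ≤ (C * Real.exp (-(8 / 3) * |x|)) * Real.exp |x| :=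
        mul_le_mul h2 h4 (abs_nonneg _) (by positivity)
    _ = C * (Real.exp (-(5 / 3) * |x|)) := by rw [h5]; ring

lemma Fld.tfi (h : Fld X p n) : Integrable (tf X) := h.τi.add (P_int.const_mul _)

lemma Fld.tf1 (h : Fld X p n) : Integrable fun x => tf X x * x := by
  refine (h.τ1.add (P_mul_int.const_mul (X.s true - X.s false))).congr (ae_of_all _ fun x => ?_)
  simp only [Pi.add_apply]
  unfold tf
  ring

lemma Fld.tf0 (h : Fld X p n) : ∫ x, tf X x = (p : ℝ) - n := by
  unfold tf
  rw [integral_add h.τi (P_int.const_mul _), h.τ0, integral_const_mul, P_mass]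
  ring

/-- `log g * tf` -/
lemma Fld.Gf_eq (h : Fld X p n) (x : ℝ) : ∫ u, tf X u * Real.log (g (x - u)) =
    X.Gt x - (X.s true - X.s false) * (vx x).re := by
  have e : ∀ u, tf X u * Real.log (g (x - u)) = X.τ u * Real.log (g (x - u)) +
      (X.s true - X.s false) * (P u * Real.log (g (x - u))) := fun u => by unfold tf; ring
  simp_rw [e]
  rw [integral_add (tau_logg_int h.τi h.τ1 x) ((conv_g x).1.const_mul _), integral_const_mul,
    (conv_g x).2]
  unfold Dat.Gt
  ring

lemma Fld.cv_eq (h : Fld X p n) (x : ℝ) :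
    NUE.cv lgm (tf X) x = Real.log (g 0) * ((p : ℝ) - n) - X.Gt x +
      (X.s true - X.s false) * (vx x).re := by
  have h0 : NUE.cv lgm (tf X) x = Real.log (g 0) * ((p : ℝ) - n) -
      ∫ u, tf X u * Real.log (g (x - u)) := by
    unfold NUE.cv
    rw [← h.tf0, ← integral_const_mul, ← integral_sub (h.tfi.const_mul _) (tau_logg_int h.tfi h.tf1 x)]
    refine integral_congr_ae (ae_of_all _ fun y => ?_)
    simp only
    unfold lgm
    ring
  rw [h0, h.Gf_eq]
  ring

/-- `τ (log g * τ)` is integrable -/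
lemma tau_Gt_int {τ : ℝ → ℝ} (hτ : Integrable τ) (hτ1 : Integrable fun x => τ x * x) :
    Integrable fun x => τ x * ∫ y, τ y * lgm (x - y) := by
  have hm : AEStronglyMeasurable (fun x => ∫ y, τ y * lgm (x - y)) volume := by
    have h3 : AEStronglyMeasurable (fun z : ℝ × ℝ => τ z.2 * lgm (z.1 - z.2)) (volume.prod volume) := by
      refine hτ.aestronglyMeasurable.comp_snd.mul ?_
      exact (lgm_meas.comp (measurable_fst.sub measurable_snd)).aestronglyMeasurable
    exact h3.integral_prod_right'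
  have h1 : Integrable fun x => (2 * ∫ y, (|τ y| + |τ y * y|)) * |τ x| + (2 * ∫ y, |τ y|) * |τ x * x| :=
    (hτ.abs.const_mul _).add (hτ1.abs.const_mul _)
  refine h1.mono' (hτ.aestronglyMeasurable.mul hm) (ae_of_all _ fun x => ?_)
  rw [norm_mul, Real.norm_eq_abs]
  have i1 : Integrable fun y => |τ y| + |τ y * y| := hτ.abs.add hτ1.abs
  have h2 : ‖∫ y, τ y * lgm (x - y)‖ ≤ 2 * (∫ y, (|τ y| + |τ y * y|)) + (2 * |x|) * ∫ y, |τ y| := by
    rw [← integral_const_mul, ← integral_const_mul,
      ← integral_add (i1.const_mul _) (hτ.abs.const_mul _)]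
    refine norm_integral_le_of_norm_le ((i1.const_mul _).add (hτ.abs.const_mul _)) (ae_of_all _ fun y => ?_)
    rw [norm_mul, Real.norm_eq_abs, Real.norm_eq_abs]
    have h2 := lgm_abs (x - y)
    have h3 := abs_sub x y
    have h4 := abs_nonneg (τ y)
    calc |τ y| * |lgm (x - y)| ≤ |τ y| * (2 * (1 + |x - y|)) := by gcongr
      _ ≤ |τ y| * (2 * (1 + (|x| + |y|))) := by gcongr
      _ = _ := by rw [abs_mul]; ring
  calc |τ x| * ‖∫ y, τ y * lgm (x - y)‖ ≤
      |τ x| * (2 * (∫ y, (|τ y| + |τ y * y|)) + (2 * |x|) * ∫ y, |τ y|) := by gcongr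
    _ = _ := by rw [abs_mul]; ring

/-- `P (log g * τ) = τ (log g * P)` -/
lemma Fld.P_Gt (h : Fld X p n) : Integrable (fun x => P x * X.Gt x) ∧
    Integrable (fun x => X.τ x * (vx x).re) ∧ ∫ x, P x * X.Gt x = -∫ x, X.τ x * (vx x).re := by
  have hP1 := P_mul_int
  -- the product is integrable on the plane
  have hm : AEStronglyMeasurable (fun z : ℝ × ℝ => P z.1 * (X.τ z.2 * Real.log (g (z.1 - z.2))))
      (volume.prod volume) := by
    refine (P_cont.measurable.comp measurable_fst).aestronglyMeasurable.mul ?_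
    refine h.τi.aestronglyMeasurable.comp_snd.mul ?_
    have h1 : Measurable fun t : ℝ => Real.log (g t) := by
      have : (fun t : ℝ => Real.log (g t)) = fun t => Real.log (g 0) - lgm t := by
        funext t; unfold lgm; ring
      rw [this]
      exact measurable_const.sub lgm_meas
    exact (h1.comp (measurable_fst.sub measurable_snd)).aestronglyMeasurable
  have hb : ∀ z : ℝ × ℝ, ‖P z.1 * (X.τ z.2 * Real.log (g (z.1 - z.2)))‖ ≤
      (|Real.log (g 0)| + 2) * (P z.1 * |X.τ z.2|) + 2 * ((P z.1 * |z.1|) * |X.τ z.2|) +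
        2 * (P z.1 * |X.τ z.2 * z.2|) := by
    intro z
    have h3 := P_pos z.1
    have h4 := abs_nonneg (X.τ z.2)
    have h5 : |Real.log (g (z.1 - z.2))| ≤ |Real.log (g 0)| + 2 * (1 + (|z.1| + |z.2|)) := by
      have e : Real.log (g (z.1 - z.2)) = Real.log (g 0) - lgm (z.1 - z.2) := by unfold lgm; ring
      rw [e]
      refine (abs_sub _ _).trans ?_
      have := lgm_abs (z.1 - z.2)
      have := abs_sub z.1 z.2
      linarith
    rw [norm_mul, norm_mul, Real.norm_eq_abs, Real.norm_eq_abs, Real.norm_eq_abs, abs_of_pos h3, abs_mul]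
    calc P z.1 * (|X.τ z.2| * |Real.log (g (z.1 - z.2))|) ≤
        P z.1 * (|X.τ z.2| * (|Real.log (g 0)| + 2 * (1 + (|z.1| + |z.2|)))) := by gcongr
      _ = _ := by ring
  have hτ' : Integrable fun x => |X.τ x| := h.τi.abs
  have hint : Integrable (fun z : ℝ × ℝ => P z.1 * (X.τ z.2 * Real.log (g (z.1 - z.2))))
      (volume.prod volume) := by
    have i1 : Integrable (fun z : ℝ × ℝ => P z.1 * |X.τ z.2|) (volume.prod volume) := P_int.mul_prod hτ'
    have i2 : Integrable (fun z : ℝ × ℝ => (P z.1 * |z.1|) * |X.τ z.2|) (volume.prod volume) := by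
      have h1 : Integrable fun x => P x * |x| := by
        refine hP1.abs.congr (ae_of_all _ fun x => ?_)
        simp only
        rw [abs_mul, abs_of_pos (P_pos x)]
      exact h1.mul_prod hτ'
    have i3 : Integrable (fun z : ℝ × ℝ => P z.1 * |X.τ z.2 * z.2|) (volume.prod volume) :=
      P_int.mul_prod h.τ1.abs
    exact (((i1.const_mul _).add (i2.const_mul _)).add (i3.const_mul _)).mono' hm
      (ae_of_all _ fun z => hb z)
  have e1 : ∀ x, ∫ u, P x * (X.τ u * Real.log (g (x - u))) = P x * X.Gt x := fun x => by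
    rw [integral_const_mul]
    rfl
  have e2 : ∀ u, ∫ x, P x * (X.τ u * Real.log (g (x - u))) = -(X.τ u * (vx u).re) := fun u => by
    have h1 : ∀ x, P x * (X.τ u * Real.log (g (x - u))) = X.τ u * (P x * Real.log (g (u - x))) := by
      intro x
      rw [show x - u = -(u - x) by ring, g_neg]
      ring
    simp_rw [h1]
    rw [integral_const_mul, (conv_g u).2]
    ring
  have i1 : Integrable fun x => P x * X.Gt x := by
    refine hint.integral_prod_left.congr (ae_of_all _ fun x => ?_)
    exact e1 x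
  have i2 : Integrable fun u => X.τ u * (vx u).re := by
    have h1 := hint.integral_prod_right
    refine (h1.neg).congr (ae_of_all _ fun u => ?_)
    simp only [Pi.neg_apply]
    rw [e2 u, neg_neg]
  refine ⟨i1, i2, ?_⟩
  have h1 := integral_integral_swap (f := fun x u => P x * (X.τ u * Real.log (g (x - u)))) hint
  simp only [e1, e2] at h1
  rw [h1, integral_neg]

lemma Fld.tau_Gt (h : Fld X p n) : Integrable fun x => X.τ x * X.Gt x := by
  have i1 := tau_Gt_int h.τi h.τ1
  have e1 : ∀ x, X.τ x * X.Gt x = X.τ x * (Real.log (g 0) * ∫ y, X.τ y) -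
      X.τ x * ∫ y, X.τ y * lgm (x - y) := by
    intro x
    have h2 : X.Gt x = Real.log (g 0) * (∫ y, X.τ y) - ∫ y, X.τ y * lgm (x - y) := by
      unfold Dat.Gt
      rw [← integral_const_mul, ← integral_sub (h.τi.const_mul _) (tau_lgm_int h.τi h.τ1 x)]
      refine integral_congr_ae (ae_of_all _ fun y => ?_)
      simp only
      unfold lgm
      ring
    rw [h2]
    ring
  refine ((h.τi.mul_const (Real.log (g 0) * ∫ y, X.τ y)).sub i1).congr (ae_of_all _ fun x => ?_)
  simp only [Pi.sub_apply]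
  rw [e1]

lemma Fld.int_cv (h : Fld X p n) : ∫ x, tf X x * NUE.cv lgm (tf X) x =
    Real.log (g 0) * ((p : ℝ) - n) ^ 2 - (∫ x, X.τ x * X.Gt x) -
      2 * (X.s true - X.s false) * (∫ x, P x * X.Gt x) + (X.s true - X.s false) ^ 2 * Mx := by
  obtain ⟨j1, j2, j3⟩ := h.P_Gt
  have j4 := h.tau_Gt
  have j5 : Integrable fun x => P x * (vx x).re := by
    have h0 := int_rF (s := 1) (F := vx) (b := 0) le_rfl ⟨fun z hz => diff_vx
      (lt_of_le_of_lt hz (by have := l_pos; linarith)), by
        obtain ⟨K, hK0, hK⟩ := vx_gr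
        refine ⟨K, fun z hz => (hK z (hz.trans (by have := l_pos; linarith))).trans ?_⟩
        have := Real.add_one_le_exp |z.re|
        gcongr
        linarith⟩
    refine h0.re.congr (ae_of_all _ fun x => ?_)
    show (((1 * P x : ℝ) : ℂ) * vx x).re = P x * (vx x).re
    rw [one_mul, Complex.re_ofReal_mul]
  have e : ∀ x, tf X x * NUE.cv lgm (tf X) x = (Real.log (g 0) * ((p : ℝ) - n)) * tf X x -
      X.τ x * X.Gt x - (X.s true - X.s false) * (P x * X.Gt x) +
      ((X.s true - X.s false) * (X.τ x * (vx x).re) + (X.s true - X.s false) ^ 2 * (P x * (vx x).re)) := by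
    intro x
    rw [h.cv_eq]
    unfold tf
    ring
  simp_rw [e]
  have a1 : Integrable fun x => (Real.log (g 0) * ((p : ℝ) - n)) * tf X x - X.τ x * X.Gt x :=
    (h.tfi.const_mul _).sub j4
  have a2 : Integrable fun x => (Real.log (g 0) * ((p : ℝ) - n)) * tf X x - X.τ x * X.Gt x -
      (X.s true - X.s false) * (P x * X.Gt x) := a1.sub (j1.const_mul _)
  have a3 : Integrable fun x => (X.s true - X.s false) * (X.τ x * (vx x).re) +
      (X.s true - X.s false) ^ 2 * (P x * (vx x).re) := (j2.const_mul _).add (j5.const_mul _)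
  rw [integral_add a2 a3, integral_sub a1 (j1.const_mul _), integral_sub (h.tfi.const_mul _) j4,
    integral_add (j2.const_mul _) (j5.const_mul _), integral_const_mul, integral_const_mul,
    integral_const_mul, integral_const_mul, h.tf0]
  have e3 : ∫ x, X.τ x * (vx x).re = -∫ x, P x * X.Gt x := by rw [j3, neg_neg]
  rw [e3]
  unfold Mx
  ring

/-- one body exponent of the one component gas -/
def Xp (X : Dat) (a : Bool) (t : ℝ) : ℝ := X.s a * v t + X.Vm a t + X.φ a t

/-- the one component weight -/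
def W1 (X : Dat) (a : Bool) {N : ℕ} (t : Fin N → ℝ) : ℝ := pom t * ∏ i, Real.exp (Xp X a (t i))

/-- the constant -/
def C0 (X : Dat) (p n : ℕ) : ℝ := Real.log (g 0) * (((p : ℝ) + n) / 2) + X.gas.S +
  (1 / 2 * (∫ x, X.τ x * X.Gt x) + (X.s true - X.s false) * (∫ x, P x * X.Gt x) -
    1 / 2 * (X.s true - X.s false) ^ 2 * Mx) - ∑ a, ∫ t, X.ρ a t * X.gas.lin a t

/-- the form of all species -/
def NF (X : Dat) (t : Fin p → ℝ) (t' : Fin n → ℝ) : ℝ :=
  nuF2 (X.ρ true) (X.ρ true) t t (X.κ true true) + nuF2 (X.ρ true) (X.ρ false) t t' (X.κ true false) +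
    (nuF2 (X.ρ false) (X.ρ true) t' t (X.κ false true) + nuF2 (X.ρ false) (X.ρ false) t' t' (X.κ false false))

/-- **the exponent identity in the final form** -/
theorem expo_eq (hG : Geo X Cκ) (hF : Fld X p n) (t : Fin p → ℝ) (t' : Fin n → ℝ) :
    Ctau p n (tf X) + (∑ i, (X.pot true (t i) + NUE.cv lgm (tf X) (t i))) +
      (∑ j, (X.pot false (t' j) - NUE.cv lgm (tf X) (t' j))) +
      KE (X.D true) (X.D1 true) (X.D false) (X.D1 false) t t' =
    C0 X p n + (∑ i, Xp X true (t i)) + (∑ j, Xp X false (t' j)) + 1 / 2 * NF X t t' := by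
  have h1 := hG.ok.expo (sig p n) (pts t t') X.κ
  rw [hG.nu2_eq] at h1
  rw [hG.ke_eq]
  unfold Gas.nu at h1
  have e1 : ∀ a t, X.pot a t = vr X.s a t + X.gas.G a t + X.E a t := by
    intro a t
    have : X.gas.G a t = (vb X.s a (X.ζ a t)).re - vr X.s a t + (X.F a (X.ζ a t)).re := rfl
    rw [this]
    unfold Dat.pot
    ring
  have e0 : ∀ t, vr X.s true t + (X.s true - X.s false) * (vx t).re = X.s true * v t := by
    intro t
    rw [v_eq]
    unfold vr
    simp only [Bool.not_true]
    ring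
  have e0' : ∀ t, vr X.s false t - (X.s true - X.s false) * (vx t).re = X.s false * v t := by
    intro t
    rw [v_eq]
    unfold vr
    simp only [Bool.not_false]
    ring
  have s1 : ∑ i, X.gas.G (sig p n i) (pts t t' i) = ∑ i, X.gas.G true (t i) + ∑ j, X.gas.G false (t' j) := by
    unfold sig pts
    simp only [Fintype.sum_sum_type, Sum.elim_inl, Sum.elim_inr]
  have s2 : ∑ i, X.gas.lin (sig p n i) (pts t t' i) =
      ∑ i, X.gas.lin true (t i) + ∑ j, X.gas.lin false (t' j) := by
    unfold sig pts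
    simp only [Fintype.sum_sum_type, Sum.elim_inl, Sum.elim_inr]
  rw [s1, s2] at h1
  have e3 : ∀ t, X.gas.lin true t = X.Gt t - X.E true t + X.Vm true t + X.φ true t := by
    intro t
    have := hF.eq true t
    unfold Dat.sg at this
    simp only [if_true] at this
    linarith
  have e4 : ∀ t, X.gas.lin false t = - X.Gt t - X.E false t + X.Vm false t + X.φ false t := by
    intro t
    have := hF.eq false t
    unfold Dat.sg at this
    simp only [Bool.false_eq_true, if_false] at this
    linarith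
  have t1 : ∑ i, (X.pot true (t i) + NUE.cv lgm (tf X) (t i)) = ∑ i, X.gas.G true (t i) +
      ∑ i, (Xp X true (t i) - X.gas.lin true (t i) + Real.log (g 0) * ((p : ℝ) - n)) := by
    rw [← Finset.sum_add_distrib]
    refine Finset.sum_congr rfl fun i _ => ?_
    rw [e1, hF.cv_eq, e3]
    unfold Xp
    linear_combination e0 (t i)
  have t2 : ∑ j, (X.pot false (t' j) - NUE.cv lgm (tf X) (t' j)) = ∑ j, X.gas.G false (t' j) +
      ∑ j, (Xp X false (t' j) - X.gas.lin false (t' j) - Real.log (g 0) * ((p : ℝ) - n)) := by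
    rw [← Finset.sum_add_distrib]
    refine Finset.sum_congr rfl fun i _ => ?_
    rw [e1, hF.cv_eq, e4]
    unfold Xp
    linear_combination e0' (t' i)
  rw [t1, t2]
  simp only [Finset.sum_add_distrib, Finset.sum_sub_distrib, Finset.sum_const, Finset.card_univ,
    Fintype.card_fin, nsmul_eq_mul]
  unfold Ctau C0
  rw [hF.int_cv]
  have e5 : ∀ a, ∫ t, X.gas.ρ a t * X.gas.lin a t = ∫ t, X.ρ a t * X.gas.lin a t := fun _ => rfl
  simp only [e5] at h1
  unfold NF
  linear_combination h1

/-- **pointwise bound** -/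
theorem point (hG : Geo X Cκ) (hF : Fld X p n) {c : ℝ → ℝ} (hc : Continuous c)
    (hce : ∀ k, c (-k) = c k) {K h : ℝ} (hh : 0 < h)
    (hK : K * h < Real.pi) (hcs : ∀ k, K < |k| → c k = 0) (hL : ∀ k, 0 < k → c k ^ 2 ≤ NUMF.Lh k)
    (La : Finset ℤ) (a0 : ℝ) (t : Fin p → ℝ) (t' : Fin n → ℝ) :
    WO (X.D true) (X.D1 true) (X.D false) (X.D1 false) (fun t => Real.exp (X.pot true t))
      (fun t => Real.exp (X.pot false t)) t t' *
        Real.exp (1 / 2 * ∑ l ∈ La, Fst c h a0 (tf X) l t t' ^ 2) ≤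
      Real.exp (C0 X p n) * (W1 X true t * W1 X false t') * Real.exp (1 / 2 * NF X t t') := by
  have h1 := WO_tau hc hce hh hK hcs hL La a0 hF.tfi hF.tf1 hF.tf0 hG.small
    (a := fun t => Real.exp (X.pot true t)) (a' := fun t => Real.exp (X.pot false t))
    (fun t => (Real.exp_pos _).le) (fun t => (Real.exp_pos _).le) t t'
  refine h1.trans (le_of_eq ?_)
  have h2 := congrArg Real.exp (expo_eq hG hF t t')
  simp only [Real.exp_add, Real.exp_sum, sub_eq_add_neg] at h2
  unfold W1
  calc _ = pom t * pom t' * (Real.exp (Ctau p n (tf X)) *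
        (∏ i, (Real.exp (X.pot true (t i)) * Real.exp (NUE.cv lgm (tf X) (t i)))) *
        (∏ j, (Real.exp (X.pot false (t' j)) * Real.exp (-NUE.cv lgm (tf X) (t' j)))) *
        Real.exp (KE (X.D true) (X.D1 true) (X.D false) (X.D1 false) t t')) := by ring
    _ = pom t * pom t' * (Real.exp (C0 X p n) * (∏ i, Real.exp (Xp X true (t i))) *
        (∏ j, Real.exp (Xp X false (t' j))) * Real.exp (1 / 2 * NF X t t')) := by rw [h2]
    _ = _ := by ring

end

end NUSea.PLX.H0
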