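import Pool.Agent.PLX.Ns
import Pool.Agent.PLX.NUSea.H0.En
import Pool.Agent.NUH0.RegT
import Pool.Agent.NUMFC.Bk

/-!
# Regularity on the line: small remainders and tails
-/

set_option autoImplicit false
set_option linter.unusedSectionVars false

open MeasureTheory Set Filter Topology
open scoped Real ENNReal

namespace NUSea.PLX.H0

open NUH0
open NUMF NUWC NUC37 NUKer NUDi NUMFC

noncomputable section

variable [Sea]

/-- regularity with tails and a `C¹` remainder -/
structure RegT (X : Dat) (T0 δ : ℝ) : Prop extends Reg X where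
  tail : ∀ a t, T0 ≤ |t| → |rm X a t| ≤ δ * Real.exp (-(|t| - T0))
  φd : ∀ a t, HasDerivAt (X.φ a) (X.φ' a t) t
  φc' : ∀ a, Continuous (X.φ' a)
  δφ : ∀ a t, δ * |X.φ a t| ≤ 1
  δ0 : 0 ≤ δ
  δ1 : δ ^ 2 * (1 + Real.log (1 + T0)) ≤ 1
  T0 : 0 ≤ T0

variable {X : Dat} {T0 δ T : ℝ}

/-- the tail constant of the window `[-T, T]` -/
def δT (T0 δ T : ℝ) : ℝ := δ * Real.exp (-(T - T0))

theorem RegT.tailT (h : RegT X T0 δ) (hT : T0 ≤ T) (a : Bool) (t : ℝ) (ht : T ≤ |t|) :
    |rm X a t| ≤ δT T0 δ T * Real.exp (-(|t| - T)) := by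
  have h1 := h.tail a t (hT.trans ht)
  refine h1.trans (le_of_eq ?_)
  unfold δT
  rw [mul_assoc, ← Real.exp_add]
  congr 2
  ring

theorem RegT.δT_nonneg (h : RegT X T0 δ) : 0 ≤ δT T0 δ T := mul_nonneg h.δ0 (Real.exp_pos _).le

theorem RegT.δT_le (h : RegT X T0 δ) (hT : T0 ≤ T) : δT T0 δ T ≤ 1 := by
  have h1 := h.δ1
  have h2 := h.δ0
  have h3 : 0 ≤ Real.log (1 + T0) := Real.log_nonneg (by linarith [h.T0])
  have h4 : δ ≤ 1 := by nlinarith [mul_nonneg (sq_nonneg δ) h3]
  have h5 : Real.exp (-(T - T0)) ≤ 1 := Real.exp_le_one_iff.2 (by linarith)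
  unfold δT
  calc δ * Real.exp (-(T - T0)) ≤ 1 * 1 := by gcongr
    _ = 1 := one_mul 1

/-- the tent term -/
theorem RegT.tent (h : RegT X T0 δ) (hT : T0 ≤ T) : δT T0 δ T ^ 2 * (2 * Gw T + 1) ≤ 23 := by
  have hT0 := h.T0
  have h1 := h.δ1
  have h3 : 0 ≤ Real.log (1 + T0) := Real.log_nonneg (by linarith)
  have hx : 0 ≤ T - T0 := by linarith
  have h4 : Real.log (1 + T) ≤ Real.log (1 + T0) + (T - T0) := by
    have h5 : Real.log (1 + T) ≤ Real.log ((1 + T0) * (1 + (T - T0))) :=
      Real.log_le_log (by linarith) (by nlinarith)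
    rw [Real.log_mul (by linarith) (by linarith)] at h5
    have h6 := Real.log_le_sub_one_of_pos (show 0 < 1 + (T - T0) by linarith)
    linarith
  have h7 : Real.exp (-(T - T0)) ≤ 1 := Real.exp_le_one_iff.2 (by linarith)
  have h8 : (T - T0) * Real.exp (-(T - T0)) ≤ 1 := by
    have h9 := Real.add_one_le_exp (T - T0)
    rw [Real.exp_neg, ← div_eq_mul_inv, div_le_one (Real.exp_pos _)]
    linarith
  have h0 := (Real.exp_pos (-(T - T0))).le
  have hd2 : δ ^ 2 ≤ 1 := by nlinarith [mul_nonneg (sq_nonneg δ) h3]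
  unfold Gw δT
  set e := Real.exp (-(T - T0)) with he
  have h10 : (δ * e) ^ 2 * (2 * (9 + 2 * Real.log (1 + T)) + 1) ≤
      (δ * e) ^ 2 * (19 + 4 * Real.log (1 + T0) + 4 * (T - T0)) := by
    refine mul_le_mul_of_nonneg_left ?_ (sq_nonneg _)
    linarith
  have h11 : (δ * e) ^ 2 * (19 + 4 * Real.log (1 + T0)) ≤ 19 := by
    have h12 : e ^ 2 ≤ 1 := by nlinarith
    have h13 : δ ^ 2 * (19 + 4 * Real.log (1 + T0)) ≤ 19 := by nlinarith [mul_nonneg (sq_nonneg δ) h3]
    have h14 : 0 ≤ δ ^ 2 * (19 + 4 * Real.log (1 + T0)) := by positivity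
    calc (δ * e) ^ 2 * (19 + 4 * Real.log (1 + T0)) = e ^ 2 * (δ ^ 2 * (19 + 4 * Real.log (1 + T0))) := by
          ring
      _ ≤ 1 * 19 := by gcongr
      _ = 19 := one_mul _
  have h15 : (δ * e) ^ 2 * (4 * (T - T0)) ≤ 4 := by
    have h16 : 0 ≤ (T - T0) * e := by positivity
    calc (δ * e) ^ 2 * (4 * (T - T0)) = 4 * (δ ^ 2 * e * ((T - T0) * e)) := by ring
      _ ≤ 4 * (1 * 1 * 1) := by gcongr
      _ = 4 := by norm_num
  nlinarith

/-- energy of the remainder of one species on the window -/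
def Nl (X : Dat) (T : ℝ) (a : Bool) : ℝ := ∫ t in (-(T + 1))..(T + 1), (X.φ a t ^ 2 + X.φ' a t ^ 2)

/-- energy of the remainder on the window -/
def NT (X : Dat) (T : ℝ) : ℝ := Nl X T true + Nl X T false

theorem Nl_nonneg (X : Dat) (hT : 0 ≤ T) (a : Bool) : 0 ≤ Nl X T a :=
  intervalIntegral.integral_nonneg (by linarith) fun t _ => by positivity

/-- the linear term of the window -/
theorem RegT.lin (h : RegT X T0 δ) (hT : T0 ≤ T) (a : Bool) :
    (∫ t in (-(Lw T / 2))..(Lw T / 2), rm X a t * (chi T t * X.φ a t)) ≤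
      (∫ t, rm X a t * X.φ a t) + 2 := by
  have hT0 : 0 ≤ T := h.T0.trans hT
  have hLw := Lw_ge hT0
  have hle : -(Lw T / 2) ≤ Lw T / 2 := by linarith
  have hrc := rm_cont h.toReg a
  have hri := rm_int h.toReg a
  obtain ⟨Mφ, hMφ⟩ := h.φb a
  have hφc := h.φc a
  have hcc := chi_cont T
  have hcb : ∀ t, |chi T t * X.φ a t| ≤ Mφ := fun t => by
    rw [abs_mul]
    calc |chi T t| * |X.φ a t| ≤ 1 * Mφ := by
          gcongr
          · exact chi_abs T t
          · exact hMφ t
      _ = Mφ := one_mul _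
  have i1 : Integrable fun t => rm X a t * (chi T t * X.φ a t) := int_mul_bc hri (by fun_prop) hcb
  have i2 : Integrable fun t => rm X a t * X.φ a t := int_mul_bc hri hφc hMφ
  have e1 : (∫ t in (-(Lw T / 2))..(Lw T / 2), rm X a t * (chi T t * X.φ a t)) =
      ∫ t, rm X a t * (chi T t * X.φ a t) := by
    rw [intervalIntegral.integral_of_le hle]
    refine setIntegral_eq_integral_of_forall_compl_eq_zero fun x hx => ?_
    rw [chi_out, zero_mul, mul_zero]
    by_contra hh
    push Not at hh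
    rw [abs_lt] at hh
    exact hx ⟨by linarith, by linarith⟩
  have h2 : |(∫ t, rm X a t * (chi T t * X.φ a t)) - ∫ t, rm X a t * X.φ a t| ≤ 2 := by
    rw [← integral_sub i1 i2, ← Real.norm_eq_abs]
    have h3 := tail2 (T := T) (f := fun t => rm X a t * X.φ a t) zero_le_one i2 (fun t ht => by
      have h4 := h.tailT hT a t ht
      have h5 := h.δφ a t
      have h6 : Real.exp (-(T - T0)) ≤ 1 := Real.exp_le_one_iff.2 (by linarith)
      rw [abs_mul]
      calc |rm X a t| * |X.φ a t| ≤ (δT T0 δ T * Real.exp (-(|t| - T))) * |X.φ a t| := by gcongr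
        _ = Real.exp (-(T - T0)) * (δ * |X.φ a t|) * Real.exp (-(|t| - T)) := by
            unfold δT
            ring
        _ ≤ 1 * 1 * Real.exp (-(|t| - T)) := by
            have h7 := mul_nonneg h.δ0 (abs_nonneg (X.φ a t))
            gcongr
        _ = _ := by ring)
    have hms : MeasurableSet {x : ℝ | T ≤ |x|} := measurableSet_le measurable_const (by fun_prop)
    refine (norm_integral_le_of_norm_le (g := {x : ℝ | T ≤ |x|}.indicator
      fun t => |rm X a t * X.φ a t|) ?_ (ae_of_all _ fun t => ?_)).trans ?_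
    · exact i2.abs.indicator hms
    · rw [Real.norm_eq_abs]
      by_cases ht : T ≤ |t|
      · rw [indicator_of_mem (show t ∈ {x : ℝ | T ≤ |x|} from ht)]
        have c1 : |chi T t - 1| ≤ 1 := by
          have a1 := chi_abs T t
          have a2 : 0 ≤ chi T t := by
            unfold chi
            exact mul_nonneg (cutS_nonneg _) (cutS_nonneg _)
          have a3 := abs_le.1 a1
          exact abs_le.2 ⟨by linarith, by linarith⟩
        calc |rm X a t * (chi T t * X.φ a t) - rm X a t * X.φ a t| =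
            |chi T t - 1| * |rm X a t * X.φ a t| := by
              rw [← abs_mul]
              congr 1
              ring
          _ ≤ 1 * |rm X a t * X.φ a t| := by gcongr
          _ = _ := one_mul _
      · rw [indicator_of_notMem (show t ∉ {x : ℝ | T ≤ |x|} from ht), chi_in (le_of_not_ge ht)]
        simp
    · rw [integral_indicator hms]
      linarith
  have h9 := (abs_le.1 h2).2
  rw [e1]
  linarith

end

end NUSea.PLX.H0
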