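import Pool.Agent.PLX.Ns
import Pool.Agent.PLX.NUSea.H0.RegT
import Pool.Agent.NUH0.ShH0
import Pool.Agent.PLX.R2.SqS

/-!
# The positive gas on a window in the form of the data `Dat`

`sh_H0`: for every window `[-T, T]`, `T ≥ T0 ≥ (3/8) log m`,
`∫ WO exp (1/2 ∑ F_l²) ≤ p! n! exp (MFs + En + (7/3 + ε) T + C (1 + NT) + small - mass terms)`, where
`NT` is the energy of the remainder `φ` on `[-(T+1), T+1]`, and the same with one more square (`SqC`).
-/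

set_option autoImplicit false
set_option linter.unusedSectionVars false

open MeasureTheory Set Filter Topology
open scoped Real ENNReal

namespace NUSea.PLX.H0

open NUH0
open NUMF NUWC NUC37 NUKer NUDi NUMFC NUR2

noncomputable section

variable [Sea]

variable {X : Dat} {Cκ : ℝ} {p n : ℕ}

/-- the kernels of the form -/
def kh (X : Dat) (a d : Bool) (t t' : ℝ) : ℝ := 1 / 2 * X.κ a d t t'

theorem kh_KC {R Λ1 : ℝ} (h : ∀ a d, KC R Λ1 (fun t t' => ((X.κ a d t t' : ℝ) : ℂ))) (a d : Bool) :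
    KC R (1 / 2 * Λ1) (fun t t' => ((kh X a d t t' : ℝ) : ℂ)) := by
  have h1 := (h a d).smul ((1 / 2 : ℝ) : ℂ)
  have e : ‖((1 / 2 : ℝ) : ℂ)‖ = 1 / 2 := by
    rw [Complex.norm_real, Real.norm_eq_abs, abs_of_pos (by norm_num)]
  rw [e] at h1
  refine h1.congr fun t t' _ _ => ?_
  unfold kh
  push_cast
  ring

/-- the sum of the numbers -/
def ss (X : Dat) : ℝ := X.s true + X.s false

/-- the form with cut kernels -/
theorem NF_cut (hG : Geo X Cκ) {bb : ℝ → ℝ} (hb : Continuous bb) (hb1 : ∀ t, |bb t| ≤ 1) {ε : ℝ}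
    (he : ∀ a d t t', |X.κ a d t t' - bb t * bb t' * X.κ a d t t'| ≤ ε)
    (ω : (Fin p → ℝ) × (Fin n → ℝ)) :
    1 / 2 * NF X ω.1 ω.2 ≤ QFF bb X.ρ (kh X) (spF p n) ω +
      ε / 2 * ((p : ℝ) + n + ss X) ^ 2 := by
  have hρ := hG.dens
  have hk := hG.bk
  have e : ∀ {m m' : ℕ} (t : Fin m → ℝ) (t' : Fin m' → ℝ) (a d : Bool),
      nuF2 (X.ρ a) (X.ρ d) t t' (fun u u' => bb u * bb u' * kh X a d u u') =
      1 / 2 * nuF2 (X.ρ a) (X.ρ d) t t' (fun u u' => bb u * bb u' * X.κ a d u u') := by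
    intro m m' t t' a d
    rw [← nuF2_smul]
    congr 1
    funext u u'
    unfold kh
    ring
  have g : ∀ {m m' : ℕ} (t : Fin m → ℝ) (t' : Fin m' → ℝ) (a d : Bool),
      nuF2 (X.ρ a) (X.ρ d) t t' (X.κ a d) ≤
        nuF2 (X.ρ a) (X.ρ d) t t' (fun u u' => bb u * bb u' * X.κ a d u u') +
        ε * ((m' : ℝ) + X.s d) * ((m : ℝ) + X.s a) := by
    intro m m' t t' a d
    have h1 := NU42.nuF2_diff (hρ a) (hρ d) t t' (hk a d) ((hk a d).cut (R := 0) hb hb1) (he a d)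
    have g1 := (abs_le.1 h1).2
    unfold NU42.tm at g1
    simp only [Fintype.card_fin, Geo.int_rho] at g1
    linarith
  have g1 := g ω.1 ω.1 true true
  have g2 := g ω.1 ω.2 true false
  have g3 := g ω.2 ω.1 false true
  have g4 := g ω.2 ω.2 false false
  have e1 : QFF bb X.ρ (kh X) (spF p n) ω =
      (1 / 2 * nuF2 (X.ρ true) (X.ρ true) ω.1 ω.1 (fun u u' => bb u * bb u' * X.κ true true u u') +
       1 / 2 * nuF2 (X.ρ true) (X.ρ false) ω.1 ω.2 (fun u u' => bb u * bb u' * X.κ true false u u')) +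
      (1 / 2 * nuF2 (X.ρ false) (X.ρ true) ω.2 ω.1 (fun u u' => bb u * bb u' * X.κ false true u u') +
       1 / 2 * nuF2 (X.ρ false) (X.ρ false) ω.2 ω.2
        (fun u u' => bb u * bb u' * X.κ false false u u')) := by
    unfold QFF
    rw [Fintype.sum_bool, Fintype.sum_bool, Fintype.sum_bool, ← e, ← e, ← e, ← e]
    rfl
  rw [e1]
  unfold NF ss
  have e2 : ε / 2 * ((p : ℝ) + n + (X.s true + X.s false)) ^ 2 =
      1 / 2 * (ε * ((p : ℝ) + X.s true) * ((p : ℝ) + X.s true)) +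
      1 / 2 * (ε * ((n : ℝ) + X.s false) * ((p : ℝ) + X.s true)) +
      (1 / 2 * (ε * ((p : ℝ) + X.s true) * ((n : ℝ) + X.s false)) +
      1 / 2 * (ε * ((n : ℝ) + X.s false) * ((n : ℝ) + X.s false))) := by ring
  rw [e2]
  linarith

/-- the real weight -/
def Wt0 (X : Dat) (p n : ℕ) (ch : ℝ → ℝ) (h : ℝ) (La : Finset ℤ) (a0 : ℝ) (aX aY : ℝ → ℝ)
    (ω : (Fin p → ℝ) × (Fin n → ℝ)) : ℝ :=
  NU42.WO (X.D true) (X.D1 true) (X.D false) (X.D1 false) aX aY ω.1 ω.2 *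
    Real.exp (1 / 2 * ∑ l ∈ La, NU42.Fst ch h a0 (tf X) l ω.1 ω.2 ^ 2)

/-- without the splitting -/
theorem Wt0_empty (X : Dat) (p n : ℕ) (ch : ℝ → ℝ) (h a0 : ℝ) (aX aY : ℝ → ℝ) :
    Wt0 X p n ch h ∅ a0 aX aY = fun ω =>
      NU42.WO (X.D true) (X.D1 true) (X.D false) (X.D1 false) aX aY ω.1 ω.2 := by
  funext ω
  unfold Wt0
  simp

/-- **pointwise on the window** -/
theorem sh_pt (hG : Geo X Cκ) (hF : Fld X p n) (hR : Reg X) {ch : ℝ → ℝ} {K h : ℝ}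
    (hg : Grid ch K h) (La : Finset ℤ) (a0 : ℝ) {bb : ℝ → ℝ} (hb : Continuous bb)
    (hb1 : ∀ t, |bb t| ≤ 1) {ε : ℝ}
    (he : ∀ a d t t', |X.κ a d t t' - bb t * bb t' * X.κ a d t t'| ≤ ε) {T : ℝ} {aX aY : ℝ → ℝ}
    (haX : ∀ t, 0 ≤ aX t) (haY : ∀ t, 0 ≤ aY t)
    (hX : ∀ t, |t| ≤ T → aX t ≤ Real.exp (X.pot true t))
    (hY : ∀ t, |t| ≤ T → aY t ≤ Real.exp (X.pot false t)) (ω : (Fin p → ℝ) × (Fin n → ℝ)) :
    (NU42.Bw p n T).indicator (fun ω => ENNReal.ofReal (Wt0 X p n ch h La a0 aX aY ω)) ω ≤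
      ENNReal.ofReal (Real.exp (C0 X p n + ε / 2 * ((p : ℝ) + n + ss X) ^ 2)) *
      (WT T p (rm X true) (X.φ true) ω.1 * WT T n (rm X false) (X.φ false) ω.2 *
        ENNReal.ofReal (Real.exp (QFF bb X.ρ (kh X) (spF p n) ω))) := by
  by_cases hω : ω ∈ NU42.Bw p n T
  · rw [indicator_of_mem hω]
    obtain ⟨w1, w2⟩ := NU42.mem_Bw.1 hω
    have h1 := point hG hF hg.cont hg.even hg.pos hg.nyq hg.supp hg.le La a0 ω.1 ω.2
    have h2 := NF_cut (n := n) hG hb hb1 he ω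
    have h3 := WO_mono (DX := X.D true) (DX1 := X.D1 true) (DY := X.D false) (DY1 := X.D1 false)
      haX haY ω.1 ω.2 (b := fun t => Real.exp (X.pot true t)) (b' := fun t => Real.exp (X.pot false t))
      (fun i => hX _ (w1 i)) (fun i => hY _ (w2 i))
    have e : ∀ (a : Bool) (m : ℕ) (t : Fin m → ℝ), (∀ i, |t i| ≤ T) →
        ENNReal.ofReal (W1 X a t) = WT T m (rm X a) (X.φ a) t := by
      intro a m t ht
      have hm : t ∈ univ.pi fun _ : Fin m => Icc (-T) T := fun i _ => abs_le.1 (ht i)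
      unfold WT W1
      rw [indicator_of_mem hm]
      simp only [Xp_eq hR]
      rfl
    rw [← e true p ω.1 w1, ← e false n ω.2 w2]
    have p1 : 0 ≤ W1 X true ω.1 := mul_nonneg (NU42.pom_nonneg _)
      (Finset.prod_nonneg fun i _ => (Real.exp_pos _).le)
    have p2 : 0 ≤ W1 X false ω.2 := mul_nonneg (NU42.pom_nonneg _)
      (Finset.prod_nonneg fun i _ => (Real.exp_pos _).le)
    rw [← ENNReal.ofReal_mul p1, ← ENNReal.ofReal_mul (by positivity),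
      ← ENNReal.ofReal_mul (Real.exp_pos _).le]
    refine ENNReal.ofReal_le_ofReal ?_
    unfold Wt0
    have h4 : NU42.WO (X.D true) (X.D1 true) (X.D false) (X.D1 false) aX aY ω.1 ω.2 *
        Real.exp (1 / 2 * ∑ l ∈ La, NU42.Fst ch h a0 (tf X) l ω.1 ω.2 ^ 2) ≤
        Real.exp (C0 X p n) * (W1 X true ω.1 * W1 X false ω.2) * Real.exp (1 / 2 * NF X ω.1 ω.2) :=
      (mul_le_mul_of_nonneg_right h3 (Real.exp_pos _).le).trans h1
    refine h4.trans ?_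
    have h5 := Real.exp_le_exp.2 h2
    rw [Real.exp_add] at h5
    calc Real.exp (C0 X p n) * (W1 X true ω.1 * W1 X false ω.2) * Real.exp (1 / 2 * NF X ω.1 ω.2) ≤
        Real.exp (C0 X p n) * (W1 X true ω.1 * W1 X false ω.2) *
          (Real.exp (QFF bb X.ρ (kh X) (spF p n) ω) *
          Real.exp (ε / 2 * ((p : ℝ) + n + ss X) ^ 2)) := by gcongr
      _ = _ := by
        rw [Real.exp_add (C0 X p n)]
        ring
  · rw [indicator_of_notMem hω]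
    exact bot_le

variable {R T T0 δ Λ1 c' ε m2 δ2 a0 K h : ℝ} {bb bb' ch : ℝ → ℝ}

/-- one species -/
theorem sh_one (hR : RegT X T0 δ) (hT0 : 0 < T) (hT : T0 ≤ T) (hb : Cut1 R bb bb') (a : Bool) (m : ℕ)
    (hm2 : ∫ t in {t | |t| ≤ R}, |X.μ a t| ≤ m2) (hδ2 : ∫ t in {t | T ≤ |t|}, |X.ρ a t| ≤ δ2)
    {M' : ℝ} (hM' : (m2 + δ2) ^ 2 + 44 * Nl X T a ≤ M') :
    OneF bb (X.ρ a) (WT T m (rm X a) (X.φ a)) (ENNReal.ofReal (BT (Gw T) (Lw T) (δT T0 δ T) m (rm X a)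
      fun t => chi T t * X.φ a t)) (22 * R) M' := by
  have hG := Gw_ge hT0.le
  have hL := Lw_pos hT0.le
  have hTL : 2 * T + 2 ≤ Lw T := by linarith [Lw_ge hT0.le]
  obtain ⟨M, hM⟩ := rm_bdd hR.toReg a
  have h1 := oneF_R (G := Gw T) (R := R) (ρν := X.ρ a) hG hT0 m (rm_cont hR.toReg a) (rm_int hR.toReg a) hM
    (fun t ht => hR.tailT hT a t ht) (L := Lw T) rfl
    (cut_C1P hL hTL (fun x _ => hR.φd a x) (hR.φc' a).continuousOn) (F := X.φ a)
    (fun x hx => by simp only [chi_in hx, one_mul]; exact le_rfl) hb.cutf hb.one hb.der hb.cont' hb.le'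
    (ρ_int X a) (m2 := m2) (δ2 := δ2) (by
      refine le_trans (le_of_eq ?_) hm2
      congr 1
      funext t
      unfold rm
      congr 1
      ring) hδ2
  have hQ := Qt_cut hG hT0.le hTL (hR.φd a) (hR.φc' a)
  refine ExpF.mono h1 (fun _ => le_rfl) le_rfl le_rfl ?_
  have h2 : (m2 + δ2) ^ 2 + 4 * Qt (Gw T) (Lw T) (fun t => chi T t * X.φ a t) ≤ M' := by
    refine le_trans ?_ hM'
    have : Nl X T a = ∫ x in (-(T + 1))..(T + 1), (X.φ a x ^ 2 + X.φ' a x ^ 2) := rfl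
    linarith
  have h3 : 0 ≤ 22 * R := by linarith [hb.one]
  gcongr

/-- measurability of the one component weights -/
theorem sh_meas (hR : Reg X) (a : Bool) (m : ℕ) : Measurable (WT T m (rm X a) (X.φ a)) :=
  WT_meas (rm_cont hR a).measurable (hR.φc a).measurable m

/-- **the window bound** -/
theorem sh_int (hG : Geo X Cκ) (hF : Fld X p n) (hR : RegT X T0 δ) (hg : Grid ch K h) (La : Finset ℤ)
    (hb : Cut1 R bb bb') (he : ∀ a d t t', |X.κ a d t t' - bb t * bb t' * X.κ a d t t'| ≤ ε)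
    (hKC : ∀ a d, KC R Λ1 (fun t t' => ((X.κ a d t t' : ℝ) : ℂ)))
    (hc0 : 0 < c') (hc1 : 2 * Λ1 ≤ c') (hq : 8 * c' * (22 * R) ≤ 1) (hT0 : 0 < T) (hT : T0 ≤ T)
    {aX aY : ℝ → ℝ} (haX : ∀ t, 0 ≤ aX t) (haY : ∀ t, 0 ≤ aY t)
    (hX : ∀ t, |t| ≤ T → aX t ≤ Real.exp (X.pot true t))
    (hY : ∀ t, |t| ≤ T → aY t ≤ Real.exp (X.pot false t))
    (hm2 : ∀ a, ∫ t in {t | |t| ≤ R}, |X.μ a t| ≤ m2) (hδ2 : ∀ a, ∫ t in {t | T ≤ |t|}, |X.ρ a t| ≤ δ2) :
    ∫⁻ ω in NU42.Bw p n T, ENNReal.ofReal (Wt0 X p n ch h La a0 aX aY ω) ≤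
      ENNReal.ofReal (Real.exp (C0 X p n + ε / 2 * ((p : ℝ) + n + ss X) ^ 2)) *
      (ENNReal.ofReal (BT (Gw T) (Lw T) (δT T0 δ T) p (rm X true) fun t => chi T t * X.φ true t) *
       ENNReal.ofReal (BT (Gw T) (Lw T) (δT T0 δ T) n (rm X false) fun t => chi T t * X.φ false t) *
      ENNReal.ofReal (√2 * Real.exp (4 * c' * (22 * R) * ((m2 + δ2) ^ 2 + 44 * NT X T)))) := by
  have hN1 := Nl_nonneg X hT0.le true
  have hN2 := Nl_nonneg X hT0.le false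
  have hNe : NT X T = Nl X T true + Nl X T false := rfl
  have hR0 : 0 ≤ 22 * R := by linarith [hb.one]
  have oX := sh_one hR hT0 hT hb true p (hm2 true) (hδ2 true) (M' := (m2 + δ2) ^ 2 + 44 * NT X T) (by linarith)
  have oY := sh_one hR hT0 hT hb false n (hm2 false) (hδ2 false) (M' := (m2 + δ2) ^ 2 + 44 * NT X T) (by linarith)
  have hM0 : 0 ≤ (m2 + δ2) ^ 2 + 44 * NT X T := by
    have := sq_nonneg (m2 + δ2)
    linarith
  have h1 := crudeF2 (κ := kh X) (Λ := fun _ _ => 1 / 2 * Λ1) hb.cutf (ρ := X.ρ)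
    (ρ_cont X) (sh_meas (T := T) hR.toReg true p) (sh_meas (T := T) hR.toReg false n)
    (kh_KC hKC) hc0 (by simp only [Fintype.sum_bool]; linarith) hR0 hM0 hq oX oY (fun _ => le_rfl)
  rw [← lintegral_indicator (NU42.Bw_meas T)]
  refine (lintegral_mono fun ω => sh_pt hG hF hR.toReg hg La a0 hb.cutf.cont hb.cutf.le he haX haY hX
    hY ω).trans ?_
  rw [lintegral_const_mul' _ _ ENNReal.ofReal_ne_top]
  exact mul_le_mul_right h1 _

/-- **the window bound with one more square** -/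
theorem sh_int_sq (hG : Geo X Cκ) (hF : Fld X p n) (hR : RegT X T0 δ) (hg : Grid ch K h)
    (La : Finset ℤ) (hb : Cut1 R bb bb')
    (he : ∀ a d t t', |X.κ a d t t' - bb t * bb t' * X.κ a d t t'| ≤ ε)
    (hKC : ∀ a d, KC R Λ1 (fun t t' => ((X.κ a d t t' : ℝ) : ℂ)))
    (hc0 : 0 < c') (hc1 : 4 * Λ1 ≤ c') (hq : 8 * c' * (22 * R) ≤ 1) (hT0 : 0 < T) (hT : T0 ≤ T)
    {aX aY : ℝ → ℝ} (haX : ∀ t, 0 ≤ aX t) (haY : ∀ t, 0 ≤ aY t)
    (hX : ∀ t, |t| ≤ T → aX t ≤ Real.exp (X.pot true t))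
    (hY : ∀ t, |t| ≤ T → aY t ≤ Real.exp (X.pot false t))
    (hm2 : ∀ a, ∫ t in {t | |t| ≤ R}, |X.μ a t| ≤ m2) (hδ2 : ∀ a, ∫ t in {t | T ≤ |t|}, |X.ρ a t| ≤ δ2)
    {A : ℝ} (hA : ENNReal.ofReal (Real.exp (C0 X p n + ε / 2 * ((p : ℝ) + n + ss X) ^ 2)) *
      (ENNReal.ofReal (BT (Gw T) (Lw T) (δT T0 δ T) p (rm X true) fun t => chi T t * X.φ true t) *
       ENNReal.ofReal (BT (Gw T) (Lw T) (δT T0 δ T) n (rm X false) fun t => chi T t * X.φ false t) *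
      ENNReal.ofReal (√2 * Real.exp (4 * c' * (22 * R) * ((m2 + δ2) ^ 2 + 44 * NT X T)))) ≤
      ENNReal.ofReal A) :
    SqC2 (Wt0 X p n ch h La a0 aX aY) T bb (X.ρ true) (X.ρ false) A c' := by
  have hN1 := Nl_nonneg X hT0.le true
  have hN2 := Nl_nonneg X hT0.le false
  have hNe : NT X T = Nl X T true + Nl X T false := rfl
  have hR0 : 0 ≤ 22 * R := by linarith [hb.one]
  have oX := sh_one hR hT0 hT hb true p (hm2 true) (hδ2 true) (M' := (m2 + δ2) ^ 2 + 44 * NT X T) (by linarith)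
  have oY := sh_one hR hT0 hT hb false n (hm2 false) (hδ2 false) (M' := (m2 + δ2) ^ 2 + 44 * NT X T) (by linarith)
  have hM0 : 0 ≤ (m2 + δ2) ^ 2 + 44 * NT X T := by
    have := sq_nonneg (m2 + δ2)
    linarith
  have mX := sh_meas (T := T) hR.toReg true p
  have mY := sh_meas (T := T) hR.toReg false n
  have h1 := fun (k : Bool) (al : ℝ) => crudeF_sq (μ := (volume : Measure ((Fin p → ℝ) × (Fin n → ℝ))))
    (s := spF p n) (κ := kh X) (Λ := fun _ _ => 1 / 2 * Λ1) (Λ0 := c' / 2)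
    (ρ := X.ρ) hb.cutf ((mX.comp measurable_fst).mul (mY.comp measurable_snd))
    measurable_spF (ρ_cont X) (kh_KC hKC) (by linarith)
    (by simp only [Fintype.sum_bool]; linarith) hR0
    hM0 (c := c') (by linarith) hq (two_expF (ρ := X.ρ) hb.cutf.cont mX mY oX oY) k al
  have go : ∀ N : (Fin p → ℝ) × (Fin n → ℝ) → ℝ,
      ∫⁻ ω : (Fin p → ℝ) × (Fin n → ℝ),
        (WT T p (rm X true) (X.φ true) ω.1 * WT T n (rm X false) (X.φ false) ω.2) *
        ENNReal.ofReal (Real.exp (QFF bb X.ρ (kh X) (spF p n) ω + N ω)) ≤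
      ENNReal.ofReal (BT (Gw T) (Lw T) (δT T0 δ T) p (rm X true) fun t => chi T t * X.φ true t) *
       ENNReal.ofReal (BT (Gw T) (Lw T) (δT T0 δ T) n (rm X false) fun t => chi T t * X.φ false t) *
      ENNReal.ofReal (√2 * Real.exp (4 * c' * (22 * R) * ((m2 + δ2) ^ 2 + 44 * NT X T))) →
      ∫⁻ ω in NU42.Bw p n T, ENNReal.ofReal (Wt0 X p n ch h La a0 aX aY ω * Real.exp (N ω)) ≤
        ENNReal.ofReal A := by
    intro N hD
    rw [← lintegral_indicator (NU42.Bw_meas T)]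
    refine le_trans (lintegral_mono fun ω => ?_) (le_trans (le_of_eq
      (lintegral_const_mul' _ _ ENNReal.ofReal_ne_top)) ((mul_le_mul_right hD _).trans hA))
    have h2 := sh_pt hG hF hR.toReg hg La a0 hb.cutf.cont hb.cutf.le he haX haY hX hY ω (T := T)
    have e : ENNReal.ofReal (Real.exp (QFF bb X.ρ (kh X) (spF p n) ω + N ω)) =
        ENNReal.ofReal (Real.exp (QFF bb X.ρ (kh X) (spF p n) ω)) *
          ENNReal.ofReal (Real.exp (N ω)) := by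
      rw [Real.exp_add, ENNReal.ofReal_mul (Real.exp_pos _).le]
    rw [e, ← mul_assoc (_ * _), ← mul_assoc]
    by_cases hω : ω ∈ NU42.Bw p n T
    · rw [indicator_of_mem hω] at h2 ⊢
      rw [ENNReal.ofReal_mul' (Real.exp_pos _).le]
      exact mul_le_mul_left h2 _
    · rw [indicator_of_notMem hω]
      exact bot_le
  exact ⟨fun a => go _ (h1 true a).1, fun a => go _ (h1 true a).2, fun a => go _ (h1 false a).1,
    fun a => go _ (h1 false a).2⟩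

/-- the mass term of one species -/
def Mt (X : Dat) (T : ℝ) (a : Bool) (m : ℕ) : ℝ :=
  NUC62.uG (Gw T) (Lw T) / 4 * ((m : ℝ) - ∫ t in (-(Lw T / 2))..(Lw T / 2), rm X a t) ^ 2

theorem Mt_nonneg (X : Dat) (hT : 0 ≤ T) (a : Bool) (m : ℕ) : 0 ≤ Mt X T a m := by
  have h := uG_ge (Gw_ge hT) (Lw_pos hT)
  have h2 := Lw_pos hT
  have h3 : 0 ≤ NUC62.uG (Gw T) (Lw T) := le_trans (by positivity) h
  unfold Mt
  positivity

/-- the constant of one species -/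
theorem BT_le (hR : RegT X T0 δ) (hT0 : 0 < T) (hT : T0 ≤ T) (a : Bool) (m : ℕ) :
    BT (Gw T) (Lw T) (δT T0 δ T) m (rm X a) (fun t => chi T t * X.φ a t) ≤
      (m.factorial : ℝ) * cpc ^ m * Real.exp ((1 / 2 * (∫ t, rm X a t * ∫ u, rm X a u * V (t - u)) +
        ∫ t, rm X a t * X.φ a t) + (7 / 12 * Lw T + NUC62.err (Gw T) (Lw T) m) +
        (23 * cV + 2 + 11 * Nl X T a) - Mt X T a m) := by
  have hG := Gw_ge hT0.le
  have hL := Lw_pos hT0.le
  have hTL : 2 * T + 2 ≤ Lw T := by linarith [Lw_ge hT0.le]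
  have hQ := Qt_cut hG hT0.le hTL (hR.φd a) (hR.φc' a)
  have hl := hR.lin hT a
  have ht := hR.tent hT
  have hcV := cV_pos
  have e : cV * δT T0 δ T ^ 2 * (2 * Gw T + 1) ≤ 23 * cV := by
    calc cV * δT T0 δ T ^ 2 * (2 * Gw T + 1) = cV * (δT T0 δ T ^ 2 * (2 * Gw T + 1)) := by ring
      _ ≤ cV * 23 := by gcongr
      _ = _ := mul_comm _ _
  unfold BT
  have hc : (2 * Real.pi / √NUC62.cω) = cpc := rfl
  rw [hc]
  have hcp := cpc_pos
  refine mul_le_mul_of_nonneg_left (Real.exp_le_exp.2 ?_) (by positivity)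
  unfold B0 Mt
  have e2 : Nl X T a = ∫ x in (-(T + 1))..(T + 1), (X.φ a x ^ 2 + X.φ' a x ^ 2) := rfl
  linarith

/-- **the total constant**, `δ2 ≤ k'` -/
theorem const_le (hG : Geo X Cκ) (hF : Fld X p n) (hR : RegT X T0 δ) (hT0 : 0 < T) (hT : T0 ≤ T)
    (hb : 1 ≤ R) (hc0 : 0 < c') (hq : 8 * c' * (22 * R) ≤ 1) :
    ENNReal.ofReal (Real.exp (C0 X p n + ε / 2 * ((p : ℝ) + n + ss X) ^ 2)) *
      (ENNReal.ofReal (BT (Gw T) (Lw T) (δT T0 δ T) p (rm X true) fun t => chi T t * X.φ true t) *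
       ENNReal.ofReal (BT (Gw T) (Lw T) (δT T0 δ T) n (rm X false) fun t => chi T t * X.φ false t) *
      ENNReal.ofReal (√2 * Real.exp (4 * c' * (22 * R) * ((m2 + δ2) ^ 2 + 44 * NT X T)))) ≤
    ENNReal.ofReal ((p.factorial : ℝ) * n.factorial * Real.exp (MFs X.s p n + X.En +
      ((7 / 12 * Lw T + NUC62.err (Gw T) (Lw T) p) + (7 / 12 * Lw T + NUC62.err (Gw T) (Lw T) n)) +
      (46 * cV + 5 + δ2 ^ 2 + 33 * NT X T + 176 * c' * R * m2 ^ 2 +
        ε / 2 * ((p : ℝ) + n + ss X) ^ 2) - Mt X T true p - Mt X T false n)) := by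
  have hN1 := Nl_nonneg X hT0.le true
  have hN2 := Nl_nonneg X hT0.le false
  have hNe : NT X T = Nl X T true + Nl X T false := rfl
  have hcp := cpc_pos
  have b1 := BT_le hR hT0 hT true p
  have b2 := BT_le hR hT0 hT false n
  set A1 := (1 / 2 * (∫ t, rm X true t * ∫ u, rm X true u * V (t - u)) +
        ∫ t, rm X true t * X.φ true t) with hA1
  set A2 := (1 / 2 * (∫ t, rm X false t * ∫ u, rm X false u * V (t - u)) +
        ∫ t, rm X false t * X.φ false t) with hA2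
  have hC := C0_eq hG hF hR.toReg
  rw [Fintype.sum_bool, ← hA1, ← hA2] at hC
  have hM := exp_MFs' X.s p n
  have hs2 : √2 ≤ Real.exp 1 := by
    have h1 : √2 ≤ 2 := by
      rw [Real.sqrt_le_left (by norm_num)]
      norm_num
    have h2 := Real.add_one_le_exp (1 : ℝ)
    linarith
  have hexp : 4 * c' * (22 * R) * ((m2 + δ2) ^ 2 + 44 * NT X T) ≤
      176 * c' * R * m2 ^ 2 + δ2 ^ 2 + 22 * NT X T := by
    have h1 : (m2 + δ2) ^ 2 ≤ 2 * m2 ^ 2 + 2 * δ2 ^ 2 := by nlinarith [sq_nonneg (m2 - δ2)]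
    have h2 : 0 ≤ 4 * c' * (22 * R) := by positivity
    have h3 : 4 * c' * (22 * R) ≤ 1 / 2 := by linarith
    have h4 : 0 ≤ NT X T := by linarith
    calc 4 * c' * (22 * R) * ((m2 + δ2) ^ 2 + 44 * NT X T) ≤
        4 * c' * (22 * R) * ((2 * m2 ^ 2 + 2 * δ2 ^ 2) + 44 * NT X T) := by gcongr
      _ = 176 * c' * R * m2 ^ 2 + 4 * c' * (22 * R) * (2 * δ2 ^ 2 + 44 * NT X T) := by ring
      _ ≤ 176 * c' * R * m2 ^ 2 + 1 / 2 * (2 * δ2 ^ 2 + 44 * NT X T) := by gcongr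
      _ = _ := by ring
  have p1 : 0 ≤ BT (Gw T) (Lw T) (δT T0 δ T) p (rm X true) fun t => chi T t * X.φ true t := by
    unfold BT
    positivity
  have p2 : 0 ≤ BT (Gw T) (Lw T) (δT T0 δ T) n (rm X false) fun t => chi T t * X.φ false t := by
    unfold BT
    positivity
  rw [← ENNReal.ofReal_mul p1, ← ENNReal.ofReal_mul (by positivity),
    ← ENNReal.ofReal_mul (Real.exp_pos _).le]
  refine ENNReal.ofReal_le_ofReal ?_
  set e1 := (7 / 12 * Lw T + NUC62.err (Gw T) (Lw T) p) with he1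
  set e2 := (7 / 12 * Lw T + NUC62.err (Gw T) (Lw T) n) with he2
  set ek := ε / 2 * ((p : ℝ) + n + ss X) ^ 2 with hek
  set q := 4 * c' * (22 * R) * ((m2 + δ2) ^ 2 + 44 * NT X T) with hqd
  have hprod : BT (Gw T) (Lw T) (δT T0 δ T) p (rm X true) (fun t => chi T t * X.φ true t) *
      BT (Gw T) (Lw T) (δT T0 δ T) n (rm X false) (fun t => chi T t * X.φ false t) *
      (√2 * Real.exp q) ≤
      ((p.factorial : ℝ) * cpc ^ p * Real.exp (A1 + e1 + (23 * cV + 2 + 11 * Nl X T true) - Mt X T true p)) *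
      ((n.factorial : ℝ) * cpc ^ n * Real.exp (A2 + e2 + (23 * cV + 2 + 11 * Nl X T false) - Mt X T false n)) *
      (Real.exp 1 * Real.exp (176 * c' * R * m2 ^ 2 + δ2 ^ 2 + 22 * NT X T)) := by
    gcongr
  refine (mul_le_mul_of_nonneg_left hprod (Real.exp_pos _).le).trans (le_of_eq ?_)
  have e3 : Real.exp (MFs X.s p n + X.En + (e1 + e2) +
      (46 * cV + 5 + δ2 ^ 2 + 33 * NT X T + 176 * c' * R * m2 ^ 2 + ek) - Mt X T true p - Mt X T false n) =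
      Real.exp (MFs X.s p n) * Real.exp (X.En + (e1 + e2) +
      (46 * cV + 5 + δ2 ^ 2 + 33 * NT X T + 176 * c' * R * m2 ^ 2 + ek) - Mt X T true p - Mt X T false n) := by
    rw [← Real.exp_add]
    congr 1
    ring
  rw [e3, ← hM]
  have e4 : Real.exp (C0 X p n + ek) * (((p.factorial : ℝ) * cpc ^ p *
      Real.exp (A1 + e1 + (23 * cV + 2 + 11 * Nl X T true) - Mt X T true p)) *
      ((n.factorial : ℝ) * cpc ^ n * Real.exp (A2 + e2 + (23 * cV + 2 + 11 * Nl X T false) - Mt X T false n)) *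
      (Real.exp 1 * Real.exp (176 * c' * R * m2 ^ 2 + δ2 ^ 2 + 22 * NT X T))) =
      (p.factorial : ℝ) * n.factorial * (cpc ^ p * cpc ^ n) *
      Real.exp ((C0 X p n + ek) + (A1 + e1 + (23 * cV + 2 + 11 * Nl X T true) - Mt X T true p) +
      (A2 + e2 + (23 * cV + 2 + 11 * Nl X T false) - Mt X T false n) + 1 +
      (176 * c' * R * m2 ^ 2 + δ2 ^ 2 + 22 * NT X T)) := by
    rw [Real.exp_add _ (176 * c' * R * m2 ^ 2 + δ2 ^ 2 + 22 * NT X T), Real.exp_add _ (1 : ℝ),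
      Real.exp_add _ (A2 + e2 + (23 * cV + 2 + 11 * Nl X T false) - Mt X T false n),
      Real.exp_add (C0 X p n + ek)]
    ring
  rw [e4]
  have e5 : (C0 X p n + ek) + (A1 + e1 + (23 * cV + 2 + 11 * Nl X T true) - Mt X T true p) +
      (A2 + e2 + (23 * cV + 2 + 11 * Nl X T false) - Mt X T false n) + 1 +
      (176 * c' * R * m2 ^ 2 + δ2 ^ 2 + 22 * NT X T) =
      Real.log (g 0) * (((p : ℝ) + n) / 2) + MF X.s + (X.En + (e1 + e2) +
      (46 * cV + 5 + δ2 ^ 2 + 33 * NT X T + 176 * c' * R * m2 ^ 2 + ek) - Mt X T true p - Mt X T false n) := by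
    rw [hNe]
    linear_combination hC
  rw [e5, Real.exp_add, Real.exp_add (Real.log (g 0) * (((p : ℝ) + n) / 2))]
  ring

/-- the constant of the tail of the sea -/
def tC : ℝ := 2 * P_le.choose + 2

lemma P_tC (x : ℝ) : P x ≤ tC / 2 * Real.exp (-(8 / 3) * |x|) := by
  have h := P_le.choose_spec.2 x
  have h2 := Real.exp_pos (-(8 / 3) * |x|)
  unfold tC
  nlinarith

lemma tC_ge : 2 ≤ tC := by
  have h := P_le.choose_spec.1
  unfold tC
  linarith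

lemma sP_tail {s T x : ℝ} (hx : T ≤ |x|) : |s * P x| ≤
    tC / 2 * |s| * Real.exp (-(8 / 3) * T) * Real.exp (-(|x| - T)) := by
  have h1 := P_tC x
  have h2 := tC_ge
  rw [abs_mul, abs_of_pos (P_pos x)]
  have h3 : Real.exp (-(8 / 3) * |x|) ≤ Real.exp (-(8 / 3) * T) * Real.exp (-(|x| - T)) := by
    rw [← Real.exp_add]
    exact Real.exp_le_exp.2 (by linarith)
  calc |s| * P x ≤ |s| * (tC / 2 * Real.exp (-(8 / 3) * |x|)) := by gcongr
    _ ≤ |s| * (tC / 2 * (Real.exp (-(8 / 3) * T) * Real.exp (-(|x| - T)))) := by gcongr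
    _ = _ := by ring

/-- the tail of the sea -/
theorem sea_tail {m k : ℝ} (a : Bool) (hm : 1 ≤ m) (hs0 : 0 ≤ X.s a) (hs : X.s a ≤ k * m)
    (hT : 3 / 8 * Real.log m ≤ T) : ∫ t in {t | T ≤ |t|}, |X.ρ a t| ≤ tC * k := by
  have hm0 : 0 < m := by linarith
  have htC := tC_ge
  have h1 := NUH0.tail2 (T := T) (c := tC / 2 * |X.s a| * Real.exp (-(8 / 3) * T)) (by positivity)
    (ρ_int X a) (fun x hx => by
      have := sP_tail (s := X.s a) hx
      exact this)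
  refine h1.trans ?_
  rw [abs_of_nonneg hs0]
  have h2 : Real.exp (-(8 / 3) * T) ≤ 1 / m := by
    rw [one_div, ← Real.exp_log (inv_pos.2 hm0), Real.log_inv]
    exact Real.exp_le_exp.2 (by linarith)
  have h3 : 0 ≤ k * m := hs0.trans hs
  calc 2 * (tC / 2 * X.s a * Real.exp (-(8 / 3) * T)) ≤ 2 * (tC / 2 * (k * m) * (1 / m)) := by
        have h4 := (Real.exp_pos (-(8 / 3) * T)).le
        have h5 : X.s a * Real.exp (-(8 / 3) * T) ≤ (k * m) * (1 / m) := mul_le_mul hs h2 h4 h3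
        have h6 : tC * (X.s a * Real.exp (-(8 / 3) * T)) ≤ tC * ((k * m) * (1 / m)) := by gcongr
        linarith
    _ = tC * k := by field_simp

/-- the final exponent of the window `[-T, T]` -/
def Ex (X : Dat) (p n : ℕ) (ε' C T c' R m2 ε : ℝ) : ℝ :=
  MFs X.s p n + X.En + (7 / 3 + ε') * T + (C * (1 + NT X T) + 176 * c' * R * m2 ^ 2 +
    ε / 2 * ((p : ℝ) + n + ss X) ^ 2) - Mt X T true p - Mt X T false n

/-- **H0 on a window**, all constants -/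
theorem sh_H0 {ε' : ℝ} (hε' : 0 < ε') (k : ℝ) : ∃ C : ℝ, 0 ≤ C ∧ ∀ {X : Dat} {Cκ : ℝ} {p n : ℕ}
    {R T T0 δ Λ1 c' ε m2 a0 K h m : ℝ} {bb bb' ch : ℝ → ℝ}, 1 ≤ m → (p : ℝ) ≤ k * m → (n : ℝ) ≤ k * m →
    (∀ a, X.s a ≤ k * m) → 3 / 8 * Real.log m ≤ T0 → T0 ≤ T → 0 < T →
    Geo X Cκ → Fld X p n → RegT X T0 δ → Grid ch K h → ∀ (La : Finset ℤ), Cut1 R bb bb' →
    (∀ a d t t', |X.κ a d t t' - bb t * bb t' * X.κ a d t t'| ≤ ε) →
    (∀ a d, KC R Λ1 (fun t t' => ((X.κ a d t t' : ℝ) : ℂ))) → 0 < c' → 4 * Λ1 ≤ c' → 0 ≤ Λ1 →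
    8 * c' * (22 * R) ≤ 1 → (∀ a, ∫ t in {t | |t| ≤ R}, |X.μ a t| ≤ m2) →
    ∀ {aX aY : ℝ → ℝ}, (∀ t, 0 ≤ aX t) → (∀ t, 0 ≤ aY t) →
    (∀ t, |t| ≤ T → aX t ≤ Real.exp (X.pot true t)) → (∀ t, |t| ≤ T → aY t ≤ Real.exp (X.pot false t)) →
    (∫⁻ ω in NU42.Bw p n T, ENNReal.ofReal (Wt0 X p n ch h La a0 aX aY ω) ≤
      ENNReal.ofReal ((p.factorial : ℝ) * n.factorial * Real.exp (Ex X p n ε' C T c' R m2 ε))) ∧
    SqC2 (Wt0 X p n ch h La a0 aX aY) T bb (X.ρ true) (X.ρ false)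
      ((p.factorial : ℝ) * n.factorial * Real.exp (Ex X p n ε' C T c' R m2 ε)) c' := by
  obtain ⟨C, hC0, hC⟩ := bk (ε := ε' / 2) (by positivity) k
  have hcV := cV_pos
  refine ⟨2 * C + (46 * cV + 5 + (tC * k) ^ 2) + 33, by positivity, ?_⟩
  intro X Cκ p n R T T0 δ Λ1 c' ε m2 a0 K h m bb bb' ch hm hp hn hs hT0m hT hT0 hG hF hR hg La hb he hKC hc0
    hc1 hΛ1 hq hm2 aX aY haX haY hX hY
  have hTm : 3 / 8 * Real.log m ≤ T := hT0m.trans hT
  have hδ2 := fun a => sea_tail (T := T) a hm (hG.s0 a) (hs a) hTm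
  have k1 := hC m T p hm hT0.le hTm hp
  have k2 := hC m T n hm hT0.le hTm hn
  have hN1 := Nl_nonneg X hT0.le true
  have hN2 := Nl_nonneg X hT0.le false
  have hNe : NT X T = Nl X T true + Nl X T false := rfl
  have hN : 0 ≤ NT X T := by linarith
  have hcl := const_le (ε := ε) (m2 := m2) (δ2 := tC * k) hG hF hR hT0 hT hb.one hc0 hq
  have hfin : ENNReal.ofReal ((p.factorial : ℝ) * n.factorial * Real.exp (MFs X.s p n + X.En +
      ((7 / 12 * Lw T + NUC62.err (Gw T) (Lw T) p) + (7 / 12 * Lw T + NUC62.err (Gw T) (Lw T) n)) +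
      (46 * cV + 5 + (tC * k) ^ 2 + 33 * NT X T + 176 * c' * R * m2 ^ 2 +
        ε / 2 * ((p : ℝ) + n + ss X) ^ 2) - Mt X T true p - Mt X T false n)) ≤
      ENNReal.ofReal ((p.factorial : ℝ) * n.factorial * Real.exp (Ex X p n ε'
        (2 * C + (46 * cV + 5 + (tC * k) ^ 2) + 33) T c' R m2 ε)) := by
    refine ENNReal.ofReal_le_ofReal (mul_le_mul_of_nonneg_left (Real.exp_le_exp.2 ?_) (by positivity))
    unfold Ex
    have h1 : 0 ≤ (2 * C + (46 * cV + 5 + (tC * k) ^ 2)) * NT X T := by positivity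
    nlinarith
  have hcl2 := hcl.trans hfin
  refine ⟨(sh_int hG hF hR hg La hb he hKC hc0 (by linarith) hq hT0 hT haX haY hX hY hm2 hδ2).trans hcl2,
    sh_int_sq hG hF hR hg La hb he hKC hc0 hc1 hq hT0 hT haX haY hX hY hm2 hδ2 hcl2⟩

end

end NUSea.PLX.H0
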