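import Pool.Agent.PLX.Ns
import Pool.Agent.NUO.PotC
import Pool.Agent.NUSp.Axis
import Pool.Agent.NUSp.Pin

/-!
# Families of groups of spectators: the part without the data of a configuration (of `SpG`)

`Gd`: class, line, species of the half quantum, height; `TG g`: the sources of a family; `linS_TG`,
`TG_q`, `int_tauG`; the constants `kG0`, `l5`.  No curve, no sea.
-/

set_option autoImplicit false
set_option linter.unusedSectionVars false

open MeasureTheory Set Filter Topology

namespace NUSea.PLX.H0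

open NUMF NUO
open NUGC (Sr muS tauS linS obSr)
open NUSp (Cl Grp grp gp gp1 gq gn th th1 DD kG psG wG srcG qc)

noncomputable section

/-- data of a group -/
structure Gd where
  /-- class -/
  c : Cl
  /-- line of the half quantum (class `.w` only) -/
  rt : Bool
  /-- species of the half quantum -/
  σ : Bool
  /-- height -/
  τ : ℝ

/-- place of the half quantum -/
def Gd.w (g : Gd) : ℂ := wG g.c g.rt g.τ

/-- the group -/
def Gd.G (g : Gd) : Grp := grp g.c g.σ g.w

lemma Gd.away (g : Gd) : Away (1 / 4) g.w := NUSp.wG_away _ _ _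

lemma Gd.im (g : Gd) : g.w.im = g.τ := NUSp.wG_im _ _ _

lemma Gd.ok (g : Gd) : g.G.Ok (1 / 4) g.τ := by
  have h := NUSp.grp_ok g.away g.c g.σ
  rwa [g.im] at h

variable {n : ℕ}

/-- index of the sources of a family -/
abbrev IG (g : Fin n → Gd) : Type := (i : Fin n) × Fin (kG (g i).c (g i).rt).length

/-- the sources of a family -/
def TG (g : Fin n → Gd) (x : IG g) : Sr := srcG (g x.1).c (g x.1).rt (g x.1).σ (g x.1).τ x.2

variable (g : Fin n → Gd)

lemma TG_ok (x : IG g) : (TG g x).Ok := NUSp.srcG_ok _ _ _ _ _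

lemma TG_t (x : IG g) : (TG g x).t = (g x.1).τ := rfl

lemma sum_TG {M : Type*} [AddCommMonoid M] (F : IG g → M) :
    ∑ x, F x = ∑ i, ∑ j, F ⟨i, j⟩ := Fintype.sum_sigma _

lemma card_IG : (Fintype.card (IG g) : ℝ) ≤ 3 * n := by
  rw [Fintype.card_sigma]
  push_cast
  simp only [Fintype.card_fin]
  have h : ∀ i ∈ (Finset.univ : Finset (Fin n)), ((kG (g i).c (g i).rt).length : ℝ) ≤ 3 := fun i _ => by
    exact_mod_cast NUSp.kG_len _ _
  refine (Finset.sum_le_card_nsmul _ _ _ h).trans ?_
  rw [Finset.card_univ, Fintype.card_fin, nsmul_eq_mul]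
  linarith

/-- the potentials of the sources are the real parts on the axis -/
theorem linS_TG (a : Bool) (t : ℝ) : linS (TG g) a t = ∑ i, (gp a (g i).G t).re := by
  have h1 : linS (TG g) a t = ∑ x, (TG g x).p a (t - (TG g x).t) := rfl
  rw [h1, sum_TG]
  exact Finset.sum_congr rfl fun i _ => NUSp.lin_grp (g i).c (g i).rt (g i).σ (g i).τ a t

/-- the charge of the family -/
theorem TG_q : ∑ x, NUC43.sg (TG g x).a * (TG g x).q = ∑ i, NUC43.sg (g i).σ * qc (g i).c / 2 := by
  rw [sum_TG]
  exact Finset.sum_congr rfl fun i _ => NUSp.srcG_q (g i).c (g i).rt (g i).σ (g i).τ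

/-- total density of the splitting -/
theorem int_tauG : ∫ x, tauS (TG g) x = -∑ i, NUC43.sg (g i).σ * qc (g i).c / 2 := by
  rw [NUGC.tauS_int (TG_ok g), TG_q]

/-- constant of the potentials -/
def kG0 : ℝ := 15 * kb (1 / 4) (NUMF.l / 5)

lemma l5 : NUMF.l / 5 < 1 / 4 * NUMF.l := by
  have := NUMF.l_pos
  linarith

lemma kb4 : 0 ≤ kb (1 / 4) (NUMF.l / 5) :=
  kb_nonneg (by have := NUMF.l_pos; positivity) l5 (NUSp.wG_away .w true 0)

lemma kG0_nonneg : 0 ≤ kG0 := mul_nonneg (by norm_num) kb4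

lemma away_p {p : ℂ} (hp : p.re = -(NUMF.l / 2)) : Away (1 / 4) p :=
  away_of (x := -(1 / 2)) (by rw [hp]; ring) (-1) (by norm_num) (by norm_num)

lemma away_q {q : ℂ} (hq : q.re = NUMF.l / 2) : Away (1 / 4) q :=
  away_of (x := 1 / 2) (by rw [hq]; ring) 0 (by norm_num) (by norm_num)

end

end NUSea.PLX.H0
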