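import Pool.Agent.PLX.Ns
import Pool.Agent.PLX.NUSea.H0.SpG0
import Pool.Agent.NUO.DispW

/-!
# Families of groups of spectators: comparison of the true and of the pinned heights

`Gd.pin T g`: the same group at the height clipped to `[-T, T]`.  `BF T g η a`: sum of the remainders
`remG` of `NUSp/Pin` (`C^1`, carried by the real potential `B`); `cstF T g a`: sum of the constants.

* `fam_in`: exact for `|t| ≤ T`; `fam_up`: upper bound for all `t`;
* `hasDerivAt_BF`, `cont_BF1`, `exists_BF` (size, energy), `cstF_cancel`.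
-/

set_option autoImplicit false
set_option linter.unusedSectionVars false

open MeasureTheory Set Filter Topology

namespace NUSea.PLX.H0

open NUMF NUO
open NUSp (Cl Grp grp gp gp1 gq gn th DD pinw remG remG1 kfar kr kr1)

noncomputable section

private lemma exp_abs_intP {c : ℝ} (hc : 0 < c) (a : ℝ) :
    Integrable (fun x : ℝ => Real.exp (-c * |x - a|)) ∧ ∫ x : ℝ, Real.exp (-c * |x - a|) = 2 / c := by
  have h := NUDispW.int_exp_abs hc a
  have e : (fun x : ℝ => Real.exp (-(c * |x - a|))) = fun x => Real.exp (-c * |x - a|) := by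
    funext x
    congr 1
    ring
  rwa [e] at h

/-- the group at the pinned height -/
def Gd.pin (T : ℝ) (g : Gd) : Gd := { g with τ := NUSp.pin T g.τ }

lemma Gd.pin_w (T : ℝ) (g : Gd) : (g.pin T).w = pinw T g.w := by
  apply Complex.ext
  · show (NUSp.wG g.c g.rt (NUSp.pin T g.τ)).re = (NUSp.wG g.c g.rt g.τ).re
    unfold NUSp.wG NUP1.vl
    simp
  · rw [Gd.im]
    show NUSp.pin T g.τ = NUSp.pin T g.w.im
    rw [Gd.im]

lemma Gd.pin_G (T : ℝ) (g : Gd) : (g.pin T).G = grp g.c g.σ (pinw T g.w) := by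
  show grp g.c g.σ (g.pin T).w = _
  rw [Gd.pin_w]

lemma Gd.pin_of_le {T : ℝ} {g : Gd} (h : |g.τ| ≤ T) : g.pin T = g := by
  unfold Gd.pin
  rw [NUSp.pin_of_le h]

variable {n : ℕ}

/-- the remainders of a family -/
def BF (T : ℝ) (g : Fin n → Gd) (η : ℝ → ℝ) (a : Bool) (t : ℝ) : ℝ :=
  ∑ i, remG T (g i).c a (g i).σ (g i).w η t

/-- their derivative -/
def BF1 (T : ℝ) (g : Fin n → Gd) (η η1 : ℝ → ℝ) (a : Bool) (t : ℝ) : ℝ :=
  ∑ i, remG1 T (g i).c a (g i).σ (g i).w η η1 t

/-- the constants of a family -/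
def cstF (T : ℝ) (g : Fin n → Gd) (a : Bool) : ℝ := ∑ i, gq a (g i).G * NUSp.exc T (g i).τ

variable (g : Fin n → Gd) {T : ℝ} {η η1 : ℝ → ℝ}

/-- the constants of the two species cancel -/
theorem cstF_cancel (T : ℝ) : cstF T g true + cstF T g false = 0 := by
  unfold cstF
  rw [← Finset.sum_add_distrib]
  refine Finset.sum_eq_zero fun i _ => ?_
  rw [← add_mul, NUSp.gq_neutral, zero_mul]

lemma DD_sum (p q : ℂ) (a : Bool) (z : ℂ) :
    (DD p q (List.ofFn fun i => (g i).G) a z).re = (th p q z).re + ∑ i, (gp a (g i).G z).re := by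
  unfold DD
  rw [List.map_ofFn, List.sum_ofFn, Complex.add_re, Complex.re_sum]
  rfl

/-- **inside the window**: exact -/
theorem fam_in (p q : ℂ) (a : Bool) {t : ℝ} (ht : |t| ≤ T) :
    (DD p q (List.ofFn fun i => (g i).G) a (t + (η t : ℂ) * Complex.I)).re =
      (DD p q (List.ofFn fun i => ((g i).pin T).G) a (t + (η t : ℂ) * Complex.I)).re + cstF T g a +
        BF T g η a t := by
  rw [DD_sum, DD_sum (fun i => (g i).pin T)]
  unfold cstF BF
  rw [add_assoc, add_assoc, ← Finset.sum_add_distrib, ← Finset.sum_add_distrib]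
  congr 1
  refine Finset.sum_congr rfl fun i _ => ?_
  have h := NUSp.gp_in ht (g i).c a (g i).σ (g i).w η
  rw [Gd.im] at h
  rw [Gd.pin_G, ← add_assoc]
  exact h

/-- **everywhere**: at most one attraction on each species -/
theorem fam_up (p q : ℂ) (hT : 0 ≤ T)
    (hc : ∀ i, (g i).c = .w ∨ (g i).c = .d ∨ |(g i).τ| ≤ T)
    (hσ : ∀ i j, i ≠ j → (g i).σ ≠ (g j).σ) {x : ℝ} (hx0 : 0 ≤ x) (hx : ∀ i, NUSp.exc T (g i).τ ≤ x)
    (a : Bool) {t : ℝ} (hη : |η t| < NUMF.l / 5) :
    (DD p q (List.ofFn fun i => (g i).G) a (t + (η t : ℂ) * Complex.I)).re ≤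
      (DD p q (List.ofFn fun i => ((g i).pin T).G) a (t + (η t : ℂ) * Complex.I)).re + cstF T g a +
        BF T g η a t + 2 * min (max (|t| - T) 0) x +
        (if |t| ≤ T then 0 else n * kfar (1 / 4) (NUMF.l / 5)) := by
  have hl := NUMF.l_pos
  have key : ∀ i, (gp a (g i).G (t + (η t : ℂ) * Complex.I)).re ≤
      (gp a ((g i).pin T).G (t + (η t : ℂ) * Complex.I)).re + gq a (g i).G * NUSp.exc T (g i).τ +
        remG T (g i).c a (g i).σ (g i).w η t +
        (if a = (g i).σ then 0 else 2 * min (max (|t| - T) 0) x) +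
        (if |t| ≤ T then 0 else kfar (1 / 4) (NUMF.l / 5)) := by
    intro i
    have h := NUSp.gp_up (w := (g i).w) (t := t) (η := η) (by positivity) l5 (by norm_num)
      (g i).away hT (g i).c a (g i).σ hη
    rw [Gd.im] at h
    rw [Gd.pin_G]
    refine h.trans ?_
    refine add_le_add (add_le_add le_rfl ?_) le_rfl
    have hm : 0 ≤ min (max (|t| - T) 0) (NUSp.exc T (g i).τ) :=
      le_min (le_max_right _ _) (NUSp.exc_nonneg _ _)
    have hm2 : min (max (|t| - T) 0) (NUSp.exc T (g i).τ) ≤ min (max (|t| - T) 0) x :=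
      min_le_min le_rfl (hx i)
    have e : gq a (grp (g i).c (g i).σ (g i).w) = if a = (g i).σ then NUSp.qc (g i).c
        else -NUSp.qc (g i).c := NUSp.gq_grp _ _ _ _
    rcases hc i with h1 | h1 | h1
    · rw [e, h1]
      by_cases ha : a = (g i).σ
      · rw [if_pos ha, if_pos ha]
        have : max (-NUSp.qc .w) 0 = 0 := max_eq_right (by norm_num [NUSp.qc])
        rw [this]
        simp
      · rw [if_neg ha, if_neg ha]
        have : max (- -NUSp.qc .w) 0 = 1 := by norm_num [NUSp.qc]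
        rw [this]
        linarith
    · rw [e, h1]
      have : max (-(if a = (g i).σ then NUSp.qc .d else -NUSp.qc .d)) 0 = 0 := by
        split_ifs <;> simp [NUSp.qc]
      rw [this]
      split_ifs
      · simp
      · have : 0 ≤ min (max (|t| - T) 0) x := hm.trans hm2
        linarith
    · rw [NUSp.exc_of_le h1]
      have h3 : min (max (|t| - T) 0) (0:ℝ) = 0 := min_eq_right (le_max_right _ _)
      rw [h3, mul_zero]
      split_ifs
      · exact le_rfl
      · have : 0 ≤ min (max (|t| - T) 0) x := hm.trans hm2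
        linarith
  have hs : ∑ i, (if a = (g i).σ then (0:ℝ) else 2 * min (max (|t| - T) 0) x) ≤
      2 * min (max (|t| - T) 0) x := by
    have hm : 0 ≤ 2 * min (max (|t| - T) 0) x :=
      mul_nonneg zero_le_two (le_min (le_max_right _ _) hx0)
    by_cases h0 : ∃ i, a ≠ (g i).σ
    · obtain ⟨i0, hi0⟩ := h0
      rw [Finset.sum_eq_single i0]
      · rw [if_neg hi0]
      · intro i _ hi
        rw [if_pos]
        by_contra h1
        refine hσ i i0 hi ?_
        revert h1 hi0
        cases a <;> cases (g i).σ <;> cases (g i0).σ <;> simp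
      · intro h1
        exact absurd (Finset.mem_univ i0) h1
    · push Not at h0
      rw [Finset.sum_eq_zero fun i _ => if_pos (h0 i)]
      exact hm
  rw [DD_sum, DD_sum (fun i => (g i).pin T)]
  unfold cstF BF
  have hsum := Finset.sum_le_sum fun i (_ : i ∈ Finset.univ) => key i
  rw [Finset.sum_add_distrib, Finset.sum_add_distrib, Finset.sum_add_distrib,
    Finset.sum_add_distrib] at hsum
  have e9 : ∑ _i : Fin n, (if |t| ≤ T then (0:ℝ) else kfar (1 / 4) (NUMF.l / 5)) =
      if |t| ≤ T then 0 else n * kfar (1 / 4) (NUMF.l / 5) := by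
    rw [Finset.sum_const, Finset.card_univ, Fintype.card_fin, nsmul_eq_mul]
    split_ifs <;> simp
  rw [e9] at hsum
  linarith

/-! ### the remainders -/

theorem hasDerivAt_BF (T : ℝ) (a : Bool) {t : ℝ} (hη : |η t| < NUMF.l / 5)
    (hd : HasDerivAt η (η1 t) t) : HasDerivAt (BF T g η a) (BF1 T g η η1 a t) t := by
  have hl := NUMF.l_pos
  exact HasDerivAt.fun_sum fun i _ => NUSp.hasDerivAt_remG (by positivity) l5 (g i).away T (g i).c a
    (g i).σ hη hd

theorem cont_BF1 (T : ℝ) (a : Bool) (hη : ∀ t, |η t| < NUMF.l / 5) (hc : Continuous η)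
    (hc1 : Continuous η1) : Continuous (BF1 T g η η1 a) := by
  have hl := NUMF.l_pos
  exact continuous_finsetSum _ fun i _ => NUSp.continuous_remG1 (by positivity) l5 (g i).away T
    (g i).c a (g i).σ hη hc hc1

/-- energy of a profile -/
lemma en_prof {u : ℝ → ℝ} (hu : Continuous u) {A x y : ℝ} (hy : 0 ≤ y)
    (h : ∀ t, |u t| ≤ A * Real.exp (-2 * |t - x|)) : ∫ t in (-y)..y, u t ^ 2 ≤ A ^ 2 := by
  have hle : -y ≤ y := by linarith
  have hi := exp_abs_intP (c := 4) (by norm_num) x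
  have hc : Continuous fun t : ℝ => A ^ 2 * Real.exp (-4 * |t - x|) := by fun_prop
  have h1 : ∀ t, u t ^ 2 ≤ A ^ 2 * Real.exp (-4 * |t - x|) := by
    intro t
    have h2 := h t
    calc u t ^ 2 = |u t| ^ 2 := (sq_abs _).symm
      _ ≤ (A * Real.exp (-2 * |t - x|)) ^ 2 := by gcongr
      _ = _ := by
        rw [mul_pow, ← Real.exp_nat_mul]
        congr 2
        push_cast
        ring
  refine (intervalIntegral.integral_mono_on hle ((hu.pow 2).intervalIntegrable _ _)
    (hc.intervalIntegrable _ _) fun t _ => h1 t).trans ?_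
  rw [intervalIntegral.integral_const_mul, intervalIntegral.integral_of_le hle]
  have h3 := setIntegral_le_integral (s := Ioc (-y) y) hi.1
    (ae_of_all _ fun t => (Real.exp_pos (-4 * |t - x|)).le)
  rw [hi.2] at h3
  nlinarith [sq_nonneg A]

/-- **size and energy of the remainders**, `K` absolute -/
theorem exists_BF : ∃ K : ℝ, 1 ≤ K ∧ ∀ (n : ℕ) (g : Fin n → Gd) (T : ℝ) (η η1 : ℝ → ℝ), 0 ≤ T →
    (∀ t, |η t| ≤ 1 / 40) → (∀ t, |η1 t| ≤ 1) → (∀ t, HasDerivAt η (η1 t) t) → Continuous η1 →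
    (∀ (a : Bool) (t : ℝ), HasDerivAt (BF T g η a) (BF1 T g η η1 a t) t) ∧
    (∀ a, Continuous (BF1 T g η η1 a)) ∧
    (∀ (a : Bool) (t : ℝ), |BF T g η a t| ≤
      K * ∑ i, Real.exp (-2 * |t - NUSp.pin T (g i).τ|)) ∧
    (∀ (a : Bool) (t : ℝ), |BF1 T g η η1 a t| ≤
      K * ∑ i, Real.exp (-2 * |t - NUSp.pin T (g i).τ|)) ∧
    (∀ (a : Bool) (t : ℝ), |BF T g η a t| ≤ K * n) ∧
    ∀ (a : Bool) (y : ℝ), 0 ≤ y →
      ∫ t in (-y)..y, (BF T g η a t ^ 2 + BF1 T g η η1 a t ^ 2) ≤ (K * n) ^ 2 := by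
  have hl := NUMF.l_pos
  have hl2 : (1:ℝ) / 40 < NUMF.l / 5 := by
    unfold NUMF.l
    have := Real.pi_gt_d2
    linarith
  have k1 : 0 ≤ kr (1 / 4) (NUMF.l / 5) := NUSp.rc_nonneg (NUSp.kk_nonneg _ _)
  have k2 : 0 ≤ kr1 (1 / 4) (NUMF.l / 5) 1 := by
    unfold kr1 NUSp.rc1
    have := NUSp.stD_one
    have := NUSp.rc_nonneg (c := 3) (NUSp.kk_nonneg (1 / 4) (NUMF.l / 5))
    positivity
  refine ⟨1 + 2 * kr (1 / 4) (NUMF.l / 5) + 2 * kr1 (1 / 4) (NUMF.l / 5) 1, by linarith, ?_⟩
  intro n g T η η1 hT hη hη1 hd hc1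
  have hc0 : Continuous η := continuous_iff_continuousAt.2 fun t => (hd t).continuousAt
  have hη' : ∀ t, |η t| < NUMF.l / 5 := fun t => (hη t).trans_lt hl2
  obtain ⟨K, hK⟩ : ∃ K : ℝ, K = 1 + 2 * kr (1 / 4) (NUMF.l / 5) + 2 * kr1 (1 / 4) (NUMF.l / 5) 1 :=
    ⟨_, rfl⟩
  rw [← hK]
  have hK1 : 2 * kr (1 / 4) (NUMF.l / 5) ≤ K := by rw [hK]; linarith
  have hK2 : 2 * kr1 (1 / 4) (NUMF.l / 5) 1 ≤ K := by rw [hK]; linarith
  have hK0 : 0 ≤ K := by linarith
  have b1 : ∀ (i : Fin n) (a : Bool) (t : ℝ), |remG T (g i).c a (g i).σ (g i).w η t| ≤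
      K / 2 * Real.exp (-2 * |t - NUSp.pin T (g i).τ|) := by
    intro i a t
    have h := NUSp.remG_le (w := (g i).w) (t := t) (η := η) (by positivity) l5 (by norm_num)
      (g i).away hT (g i).c a (g i).σ (hη' t)
    rw [Gd.im] at h
    exact h.trans (mul_le_mul_of_nonneg_right (by linarith) (Real.exp_pos _).le)
  have b2 : ∀ (i : Fin n) (a : Bool) (t : ℝ), |remG1 T (g i).c a (g i).σ (g i).w η η1 t| ≤
      K / 2 * Real.exp (-2 * |t - NUSp.pin T (g i).τ|) := by
    intro i a t
    have h := NUSp.remG1_le (w := (g i).w) (t := t) (η := η) (η1 := η1) (by positivity) l5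
      (by norm_num) (g i).away hT (g i).c a (g i).σ (hη' t) (K := 1) (hη1 t)
    rw [Gd.im] at h
    exact h.trans (mul_le_mul_of_nonneg_right (by linarith) (Real.exp_pos _).le)
  have hdr : ∀ (i : Fin n) (a : Bool), Continuous fun t => remG T (g i).c a (g i).σ (g i).w η t :=
    fun i a => continuous_iff_continuousAt.2 fun t => (NUSp.hasDerivAt_remG (by positivity) l5
      (g i).away T (g i).c a (g i).σ (hη' t) (hd t)).continuousAt
  have hcr : ∀ (i : Fin n) (a : Bool), Continuous fun t =>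
      remG1 T (g i).c a (g i).σ (g i).w η η1 t := fun i a =>
    NUSp.continuous_remG1 (by positivity) l5 (g i).away T (g i).c a (g i).σ hη' hc0 hc1
  have s1 : ∀ (a : Bool) (t : ℝ), |BF T g η a t| ≤
      K / 2 * ∑ i, Real.exp (-2 * |t - NUSp.pin T (g i).τ|) := fun a t => by
    rw [Finset.mul_sum]
    exact (Finset.abs_sum_le_sum_abs _ _).trans (Finset.sum_le_sum fun i _ => b1 i a t)
  have s2 : ∀ (a : Bool) (t : ℝ), |BF1 T g η η1 a t| ≤
      K / 2 * ∑ i, Real.exp (-2 * |t - NUSp.pin T (g i).τ|) := fun a t => by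
    rw [Finset.mul_sum]
    exact (Finset.abs_sum_le_sum_abs _ _).trans (Finset.sum_le_sum fun i _ => b2 i a t)
  have hE : ∀ t, 0 ≤ ∑ i, Real.exp (-2 * |t - NUSp.pin T (g i).τ|) := fun t =>
    Finset.sum_nonneg fun _ _ => (Real.exp_pos _).le
  refine ⟨fun a t => hasDerivAt_BF g T a (hη' t) (hd t), fun a => cont_BF1 g T a hη' hc0 hc1,
    fun a t => (s1 a t).trans (mul_le_mul_of_nonneg_right (by linarith) (hE t)),
    fun a t => (s2 a t).trans (mul_le_mul_of_nonneg_right (by linarith) (hE t)),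
    fun a t => (s1 a t).trans ?_, fun a y hy => ?_⟩
  · have h1 : ∑ i, Real.exp (-2 * |t - NUSp.pin T (g i).τ|) ≤ n := by
      refine (Finset.sum_le_card_nsmul _ _ 1 fun i _ => ?_).trans (by simp)
      rw [Real.exp_le_one_iff]
      have := abs_nonneg (t - NUSp.pin T (g i).τ)
      linarith
    have := hE t
    nlinarith
  · have hle : -y ≤ y := by linarith
    have pt : ∀ t, BF T g η a t ^ 2 + BF1 T g η η1 a t ^ 2 ≤
        n * ∑ i, (remG T (g i).c a (g i).σ (g i).w η t ^ 2 +
          remG1 T (g i).c a (g i).σ (g i).w η η1 t ^ 2) := by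
      intro t
      have c1 := sq_sum_le_card_mul_sum_sq (s := (Finset.univ : Finset (Fin n)))
        (f := fun i => remG T (g i).c a (g i).σ (g i).w η t)
      have c2 := sq_sum_le_card_mul_sum_sq (s := (Finset.univ : Finset (Fin n)))
        (f := fun i => remG1 T (g i).c a (g i).σ (g i).w η η1 t)
      rw [Finset.card_univ, Fintype.card_fin] at c1 c2
      rw [Finset.sum_add_distrib, mul_add]
      exact add_le_add c1 c2
    have j1 : Continuous (BF T g η a) := continuous_finsetSum _ fun i _ => hdr i a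
    have j2 : Continuous (BF1 T g η η1 a) := continuous_finsetSum _ fun i _ => hcr i a
    have j3 : ∀ i : Fin n, IntervalIntegrable (fun t => remG T (g i).c a (g i).σ (g i).w η t ^ 2 +
        remG1 T (g i).c a (g i).σ (g i).w η η1 t ^ 2) volume (-y) y := fun i =>
      (((hdr i a).pow 2).add ((hcr i a).pow 2)).intervalIntegrable _ _
    refine (intervalIntegral.integral_mono_on hle
      (((j1.pow 2).add (j2.pow 2)).intervalIntegrable _ _)
      ((Continuous.intervalIntegrable (by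
        exact continuous_const.mul (continuous_finsetSum _ fun i _ =>
          ((hdr i a).pow 2).add ((hcr i a).pow 2))) _ _)) fun t _ => pt t).trans ?_
    rw [intervalIntegral.integral_const_mul, intervalIntegral.integral_finsetSum fun i _ => j3 i]
    have h4 : ∀ i : Fin n, ∫ t in (-y)..y, (remG T (g i).c a (g i).σ (g i).w η t ^ 2 +
        remG1 T (g i).c a (g i).σ (g i).w η η1 t ^ 2) ≤ K ^ 2 := by
      intro i
      have i1 : IntervalIntegrable (fun t => remG T (g i).c a (g i).σ (g i).w η t ^ 2) volume (-y) y :=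
        ((hdr i a).pow 2).intervalIntegrable _ _
      have i2 : IntervalIntegrable (fun t => remG1 T (g i).c a (g i).σ (g i).w η η1 t ^ 2) volume
        (-y) y := ((hcr i a).pow 2).intervalIntegrable _ _
      rw [intervalIntegral.integral_add i1 i2]
      have e1 := en_prof (hdr i a) hy (b1 i a)
      have e2 := en_prof (hcr i a) hy (b2 i a)
      nlinarith [sq_nonneg K]
    have h5 := Finset.sum_le_card_nsmul Finset.univ _ _ fun i _ => h4 i
    rw [Finset.card_univ, Fintype.card_fin, nsmul_eq_mul] at h5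
    have hn : (0:ℝ) ≤ n := Nat.cast_nonneg n
    calc _ ≤ (n:ℝ) * (n * K ^ 2) := mul_le_mul_of_nonneg_left h5 hn
      _ = _ := by ring

end

end NUSea.PLX.H0
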