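import Pool.Agent.PLX.Ns
import Pool.Agent.PLX.NUSea.H0.H0
import Pool.Agent.NUSea.N42Phi
import Pool.Agent.NU42.PhiL
import Pool.Agent.NURow.Pcut
import Pool.Agent.NUDi.CutN

/-!
# The one body factors of TARGET-C as an instance of `Shl`

* `exists_Bl`: `exists_B` with the majorant at most one;
* `hfar`, `exists_far`: the factor `Cc exp (2 min (|t| - T1, x))` of a half quantum beyond the window,
  its majorant and decay together with the cutoff;
* `shl_gen`: instance of `Shl` for every cutoff and real rest.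
-/

set_option autoImplicit false
set_option linter.unusedSectionVars false

open MeasureTheory Set Filter Topology
open scoped Real ENNReal

namespace NUSea.PLX.H0

open NUH0 NU42 NU42.PhiB
open NUMF NUWC NUKer NUDi NUMFC NUR2

noncomputable section

variable [Sea]

/-- **the smooth majorant of a cutoff factor**, at most one -/
theorem exists_Bl {p c C1 : ℝ} (hp0 : 0 < p) (hp : p ≤ 8 / 3) (hc0 : 0 < c) (hC10 : 0 < C1) :
    ∃ C : ℝ, 1 ≤ C ∧ ∀ M : ℕ, 1 ≤ M →
    ∃ B B' : ℝ → ℝ, ContDiff ℝ 4 B ∧ (∀ t, HasDerivAt B (B' t) t) ∧ (∀ t, 0 ≤ B t) ∧ (∀ t, B t ≤ 1) ∧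
      (∀ j ≤ 4, ∀ t, |iteratedDeriv j B t| ≤ C) ∧ (∀ t, Real.log M / p + C ≤ |t| → B t = 0) ∧
      Integrable (fun t => M * P t * B t) ∧ (∫ t, M * P t * B t) ≤ C ∧
      Integrable (fun t => B t ^ 2 + B' t ^ 2) ∧ (∫ t, B t ^ 2 + B' t ^ 2) ≤ C ∧
      ∀ t x : ℝ, x ≤ 1 + Real.exp (-(c * (M * Real.exp (-p * |t|)))) →
        x ≤ C1 * (M * Real.exp (-p * |t|)) →
        x ≤ Real.exp (B t) ∧ x ≤ C * M * Real.exp (-p * |t|) := by
  obtain ⟨x1, hx1⟩ : ∃ x1 : ℝ, x1 = max 0 (Real.log C1 / p) := ⟨_, rfl⟩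
  have hx10 : 0 ≤ x1 := by rw [hx1]; exact le_max_left _ _
  have hx11 : C1 * Real.exp (-(p * x1)) ≤ 1 := by
    have h1 : Real.log C1 ≤ p * x1 := by
      have h2 : Real.log C1 / p ≤ x1 := by rw [hx1]; exact le_max_right _ _
      rw [div_le_iff₀ hp0] at h2
      linarith
    calc C1 * Real.exp (-(p * x1)) = Real.exp (Real.log C1) * Real.exp (-(p * x1)) := by rw [Real.exp_log hC10]
      _ = Real.exp (Real.log C1 - p * x1) := by rw [← Real.exp_add]; rfl
      _ ≤ 1 := by rw [Real.exp_le_one_iff]; linarith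
  obtain ⟨r, hr⟩ : ∃ r : ℝ, r = x1 + 2 := ⟨_, rfl⟩
  obtain ⟨C4, hC4⟩ := G_bd hp0 hc0 r 4 0 0 0
  obtain ⟨K0, hK0, hG0⟩ := G_dom hp0 hc0 r 0 0 0
  obtain ⟨K1, hK1, hG1⟩ := G_dom hp0 hc0 r 1 0 1
  obtain ⟨K2, hK2, hG2⟩ := G_dom hp0 hc0 r 0 1 1
  obtain ⟨q, hq0, hPle⟩ := P_le
  obtain ⟨K3, hK3⟩ : ∃ K3 : ℝ, K3 = p * c * K1 + K2 := ⟨_, rfl⟩
  have hK30 : 0 ≤ K3 := by rw [hK3]; positivity
  have hC40 : 0 ≤ C4 := (hC4 0).nonneg
  refine ⟨1 + C4 + r + 1 + C1 + q * K0 * (4 / p) + (K0 * K0 + K3 * K3) * (4 / p), ?_, ?_⟩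
  · have : 0 ≤ q * K0 * (4 / p) + (K0 * K0 + K3 * K3) * (4 / p) := by positivity
    rw [hr]
    linarith
  intro M hM
  have hM1 : (1 : ℝ) ≤ M := by exact_mod_cast hM
  have hM0 : (0 : ℝ) < M := by linarith
  obtain ⟨a, ha⟩ : ∃ a : ℝ, a = Real.log M / p := ⟨_, rfl⟩
  have ha0 : 0 ≤ a := by
    rw [ha]
    exact div_nonneg (Real.log_nonneg hM1) hp0.le
  have hMa : (M : ℝ) = Real.exp (p * a) := by
    rw [ha, mul_div_cancel₀ _ hp0.ne', Real.exp_log hM0]
  have hq1 : 0 ≤ q * K0 * (4 / p) := by positivity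
  have hq2 : 0 ≤ (K0 * K0 + K3 * K3) * (4 / p) := by positivity
  obtain ⟨hdi, hdv⟩ := dom_int hp0 (a + r)
  have hd0 : ∀ t, 0 < dom p (a + r) t := fun t => by
    unfold PhiB.dom
    positivity
  have hB' : ∀ t, |B1' p c r a t| ≤ K3 ∧ |B1' p c r a t| ≤ K3 * dom p (a + r) t := by
    intro t
    obtain ⟨g1, g2, _⟩ := hG1 a t
    obtain ⟨k1, k2, _⟩ := hG2 a t
    have hpc : 0 ≤ p * c := by positivity
    have h0 : |B1' p c r a t| ≤ p * c * |G p c r a 1 0 1 t| + |G p c r a 0 1 1 t| := by
      unfold B1'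
      refine (abs_add_le _ _).trans (add_le_add ?_ le_rfl)
      rw [abs_mul, abs_of_nonneg hpc]
    constructor
    · refine h0.trans ?_
      rw [hK3]
      exact add_le_add (mul_le_mul_of_nonneg_left g1 hpc) k1
    · refine h0.trans ?_
      rw [hK3, add_mul, mul_assoc (p * c) K1]
      exact add_le_add (mul_le_mul_of_nonneg_left g2 hpc) k2
  have hBc : Continuous (G p c r a 0 0 0) := G_cont 0 0 0
  have hB'c : Continuous (B1' p c r a) := by
    unfold B1'
    exact (continuous_const.mul (G_cont 1 0 1)).add (G_cont 0 1 1)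
  -- the density
  have hP : ∀ t, |M * P t * G p c r a 0 0 0 t| ≤ q * K0 * dom p (a + r) t := by
    intro t
    obtain ⟨_, _, g3⟩ := hG0 a t
    have h1 := hPle t
    have h2 : M * P t ≤ q * Real.exp (-(p * (|t| - a))) := by
      calc M * P t ≤ Real.exp (p * a) * (q * Real.exp (-(8 / 3) * |t|)) := by
            rw [hMa]
            exact mul_le_mul_of_nonneg_left h1 (Real.exp_pos _).le
        _ ≤ Real.exp (p * a) * (q * Real.exp (-p * |t|)) := by
            gcongr
        _ = q * Real.exp (-(p * (|t| - a))) := by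
            rw [show -(p * (|t| - a)) = p * a + -p * |t| by ring, Real.exp_add]
            ring
    rw [abs_mul, abs_of_nonneg (mul_nonneg hM0.le (P_pos t).le)]
    calc _ ≤ q * Real.exp (-(p * (|t| - a))) * |G p c r a 0 0 0 t| :=
          mul_le_mul_of_nonneg_right h2 (abs_nonneg _)
      _ = q * (Real.exp (-(p * (|t| - a))) * |G p c r a 0 0 0 t|) := by ring
      _ ≤ q * (K0 * dom p (a + r) t) := mul_le_mul_of_nonneg_left g3 hq0.le
      _ = _ := by ring
  have hPi : Integrable (fun t => M * P t * G p c r a 0 0 0 t) := by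
    refine Integrable.mono' (hdi.const_mul (q * K0)) ?_ (Eventually.of_forall fun t => ?_)
    · exact ((continuous_const.mul P_cont).mul hBc).aestronglyMeasurable
    · rw [Real.norm_eq_abs]
      exact hP t
  have hS : ∀ t, G p c r a 0 0 0 t ^ 2 + B1' p c r a t ^ 2 ≤ (K0 * K0 + K3 * K3) * dom p (a + r) t := by
    intro t
    obtain ⟨g1, g2, _⟩ := hG0 a t
    obtain ⟨k1, k2⟩ := hB' t
    have e1 : G p c r a 0 0 0 t ^ 2 ≤ K0 * (K0 * dom p (a + r) t) := by
      rw [← sq_abs, sq]
      exact mul_le_mul g1 g2 (abs_nonneg _) hK0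
    have e2 : B1' p c r a t ^ 2 ≤ K3 * (K3 * dom p (a + r) t) := by
      rw [← sq_abs, sq]
      exact mul_le_mul k1 k2 (abs_nonneg _) hK30
    linarith
  have hSi : Integrable (fun t => G p c r a 0 0 0 t ^ 2 + B1' p c r a t ^ 2) := by
    refine Integrable.mono' (hdi.const_mul (K0 * K0 + K3 * K3)) ?_ (Eventually.of_forall fun t => ?_)
    · exact ((hBc.pow 2).add (hB'c.pow 2)).aestronglyMeasurable
    · rw [Real.norm_eq_abs, abs_of_nonneg (by positivity)]
      exact hS t
  refine ⟨G p c r a 0 0 0, B1' p c r a, ?_, hasDerivAt_B1 p c r a, G_nonneg p c r a, ?_, ?_, ?_, hPi, ?_, hSi, ?_, ?_⟩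
  · exact_mod_cast (hC4 a).contDiff
  · intro t
    exact NU42.G_le_one hc0.le r a t
  · intro j hj t
    refine ((hC4 a).iter j hj t).trans ?_
    rw [hr]
    linarith
  · intro t ht
    rw [← ha] at ht
    obtain ⟨K, hK, hK'⟩ := G_le (r := r) hp0 hc0 0 0 0
    refine (hK' a t).2 ?_
    linarith
  · calc ∫ t, M * P t * G p c r a 0 0 0 t ≤ ∫ t, q * K0 * dom p (a + r) t := by
          refine integral_mono hPi (hdi.const_mul _) fun t => (le_abs_self _).trans (hP t)
      _ = q * K0 * (4 / p) := by rw [integral_const_mul, hdv]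
      _ ≤ _ := by
          rw [hr]
          linarith
  · calc ∫ t, G p c r a 0 0 0 t ^ 2 + B1' p c r a t ^ 2 ≤ ∫ t, (K0 * K0 + K3 * K3) * dom p (a + r) t := by
          refine integral_mono hSi (hdi.const_mul _) fun t => hS t
      _ = (K0 * K0 + K3 * K3) * (4 / p) := by rw [integral_const_mul, hdv]
      _ ≤ _ := by
          rw [hr]
          linarith
  · intro t x h1 h2
    have hMe : M * Real.exp (-p * |t|) = Real.exp (-(p * (|t| - a))) := by
      rw [hMa, ← Real.exp_add]
      ring_nf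
    constructor
    · by_cases hc1 : |t| - a ≤ x1
      · have hg1 := gg_le t
        have hg2 := abs_le_gg t
        rw [G_eq (by rw [hr]; linarith)]
        rw [hMe] at h1
        have h5 : Real.exp (-(c * Real.exp (-(p * (|t| - a))))) ≤
            Real.exp (-(c * Real.exp (-(p * (gg t - a))))) := by
          gcongr
        have h6 := Real.add_one_le_exp (Real.exp (-(c * Real.exp (-(p * (gg t - a))))))
        linarith
      · push Not at hc1
        have h3 : x ≤ 1 := by
          refine h2.trans ?_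
          rw [hMe]
          refine le_trans ?_ hx11
          gcongr
        exact h3.trans (Real.one_le_exp (G_nonneg _ _ _ _ _))
    · refine h2.trans ?_
      rw [← mul_assoc]
      refine mul_le_mul_of_nonneg_right ?_ (by positivity)
      refine mul_le_mul_of_nonneg_right ?_ hM0.le
      rw [hr]
      linarith

/-! ### a bump at the end of the window -/

/-- one sided bump -/
def bp (W y : ℝ) : ℝ := Real.smoothTransition (y + 1) * Real.smoothTransition (W + 1 - y)

/-- its derivative -/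
def bp1 (W y : ℝ) : ℝ := deriv Real.smoothTransition (y + 1) * Real.smoothTransition (W + 1 - y) +
  Real.smoothTransition (y + 1) * (-deriv Real.smoothTransition (W + 1 - y))

theorem bp_hd (W y : ℝ) : HasDerivAt (bp W) (bp1 W y) y := by
  have h1 : HasDerivAt (fun y => Real.smoothTransition (y + 1))
      (deriv Real.smoothTransition (y + 1)) y := by
    have := (sig_hd (y + 1)).comp y ((hasDerivAt_id y).add_const 1)
    rw [mul_one] at this
    exact this
  have h2 : HasDerivAt (fun y => Real.smoothTransition (W + 1 - y))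
      (-deriv Real.smoothTransition (W + 1 - y)) y := by
    have := (sig_hd (W + 1 - y)).comp y ((hasDerivAt_id y).const_sub (W + 1))
    rw [mul_neg, mul_one] at this
    exact this
  exact h1.mul h2

theorem bp_nonneg (W y : ℝ) : 0 ≤ bp W y :=
  mul_nonneg (Real.smoothTransition.nonneg _) (Real.smoothTransition.nonneg _)

theorem bp_le (W y : ℝ) : bp W y ≤ 1 := by
  unfold bp
  have h1 := Real.smoothTransition.le_one (y + 1)
  have h2 := Real.smoothTransition.le_one (W + 1 - y)
  have h3 := Real.smoothTransition.nonneg (y + 1)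
  have h4 := Real.smoothTransition.nonneg (W + 1 - y)
  nlinarith

theorem bp_one {W y : ℝ} (h0 : 0 ≤ y) (h1 : y ≤ W) : bp W y = 1 := by
  unfold bp
  rw [Real.smoothTransition.one_of_one_le (by linarith),
    Real.smoothTransition.one_of_one_le (by linarith), mul_one]

theorem bp_zero {W y : ℝ} (h : y ≤ -1 ∨ W + 1 ≤ y) : bp W y = 0 := by
  unfold bp
  rcases h with h | h
  · rw [Real.smoothTransition.zero_of_nonpos (by linarith), zero_mul]
  · rw [Real.smoothTransition.zero_of_nonpos (x := W + 1 - y) (by linarith), mul_zero]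

theorem bp1_zero {W y : ℝ} (h : y < -1 ∨ W + 1 < y) : bp1 W y = 0 := by
  have h1 := (bp_hd W y).deriv
  rw [← h1]
  have e : bp W =ᶠ[𝓝 y] fun _ => (0 : ℝ) := by
    rcases h with h | h
    · filter_upwards [Iio_mem_nhds h] with z hz
      exact bp_zero (Or.inl (le_of_lt hz))
    · filter_upwards [Ioi_mem_nhds h] with z hz
      exact bp_zero (Or.inr (le_of_lt hz))
  rw [e.deriv_eq, deriv_const]

theorem bp_contDiff (W : ℝ) : ContDiff ℝ 4 (bp W) := by
  have h1 : ContDiff ℝ 4 fun y : ℝ => Real.smoothTransition (y + 1) :=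
    Real.smoothTransition.contDiff.comp (by fun_prop)
  have h2 : ContDiff ℝ 4 fun y : ℝ => Real.smoothTransition (W + 1 - y) :=
    Real.smoothTransition.contDiff.comp (by fun_prop)
  exact h1.mul h2

theorem bp1_cont (W : ℝ) : Continuous (bp1 W) := by
  have hc : Continuous (deriv Real.smoothTransition) :=
    (Real.smoothTransition.contDiff (n := 1)).continuous_deriv le_rfl
  have hs := Real.smoothTransition.continuous
  unfold bp1
  fun_prop

/-- two sided bump of height `K` on `T1 ≤ |t| ≤ T1 + W` -/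
def bf (K W T1 t : ℝ) : ℝ := K * (bp W (t - T1) + bp W (-t - T1))

/-- its derivative -/
def bf1 (K W T1 t : ℝ) : ℝ := K * (bp1 W (t - T1) - bp1 W (-t - T1))

theorem bf_hd (K W T1 t : ℝ) : HasDerivAt (bf K W T1) (bf1 K W T1 t) t := by
  have h1 : HasDerivAt (fun t => bp W (t - T1)) (bp1 W (t - T1)) t := by
    have := (bp_hd W (t - T1)).comp t ((hasDerivAt_id t).sub_const T1)
    rw [mul_one] at this
    exact this
  have h2 : HasDerivAt (fun t => bp W (-t - T1)) (-bp1 W (-t - T1)) t := by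
    have := (bp_hd W (-t - T1)).comp t ((hasDerivAt_id t).neg.sub_const T1)
    rw [mul_neg, mul_one] at this
    exact this
  exact (h1.add h2).const_mul K

/-- the set where the bump lives -/
def bS (W T1 : ℝ) : Set ℝ := Icc (T1 - 1) (T1 + W + 1) ∪ Icc (-T1 - W - 1) (-T1 + 1)

theorem bS_abs {W T1 t : ℝ} (h : t ∈ bS W T1) : T1 - 1 ≤ |t| := by
  rcases h with h | h
  · exact h.1.trans (le_abs_self t)
  · have := h.2
    have h2 := neg_abs_le t
    linarith

theorem bf_out {K W T1 t : ℝ} (h : t ∉ bS W T1) : bf K W T1 t = 0 ∧ bf1 K W T1 t = 0 := by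
  have h1 : t - T1 < -1 ∨ W + 1 < t - T1 := by
    by_contra hcon
    push Not at hcon
    exact h (Or.inl ⟨by linarith [hcon.1], by linarith [hcon.2]⟩)
  have h2 : -t - T1 < -1 ∨ W + 1 < -t - T1 := by
    by_contra hcon
    push Not at hcon
    exact h (Or.inr ⟨by linarith [hcon.2], by linarith [hcon.1]⟩)
  unfold bf bf1
  rw [bp_zero (h1.imp le_of_lt le_of_lt), bp_zero (h2.imp le_of_lt le_of_lt), bp1_zero h1, bp1_zero h2]
  simp

/-- a function vanishing off `bS` and bounded by `A` -/
theorem bS_int {W T1 A : ℝ} (hW : 0 ≤ W) (hA : 0 ≤ A) {f : ℝ → ℝ} (hf : Continuous f)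
    (h1 : ∀ t, t ∉ bS W T1 → f t = 0) (h2 : ∀ t, t ∈ bS W T1 → |f t| ≤ A) :
    Integrable f ∧ ∫ t, f t ≤ A * (2 * (W + 2)) := by
  have hm : MeasurableSet (bS W T1) := measurableSet_Icc.union measurableSet_Icc
  have hv : volume (bS W T1) ≤ ENNReal.ofReal (2 * (W + 2)) := by
    refine (measure_union_le _ _).trans ?_
    rw [Real.volume_Icc, Real.volume_Icc, ← ENNReal.ofReal_add (by linarith) (by linarith)]
    refine ENNReal.ofReal_le_ofReal (by linarith)
  have hfin : volume (bS W T1) < ⊤ := lt_of_le_of_lt hv ENNReal.ofReal_lt_top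
  have hI : Integrable ((bS W T1).indicator fun _ => A) :=
    (integrable_indicator_iff hm).2 (integrableOn_const hfin.ne)
  have hb : ∀ t, ‖f t‖ ≤ (bS W T1).indicator (fun _ => A) t := by
    intro t
    by_cases ht : t ∈ bS W T1
    · rw [indicator_of_mem ht]
      exact h2 t ht
    · rw [indicator_of_notMem ht, h1 t ht, norm_zero]
  have hfi : Integrable f := hI.mono' hf.aestronglyMeasurable (ae_of_all _ hb)
  refine ⟨hfi, ?_⟩
  calc ∫ t, f t ≤ ∫ t, (bS W T1).indicator (fun _ => A) t :=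
        integral_mono hfi hI fun t => (le_abs_self _).trans (hb t)
    _ = (volume (bS W T1)).toReal * A := by
        rw [integral_indicator hm, setIntegral_const, smul_eq_mul]
        rfl
    _ ≤ (2 * (W + 2)) * A := by
        refine mul_le_mul_of_nonneg_right ?_ hA
        have := ENNReal.toReal_mono ENNReal.ofReal_ne_top hv
        rwa [ENNReal.toReal_ofReal (by linarith)] at this
    _ = _ := mul_comm _ _

/-- **the factor of a half quantum beyond the window** -/
def hfar (Cc T1 x t : ℝ) : ℝ := if |t| ≤ T1 then 1 else Cc * Real.exp (2 * min (|t| - T1) x)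

theorem hfar_nonneg {Cc T1 x : ℝ} (hC : 0 ≤ Cc) (t : ℝ) : 0 ≤ hfar Cc T1 x t := by
  unfold hfar
  split_ifs
  · exact zero_le_one
  · positivity

theorem hfar_in {Cc T1 x t : ℝ} (h : |t| ≤ T1) : hfar Cc T1 x t = 1 := if_pos h

theorem hfar_out {Cc T1 x t : ℝ} (h : T1 < |t|) :
    hfar Cc T1 x t = Cc * Real.exp (2 * min (|t| - T1) x) := if_neg (not_le.2 h)

theorem hfar_meas (Cc T1 x : ℝ) : Measurable (hfar Cc T1 x) := by
  unfold hfar
  refine Measurable.ite (measurableSet_le (by fun_prop) measurable_const) measurable_const ?_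
  fun_prop

/-- **the far factor**: a bump `b` at the end of the window such that the cutoff times the far factor
has the majorant `e^{B + b}` and decays -/
theorem exists_far {Cc : ℝ} (hCc : 1 ≤ Cc) : ∃ C : ℝ, 1 ≤ C ∧ ∀ T1 : ℝ, 1 ≤ T1 →
    ∃ b b' : ℝ → ℝ, ContDiff ℝ 4 b ∧ (∀ t, HasDerivAt b (b' t) t) ∧ (∀ t, 0 ≤ b t) ∧ (∀ t, b t ≤ C) ∧
      (∀ t, |b' t| ≤ C) ∧ (∀ t, |t| < T1 - 1 → b t = 0) ∧
      Integrable (fun t => b t ^ 2 + b' t ^ 2) ∧ (∫ t, b t ^ 2 + b' t ^ 2) ≤ C ∧
      (∀ M : ℝ, 0 ≤ M → M * Real.exp (-(8 / 3) * T1) ≤ 1 →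
        Integrable (fun t => M * P t * b t) ∧ (∫ t, M * P t * b t) ≤ C) ∧
      ∀ {cf B : ℝ → ℝ} {a D x : ℝ}, 13 / 5 ≤ a → 0 ≤ x → (∀ t, 0 ≤ cf t) → (∀ t, 0 ≤ B t) →
        (∀ t, cf t ≤ Real.exp (B t)) → (∀ t, cf t ≤ 2) → (∀ t, cf t ≤ D * Real.exp (-a * |t|)) →
        D * Real.exp (-a * T1) ≤ 1 → ∀ t,
        cf t * hfar Cc T1 x t ≤ Real.exp (B t + b t) ∧
        cf t * hfar Cc T1 x t ≤ (2 + Cc) * Real.exp (37 / 20 * x) * Real.exp (49 / 20 * T1) *
          Real.exp (-(49 / 20) * |t|) := by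
  obtain ⟨Cs, hCs0, hCs⟩ := exists_sig
  obtain ⟨q, hq0, hPle⟩ := P_le
  obtain ⟨K, hK⟩ : ∃ K : ℝ, K = Real.log Cc := ⟨_, rfl⟩
  have hK0 : 0 ≤ K := by rw [hK]; exact Real.log_nonneg hCc
  have hKe : Real.exp K = Cc := by rw [hK]; exact Real.exp_log (by linarith)
  obtain ⟨W, hW⟩ : ∃ W : ℝ, W = 2 * K := ⟨_, rfl⟩
  have hW0 : 0 ≤ W := by rw [hW]; positivity
  obtain ⟨Q, hQ⟩ : ∃ Q : ℝ, Q = (2 * K) ^ 2 + (K * (4 * Cs)) ^ 2 := ⟨_, rfl⟩
  have hQ0 : 0 ≤ Q := by rw [hQ]; positivity
  obtain ⟨Z, hZ⟩ : ∃ Z : ℝ, Z = q * Real.exp (8 / 3) * (2 * K) := ⟨_, rfl⟩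
  have hZ0 : 0 ≤ Z := by rw [hZ]; positivity
  have a1 : 0 ≤ Q * (2 * (W + 2)) := by positivity
  have a2 : 0 ≤ Z * (2 * (W + 2)) := by positivity
  have a3 : 0 ≤ K * (4 * Cs) := by positivity
  refine ⟨1 + 2 * K + K * (4 * Cs) + Q * (2 * (W + 2)) + Z * (2 * (W + 2)), by linarith, ?_⟩
  intro T1 hT1
  have hb2 : ∀ t, bf K W T1 t ≤ 2 * K := fun t => by
    unfold bf
    have h1 := bp_le W (t - T1)
    have h2 := bp_le W (-t - T1)
    nlinarith
  have hb0 : ∀ t, 0 ≤ bf K W T1 t := fun t => by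
    unfold bf
    have h1 := bp_nonneg W (t - T1)
    have h2 := bp_nonneg W (-t - T1)
    positivity
  have hp1 : ∀ y, |bp1 W y| ≤ 2 * Cs := by
    intro y
    unfold bp1
    refine (abs_add_le _ _).trans ?_
    rw [abs_mul, abs_mul, abs_neg]
    have h1 := hCs (y + 1)
    have h2 := hCs (W + 1 - y)
    have h3 := Real.smoothTransition.le_one (y + 1)
    have h4 := Real.smoothTransition.le_one (W + 1 - y)
    have h5 := Real.smoothTransition.nonneg (y + 1)
    have h6 := Real.smoothTransition.nonneg (W + 1 - y)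
    rw [abs_of_nonneg h5, abs_of_nonneg h6]
    have h7 : |deriv Real.smoothTransition (y + 1)| * Real.smoothTransition (W + 1 - y) ≤ Cs * 1 := by
      gcongr
    have h8 : Real.smoothTransition (y + 1) * |deriv Real.smoothTransition (W + 1 - y)| ≤ 1 * Cs := by
      gcongr
    linarith
  have hb1 : ∀ t, |bf1 K W T1 t| ≤ K * (4 * Cs) := fun t => by
    unfold bf1
    rw [abs_mul, abs_of_nonneg hK0]
    refine mul_le_mul_of_nonneg_left ?_ hK0
    have h1 := hp1 (t - T1)
    have h2 := hp1 (-t - T1)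
    have h3 := abs_sub (bp1 W (t - T1)) (bp1 W (-t - T1))
    linarith
  have hcd : ContDiff ℝ 4 (bf K W T1) := by
    have h1 : ContDiff ℝ 4 fun t : ℝ => bp W (t - T1) := (bp_contDiff W).comp (by fun_prop)
    have h2 : ContDiff ℝ 4 fun t : ℝ => bp W (-t - T1) := (bp_contDiff W).comp (by fun_prop)
    exact contDiff_const.mul (h1.add h2)
  have hcb : Continuous (bf K W T1) := hcd.continuous
  have hcb1 : Continuous (bf1 K W T1) := by
    have h1 := bp1_cont W
    unfold bf1
    fun_prop
  refine ⟨bf K W T1, bf1 K W T1, hcd, bf_hd K W T1, hb0, ?_, ?_, ?_, ?_, ?_, ?_, ?_⟩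
  · intro t
    have := hb2 t
    linarith
  · intro t
    have := hb1 t
    linarith
  · intro t ht
    refine (bf_out fun h => ?_).1
    have := bS_abs h
    linarith
  · refine (bS_int (W := W) (T1 := T1) hW0 hQ0
      (f := fun t => bf K W T1 t ^ 2 + bf1 K W T1 t ^ 2) ((hcb.pow 2).add (hcb1.pow 2)) (fun t ht => ?_)
      fun t _ => ?_).1
    · obtain ⟨h1, h2⟩ := bf_out (K := K) ht
      rw [h1, h2]
      ring
    · rw [abs_of_nonneg (by positivity), hQ]
      have h1 := hb2 t
      have h2 := hb1 t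
      have h3 := hb0 t
      have h4 : bf1 K W T1 t ^ 2 ≤ (K * (4 * Cs)) ^ 2 := sq_le_sq' (by linarith [(abs_le.1 h2).1])
        (abs_le.1 h2).2
      have h5 : bf K W T1 t ^ 2 ≤ (2 * K) ^ 2 := pow_le_pow_left₀ h3 h1 2
      linarith
  · refine le_trans (bS_int (W := W) (T1 := T1) hW0 hQ0
      (f := fun t => bf K W T1 t ^ 2 + bf1 K W T1 t ^ 2) ((hcb.pow 2).add (hcb1.pow 2)) (fun t ht => ?_)
      fun t _ => ?_).2 (by linarith)
    · obtain ⟨h1, h2⟩ := bf_out (K := K) ht
      rw [h1, h2]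
      ring
    · rw [abs_of_nonneg (by positivity), hQ]
      have h1 := hb2 t
      have h2 := hb1 t
      have h3 := hb0 t
      have h4 : bf1 K W T1 t ^ 2 ≤ (K * (4 * Cs)) ^ 2 := sq_le_sq' (by linarith [(abs_le.1 h2).1])
        (abs_le.1 h2).2
      have h5 : bf K W T1 t ^ 2 ≤ (2 * K) ^ 2 := pow_le_pow_left₀ h3 h1 2
      linarith
  · intro M hM hMT
    obtain ⟨g1, g2⟩ := bS_int (W := W) (T1 := T1) hW0 hZ0
      (f := fun t => M * P t * bf K W T1 t) ((continuous_const.mul P_cont).mul hcb) (fun t ht => by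
        rw [(bf_out (K := K) ht).1, mul_zero]) (fun t ht => by
        have h1 := hPle t
        have h2 := bS_abs ht
        have h3 := hb0 t
        have h4 := hb2 t
        have h5 := (P_pos t).le
        rw [abs_of_nonneg (by positivity)]
        have h6 : M * P t ≤ q * Real.exp (8 / 3) := by
          have h7 : Real.exp (-(8 / 3) * |t|) ≤ Real.exp (-(8 / 3) * T1) * Real.exp (8 / 3) := by
            rw [← Real.exp_add]
            exact Real.exp_le_exp.2 (by linarith)
          calc M * P t ≤ M * (q * (Real.exp (-(8 / 3) * T1) * Real.exp (8 / 3))) := by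
                refine mul_le_mul_of_nonneg_left (h1.trans ?_) hM
                gcongr
            _ = q * Real.exp (8 / 3) * (M * Real.exp (-(8 / 3) * T1)) := by ring
            _ ≤ q * Real.exp (8 / 3) * 1 := by gcongr
            _ = _ := mul_one _
        rw [hZ]
        exact mul_le_mul h6 h4 h3 (by positivity))
    exact ⟨g1, by linarith⟩
  · intro cf B a D x ha hx hcf0 hB0 hcB hc2 hcD hD t
    rcases le_or_gt |t| T1 with ht | ht
    · rw [hfar_in ht, mul_one]
      constructor
      · refine (hcB t).trans (Real.exp_le_exp.2 ?_)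
        linarith [hb0 t]
      · refine (hc2 t).trans ?_
        have h1 : 1 ≤ Real.exp (37 / 20 * x) := Real.one_le_exp (by positivity)
        have h2 : 1 ≤ Real.exp (49 / 20 * T1) * Real.exp (-(49 / 20) * |t|) := by
          rw [← Real.exp_add]
          exact Real.one_le_exp (by linarith)
        calc (2 : ℝ) ≤ (2 + Cc) * 1 * 1 := by linarith
          _ ≤ (2 + Cc) * Real.exp (37 / 20 * x) * (Real.exp (49 / 20 * T1) *
              Real.exp (-(49 / 20) * |t|)) := by gcongr
          _ = _ := by ring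
    · rw [hfar_out ht]
      obtain ⟨y, hy⟩ : ∃ y : ℝ, y = |t| - T1 := ⟨_, rfl⟩
      have hy0 : 0 < y := by rw [hy]; linarith
      rw [← hy]
      have hcy : cf t ≤ Real.exp (-a * y) := by
        calc cf t ≤ D * Real.exp (-a * |t|) := hcD t
          _ = D * Real.exp (-a * T1) * Real.exp (-a * y) := by
              rw [mul_assoc, ← Real.exp_add, hy]
              congr 2
              ring
          _ ≤ 1 * Real.exp (-a * y) := by gcongr
          _ = _ := one_mul _
      have hm1 : min y x ≤ y := min_le_left _ _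
      have hm2 : min y x ≤ x := min_le_right _ _
      have hCc0 : 0 ≤ Cc := by linarith
      have hkey : cf t * (Cc * Real.exp (2 * min y x)) ≤ Cc * Real.exp (2 * min y x - a * y) := by
        calc cf t * (Cc * Real.exp (2 * min y x)) ≤ Real.exp (-a * y) * (Cc * Real.exp (2 * min y x)) := by
              gcongr
          _ = Cc * Real.exp (2 * min y x - a * y) := by
              rw [show 2 * min y x - a * y = -a * y + 2 * min y x by ring, Real.exp_add]
              ring
      constructor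
      · refine hkey.trans ?_
        rw [← hKe, ← Real.exp_add]
        refine Real.exp_le_exp.2 ?_
        have h1 := hB0 t
        have h2 := hb0 t
        have h3 : 2 * min y x - a * y ≤ -(3 / 5) * y := by nlinarith
        rcases le_or_gt y W with hyW | hyW
        · have h4 : K ≤ bf K W T1 t := by
            unfold bf
            have p1 := bp_nonneg W (t - T1)
            have p2 := bp_nonneg W (-t - T1)
            rcases le_or_gt 0 t with h5 | h5
            · rw [abs_of_nonneg h5] at hy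
              rw [← hy, bp_one hy0.le hyW]
              nlinarith
            · rw [abs_of_neg h5] at hy
              rw [← hy, bp_one hy0.le hyW]
              nlinarith
          linarith
        · rw [hW] at hyW
          linarith
      · refine hkey.trans ?_
        have h3 : 2 * min y x - a * y ≤ 37 / 20 * x - 49 / 20 * y := by
          rcases le_total y x with h | h
          · rw [min_eq_left h]
            nlinarith
          · rw [min_eq_right h]
            nlinarith
        calc Cc * Real.exp (2 * min y x - a * y) ≤ (2 + Cc) * Real.exp (37 / 20 * x - 49 / 20 * y) := by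
              gcongr
              linarith
          _ = _ := by
              rw [mul_assoc, mul_assoc, ← Real.exp_add, ← Real.exp_add, hy]
              congr 2
              ring

/-- the cutoff of the pairs at the end of the window is small -/
theorem far_num {ep C : ℝ} (h0 : 0 < ep) (h1 : ep ≤ 1 / 100) : ∃ m0 : ℝ, 1 ≤ m0 ∧ ∀ m M T1 : ℝ,
    m0 ≤ m → 0 ≤ M → M ≤ m → (1 + 2 * ep) * (3 / 8 * Real.log m) ≤ T1 → 0 ≤ C →
    C * M * Real.exp (-(8 / 3 * (1 - ep)) * T1) ≤ 1 ∧ M * Real.exp (-(8 / 3) * T1) ≤ 1 := by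
  refine ⟨max 1 ((max C 1) ^ (2 / ep)), le_max_left _ _, ?_⟩
  intro m M T1 hm hM0 hM hT hC
  have hm1 : 1 ≤ m := (le_max_left _ _).trans hm
  have hm0 : 0 < m := by linarith
  have hL : 0 ≤ Real.log m := Real.log_nonneg hm1
  have hCm : C ≤ m ^ (ep / 2) := by
    have h2 : (max C 1) ^ (2 / ep) ≤ m := (le_max_right _ _).trans hm
    have h3 : 0 < max C 1 := lt_max_of_lt_right one_pos
    have h4 : ((max C 1) ^ (2 / ep)) ^ (ep / 2) ≤ m ^ (ep / 2) :=
      Real.rpow_le_rpow (Real.rpow_nonneg h3.le _) h2 (by positivity)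
    rw [← Real.rpow_mul h3.le] at h4
    have h5 : 2 / ep * (ep / 2) = 1 := by field_simp
    rw [h5, Real.rpow_one] at h4
    exact (le_max_left _ _).trans h4
  have hme : m = Real.exp (Real.log m) := (Real.exp_log hm0).symm
  have hT' : 3 / 8 * Real.log m ≤ T1 := by
    have : 0 ≤ 2 * ep * (3 / 8 * Real.log m) := by positivity
    linarith
  constructor
  · have h2 : m ^ (ep / 2) = Real.exp (ep / 2 * Real.log m) := by
      rw [Real.rpow_def_of_pos hm0]
      congr 1
      ring
    calc C * M * Real.exp (-(8 / 3 * (1 - ep)) * T1) ≤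
        m ^ (ep / 2) * m * Real.exp (-(8 / 3 * (1 - ep)) * ((1 + 2 * ep) * (3 / 8 * Real.log m))) := by
          have h3 : Real.exp (-(8 / 3 * (1 - ep)) * T1) ≤
              Real.exp (-(8 / 3 * (1 - ep)) * ((1 + 2 * ep) * (3 / 8 * Real.log m))) := by
            refine Real.exp_le_exp.2 ?_
            have : 0 ≤ 8 / 3 * (1 - ep) := by linarith
            nlinarith
          gcongr
      _ = Real.exp (ep / 2 * Real.log m + Real.log m -
          (1 - ep) * (1 + 2 * ep) * Real.log m) := by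
          rw [h2]
          nth_rewrite 2 [hme]
          rw [← Real.exp_add, ← Real.exp_add]
          congr 1
          ring
      _ ≤ 1 := by
          refine Real.exp_le_one_iff.2 ?_
          have h4 : ep / 2 + 1 ≤ (1 - ep) * (1 + 2 * ep) := by nlinarith
          nlinarith
  · calc M * Real.exp (-(8 / 3) * T1) ≤ m * Real.exp (-(8 / 3) * (3 / 8 * Real.log m)) :=
          mul_le_mul hM (Real.exp_le_exp.2 (by linarith)) (Real.exp_pos _).le hm0.le
      _ = Real.exp (Real.log m + -(8 / 3) * (3 / 8 * Real.log m)) := by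
          rw [Real.exp_add, ← hme]
      _ ≤ 1 := by
          refine Real.exp_le_one_iff.2 ?_
          linarith

/-! ### the instance -/

variable {X : Dat} {Cκ : ℝ} {p n : ℕ}

/-- one body factor without slack and cutoff, with real rest `ra`, in the field of the own rows of the
species and of the cross rows -/
def aR (X : Dat) (ra : Bool → ℝ → ℝ) (a : Bool) (t : ℝ) : ℝ :=
  Real.exp ((vb X.s a (X.ζ a t)).re + (X.F a (X.ζ a t)).re + ra a t)

theorem aR_meas (hG : Geo X Cκ) {ra : Bool → ℝ → ℝ} {a : Bool} (hra : Measurable (ra a)) :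
    Measurable (aR X ra a) := by
  obtain ⟨b, c', B, h1, h2, h3⟩ := hG.path
  have h4 := (h3 a).cont (h2 a)
  have h5 := (vb_ext X.s a h1).cont (h2 a)
  exact Real.measurable_exp.comp (((Complex.continuous_re.comp h5).add
    (Complex.continuous_re.comp h4)).measurable.add hra)

/-- **instance of `Shl`** for every cutoff and real rest -/
theorem shl_gen (hG : Geo X Cκ) {cf B : ℝ → ℝ} {D q : ℝ} {ra : Bool → ℝ → ℝ} (hD : 0 ≤ D)
    (hq : 0 < q) (hm : Measurable cf) (hBm : Measurable B) (h0 : ∀ t, 0 ≤ cf t) (hB0 : ∀ t, 0 ≤ B t)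
    (hcB : ∀ t, cf t ≤ Real.exp (B t)) (hcD : ∀ t, cf t ≤ D * Real.exp (-q * |t|))
    (hra : ∀ a, Measurable (ra a)) (hE : ∀ a t, B t + ra a t ≤ X.E a t) :
    Shl X (aR X ra true) (aR X ra false) cf B D q where
  mX := aR_meas hG (hra true)
  mY := aR_meas hG (hra false)
  mc := hm
  mB := hBm
  X0 t := (Real.exp_pos _).le
  Y0 t := (Real.exp_pos _).le
  c0 := h0
  B0 := hB0
  D0 := hD
  q0 := hq
  cB := hcB
  cD := hcD
  leX t := by
    unfold aR Dat.pot
    rw [← Real.exp_add]
    exact Real.exp_le_exp.2 (by linarith [hE true t])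
  leY t := by
    unfold aR Dat.pot
    rw [← Real.exp_add]
    exact Real.exp_le_exp.2 (by linarith [hE false t])

end

end NUSea.PLX.H0
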