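import Pool.Agent.PLX.Ns
import Pool.Agent.PLX.NUSea.H0.En
import Pool.Agent.NUH0.DatO
import Pool.Agent.NUGC.CfgC
import Pool.Agent.NUGC.DrT

/-!
# The slack against the density of the sea; symmetric energies

`slO_sum`: `∑_a s a ∫ P slO = ∑_i s (sp i) ∫ P slk`; `sym_ch`, `sym_ob`: the energies of objects and
sources are symmetric.
-/

set_option autoImplicit false
set_option linter.unusedSectionVars false

open MeasureTheory Set Filter Topology Complex

namespace NUSea.PLX.H0

noncomputable section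

open NUO (Kind Xo kd ht Par PG wK cons lpL slkK)
open NUC43 (slk tauC muC sgX sgY sgT Adm)
open NUH0 (slO slO_bc)
open NUGC (Sr ES muS tauS obSr)
open Pool.Agent.NUM3 (ER)

variable [Sea]

variable {r : ℕ}

/-! ### the slack against the density of the sea -/

lemma P_slk_int (x : ℝ) : Integrable fun t => P t * slk (t - x) := by
  obtain ⟨M, D, hM, -, -, h3, -⟩ := NUC43.slk_deriv
  have hc := NUC43.slk_cont
  refine P_int.mul_bdd (c := M) (Continuous.aestronglyMeasurable (by fun_prop))
    (Eventually.of_forall fun t => ?_)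
  rw [Real.norm_eq_abs]
  refine (h3 _).trans ?_
  have : Real.exp (-(5 / 2) * |t - x|) ≤ 1 := Real.exp_le_one_iff.2 (by
    have := abs_nonneg (t - x)
    linarith)
  exact mul_le_of_le_one_right hM this

lemma slkK_int (K : Kind) (x : ℝ) : Integrable (fun t => P t * slkK slk K (t - x)) ∧
    ∫ t, P t * slkK slk K (t - x) = slkK (fun t => ∫ u, P u * slk (u - t)) K x := by
  cases K
  · simp [slkK]
  · simp [slkK]
  · exact ⟨P_slk_int x, rfl⟩
  · constructor
    · exact ((P_slk_int x).div_const 2).congr (Eventually.of_forall fun t => by simp only [slkK]; ring)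
    · simp only [slkK]
      rw [← integral_div]
      congr 1
      funext t
      ring
  · simp [slkK]

lemma slO_int (O : Fin r → Xo) (a : Bool) : Integrable (fun t => P t * slO O a t) ∧
    ∫ t, P t * slO O a t = ∑ i, if NUO.sp (O i) = a then
      slkK (fun t => ∫ u, P u * slk (u - t)) (kd (O i)) (ht (O i)) else 0 := by
  have h1 : ∀ i, Integrable fun t => P t * (if NUO.sp (O i) = a then
      slkK slk (kd (O i)) (t - ht (O i)) else 0) := by
    intro i
    split_ifs
    · exact (slkK_int _ _).1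
    · simp
  unfold slO
  simp_rw [Finset.mul_sum]
  refine ⟨integrable_finsetSum _ fun i _ => h1 i, ?_⟩
  rw [integral_finsetSum _ fun i _ => h1 i]
  refine Finset.sum_congr rfl fun i _ => ?_
  split_ifs
  · exact (slkK_int _ _).2
  · simp

lemma slO_sum (s : Bool → ℝ) (O : Fin r → Xo) : ∑ a, s a * ∫ t, P t * slO O a t =
    ∑ i, s (NUO.sp (O i)) * slkK (fun t => ∫ u, P u * slk (u - t)) (kd (O i)) (ht (O i)) := by
  simp_rw [(slO_int O _).2]
  rw [Fintype.sum_bool, Finset.mul_sum, Finset.mul_sum, ← Finset.sum_add_distrib]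
  refine Finset.sum_congr rfl fun i _ => ?_
  rcases NUO.sp (O i) <;> simp

lemma P_B_int {B : ℝ → ℝ} (hc : Continuous B) {C : ℝ} (hC : ∀ t, |B t| ≤ C) :
    Integrable fun t => P t * B t := int_mul_bc P_int hc hC

/-! ### symmetric energies -/

/-- two sources of charges have a symmetric energy -/
theorem sym_ch {α α' q q' q0 q0' : ℝ} {a b A B a' b' A' B' pa pb pa' pb' : ℝ → ℝ} {F G F' G' : ℂ → ℂ}
    (h : NUC43.Chg α q a b A B F G) (h' : NUC43.Chg α' q' a' b' A' B' F' G') (s s' : Bool) (t t' : ℝ) :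
    NUGC.Sym (NUGC.chSr s q0 pa pb F G t) (NUGC.chSr s' q0' pa' pb' F' G' t') := by
  unfold NUGC.Sym
  rw [NUGC.ES_eq_ERc, NUGC.ES_eq_ERc, NUGC.ERc_comm h h', NUGC.ERc_swap h' h]
  congr 1
  cases s <;> cases s' <;> rfl

/-- an object and a source of a charge -/
theorem sym_ob {j e : ℝ} (hj : Adm j e) {α q q0 : ℝ} {a b A B pa pb : ℝ → ℝ} {F G : ℂ → ℂ}
    (h : NUC43.Chg α q a b A B F G) (x : Xo) (s : Bool) (t : ℝ) :
    NUGC.Sym (obSr j e x) (NUGC.chSr s q0 pa pb F G t) := sym_ch (NUC43.chgK hj (kd x)) h _ _ _ _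

end

end NUSea.PLX.H0
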