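import Pool.Agent.PLX.Ns
import Pool.Agent.PLX.NUSea.H0.DatC
import Pool.Agent.PLX.NUSea.H0.RegT
import Pool.Agent.NUH0.DatN

/-!
# The remainder of the data of a configuration with spectators: bounds, local energy; general sea

`φ a = Qr a + dFB a + wO a`, `wO a = Re A(ζ) + B - sg a (log g * τD) - V * ν`.  Copy of `NUH0/DatN` for
the data of `NUSea/H0/DatC`; `exists_nuphi`: the densities `ν` of the spectators against the remainder.
-/

set_option autoImplicit false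
set_option linter.unusedSectionVars false

open MeasureTheory Set Filter Topology

namespace NUSea.PLX.H0

open NUMF NUO NUKer NUAct NUDispP NUDispV NUDispW NUEnW
open NU42 (norm_iD Crv iD_cont)
open NUH0 (sin16 sin16_le Bd_eq Ad_eq sq3 nt_arith exists_mu_w)

noncomputable section

variable [Sea]

/-- its local energy -/
def NW (I : Inp) (T : ℝ) (a : Bool) : ℝ :=
  ∫ t in (-(T + 1))..(T + 1), (wO I a t ^ 2 + deriv (wO I a) t ^ 2)

variable {r : ℕ} {I : Inp} {P : Par} {O : Fin r → Xo} {dl ε M b : ℝ} {e : ℝ → ℝ}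

lemma phiO_eq (a : Bool) (t : ℝ) : phiO I P O a t = Qr I P O a t + dFB P O (I.η a) a t + wO I a t := rfl

/-- the quadratic part is `C^1` -/
theorem exists_Qr : ∃ K : ℝ, 1 ≤ K ∧ ∀ {r : ℕ} {I : Inp} {P : Par} {O : Fin r → Xo}
    {dl ε M b : ℝ} {e : ℝ → ℝ}, IOk dl ε M b e I P r → ∀ a, ContDiff ℝ 1 (Qr I P O a) ∧
      ∀ t, |Qr I P O a t| ≤ K * (M * ε) * Wb b t ∧ |deriv (Qr I P O a) t| ≤ K * (M * ε) * Wb b t := by
  obtain ⟨K, hK, H⟩ := exists_phiQ''
  refine ⟨K, hK, fun {r I P O dl ε M b e} h a => ?_⟩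
  obtain ⟨Q', h1, h2, h3, h4⟩ := H h.s0 h.b0 (h.ε1.trans (by norm_num)) h.cur h.der h.com (FA I P O)
  have e1 : deriv (Qr I P O a) = Q' a := funext fun t => (h2 a t).deriv
  refine ⟨?_, fun t => ⟨h3 a t, ?_⟩⟩
  · rw [contDiff_one_iff_deriv, e1]
    exact ⟨fun t => (h2 a t).differentiableAt, h1 a⟩
  · rw [e1]
    exact h4 a t

namespace IOk

variable (h : IOk dl ε M b e I P r)

include h

lemma dl0 : 0 ≤ dl := by
  have h5 := h.d1 0
  have h6 := h.pg.d0 r
  have h7 := h.pg.r0 r 0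
  have hl := NUMF.l_pos
  have hε := h.eps0
  have : 0 ≤ P.rad r 0 / NUMF.l := by positivity
  have : 0 ≤ ε / NUMF.l := by positivity
  linarith

theorem Qr_C1 (a : Bool) : ContDiff ℝ 1 (Qr I P O a) := by
  obtain ⟨K, hK, H⟩ := exists_Qr
  exact (H h a).1

theorem wO_C1 (a : Bool) : ContDiff ℝ 1 (wO I a) := h.wc a

/-- **regularity of the data** -/
theorem reg' : Reg (datO I P O) := h.reg fun a => h.Qr_C1 a

end IOk

/-- **size of the remainder** -/
theorem exists_phi_le : ∃ K : ℝ, 1 ≤ K ∧ ∀ {r : ℕ} {I : Inp} {P : Par} {O : Fin r → Xo}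
    {dl ε M b : ℝ} {e : ℝ → ℝ}, IOk dl ε M b e I P r → ∀ a t,
      |phiO I P O a t| ≤ K * (M * ε + dl * r + ∑ i, rr P O i) + |wO I a t| := by
  obtain ⟨K, hK, H⟩ := exists_Qr
  have hs := sin16
  have hW := Wm_nonneg
  obtain ⟨K1, hK1⟩ : ∃ K1 : ℝ, K1 = 400 / Real.sin (1 / 16 * NUMF.l) ^ 4 := ⟨_, rfl⟩
  obtain ⟨K2, hK2⟩ : ∃ K2 : ℝ, K2 = 6 / Real.sin (1 / 16 * NUMF.l) ^ 2 := ⟨_, rfl⟩
  have p1 : 0 < K1 := by rw [hK1]; positivity
  have p2 : 0 < K2 := by rw [hK2]; positivity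
  refine ⟨1 + K * Wm + K1 + K2, by
    have : 0 ≤ K * Wm := by positivity
    linarith, fun {r I P O dl ε M b e} h a t => ?_⟩
  obtain ⟨F', f1, f2, f3, f4⟩ := h.exists_dFB (O := O) a
  have q := ((H (O := O) h a).2 t).1
  have hM := h.M0
  have hε := h.eps0
  have hd := h.dl0
  have hr : 0 ≤ ∑ i, rr P O i := Finset.sum_nonneg fun i _ => (h.rr1 i).1
  have b2 : bmaj Finset.univ (fun i => ht (O i)) 2 t ≤ r := by
    refine (bmaj_le_card (by norm_num) _ _ _).trans (by simp)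
  have b3 := f3 t
  rw [Bd_eq, Ad_eq, ← hK1, ← hK2] at b3
  have b4 : K1 * dl * bmaj Finset.univ (fun i => ht (O i)) 2 t ≤ K1 * dl * r := by gcongr
  have b5 : K * (M * ε) * Wb b t ≤ K * (M * ε) * Wm :=
    mul_le_mul_of_nonneg_left (Wb_le b t) (by positivity)
  rw [phiO_eq]
  refine (abs_add_three _ _ _).trans ?_
  have n1 : 0 ≤ M * ε := by positivity
  have n2 : 0 ≤ dl * r := by positivity
  have n3 : 0 ≤ K * Wm := by positivity
  nlinarith [mul_nonneg n3 n1, mul_nonneg n3 n2, mul_nonneg n3 hr, mul_nonneg p1.le n1,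
    mul_nonneg p1.le n2, mul_nonneg p1.le hr, mul_nonneg p2.le n1, mul_nonneg p2.le n2,
    mul_nonneg p2.le hr]

/-! ### the local energy -/

/-- **local energy of the remainder** -/
theorem exists_NT : ∃ K : ℝ, 1 ≤ K ∧ ∀ {r : ℕ} {I : Inp} {P : Par} {O : Fin r → Xo}
    {dl ε M b : ℝ} {e : ℝ → ℝ}, IOk dl ε M b e I P r → ∀ (T : ℝ), 0 ≤ T → ∀ a,
      Nl (datO I P O) T a ≤ K * ((M * ε) ^ 2 * b + dl ^ 2 * win Finset.univ (fun i => ht (O i)) +
        (∑ i, rr P O i) ^ 2 * (T + 1)) + 3 * NW I T a := by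
  obtain ⟨K, hK, H⟩ := exists_Qr
  have hs := sin16
  have hW := Wm_nonneg
  obtain ⟨K1, hK1⟩ : ∃ K1 : ℝ, K1 = 400 / Real.sin (1 / 16 * NUMF.l) ^ 4 := ⟨_, rfl⟩
  obtain ⟨K2, hK2⟩ : ∃ K2 : ℝ, K2 = 6 / Real.sin (1 / 16 * NUMF.l) ^ 2 := ⟨_, rfl⟩
  have p1 : 0 < K1 := by rw [hK1]; positivity
  have p2 : 0 < K2 := by rw [hK2]; positivity
  have hKc := Kc_pos (c := 2) (by norm_num)
  refine ⟨1 + 12 * K ^ 2 * Wm ^ 2 + 18 * K1 ^ 2 * Kc 2 + 12 * K2 ^ 2, by
    have : 0 ≤ 12 * K ^ 2 * Wm ^ 2 + 18 * K1 ^ 2 * Kc 2 + 12 * K2 ^ 2 := by positivity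
    linarith, fun {r I P O dl ε M b e} h T hT a => ?_⟩
  obtain ⟨F', f1, f2, f3, f4⟩ := h.exists_dFB (O := O) a
  obtain ⟨hQc, hQ⟩ := H (O := O) h a
  have hM := h.M0
  have hε := h.eps0
  have hd := h.dl0
  have hb := h.b0
  have hr : 0 ≤ ∑ i, rr P O i := Finset.sum_nonneg fun i _ => (h.rr1 i).1
  have hw := win_nonneg (Finset.univ : Finset (Fin r)) fun i => ht (O i)
  have hwc := h.wO_C1 a
  have hφc := h.phi_C1 (O := O) (fun a => h.Qr_C1 a) a
  set β : ℝ → ℝ := fun t => bmaj Finset.univ (fun i => ht (O i)) 2 t with hβ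
  set S : ℝ := ∑ i, rr P O i with hS
  -- the derivative of the remainder
  have hder : ∀ t, deriv (phiO I P O a) t = deriv (Qr I P O a) t + F' t + deriv (wO I a) t := by
    intro t
    have e1 : phiO I P O a = fun t => Qr I P O a t + dFB P O (I.η a) a t + wO I a t :=
      funext fun t => phiO_eq a t
    rw [e1]
    exact ((((hQc.differentiable (by norm_num)) t).hasDerivAt.add (f1 t)).add
      ((hwc.differentiable (by norm_num)) t).hasDerivAt).deriv
  -- pointwise bound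
  have hpt : ∀ t, phiO I P O a t ^ 2 + deriv (phiO I P O a) t ^ 2 ≤
      3 * (2 * (K ^ 2 * (M * ε) ^ 2) * Wb b t ^ 2 + 6 * (K1 * dl) ^ 2 * β t ^ 2 +
        2 * (K2 * S) ^ 2 + (wO I a t ^ 2 + deriv (wO I a) t ^ 2)) := by
    intro t
    have g1 := f3 t
    have g2 := f4 t
    rw [Bd_eq, Ad_eq, ← hK1, ← hK2] at g1
    rw [Bd_eq, ← hK1] at g2
    have g3 := hQ t
    have hβ0 : 0 ≤ β t := bmaj_nonneg _ _ _ _
    have hWb := Wb_nonneg b t
    have a1 : Qr I P O a t ^ 2 ≤ K ^ 2 * (M * ε) ^ 2 * Wb b t ^ 2 := by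
      rw [← sq_abs]
      calc |Qr I P O a t| ^ 2 ≤ (K * (M * ε) * Wb b t) ^ 2 := by gcongr; exact g3.1
        _ = _ := by ring
    have a2 : deriv (Qr I P O a) t ^ 2 ≤ K ^ 2 * (M * ε) ^ 2 * Wb b t ^ 2 := by
      rw [← sq_abs]
      calc |deriv (Qr I P O a) t| ^ 2 ≤ (K * (M * ε) * Wb b t) ^ 2 := by gcongr; exact g3.2
        _ = _ := by ring
    have a3 : dFB P O (I.η a) a t ^ 2 ≤ 2 * (K1 * dl) ^ 2 * β t ^ 2 + 2 * (K2 * S) ^ 2 := by
      rw [← sq_abs]
      calc |dFB P O (I.η a) a t| ^ 2 ≤ (K1 * dl * β t + K2 * S) ^ 2 := by gcongr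
        _ ≤ _ := by nlinarith [sq_nonneg (K1 * dl * β t - K2 * S)]
    have a4 : F' t ^ 2 ≤ 4 * (K1 * dl) ^ 2 * β t ^ 2 := by
      rw [← sq_abs]
      calc |F' t| ^ 2 ≤ (2 * (K1 * dl) * β t) ^ 2 := by gcongr
        _ = _ := by ring
    rw [hder, phiO_eq]
    have b1 := sq3 (Qr I P O a t) (dFB P O (I.η a) a t) (wO I a t)
    have b2 := sq3 (deriv (Qr I P O a) t) (F' t) (deriv (wO I a) t)
    linarith
  -- integration
  have hle : -(T + 1) ≤ T + 1 := by linarith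
  have cβ : Continuous β := bmaj_cont _ _ _
  have iWb : Integrable (fun t => Wb b t ^ 2) ∧ ∫ t, Wb b t ^ 2 ≤ 2 * Wm ^ 2 * b := by
    obtain ⟨i1, e1⟩ := Wb_int hb
    have h1 : ∀ t, Wb b t ^ 2 ≤ Wm * Wb b t := fun t => by
      have h3 := Wb_le b t
      have h4 := Wb_nonneg b t
      nlinarith
    have i2 : Integrable fun t => Wb b t ^ 2 := by
      refine (i1.const_mul Wm).mono' (i1.aestronglyMeasurable.pow 2) (ae_of_all _ fun t => ?_)
      rw [Real.norm_eq_abs, abs_of_nonneg (sq_nonneg _)]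
      exact h1 t
    refine ⟨i2, (integral_mono i2 (i1.const_mul Wm) h1).trans (le_of_eq ?_)⟩
    rw [integral_const_mul, e1]
    ring
  have iβ := bmaj_sq_int (c := 2) (by norm_num) (Finset.univ : Finset (Fin r)) fun i => ht (O i)
  have iβ' := sq_int' (c := 2) (by norm_num) (Finset.univ : Finset (Fin r)) fun i => ht (O i)
  have cw : Continuous fun t => wO I a t ^ 2 + deriv (wO I a) t ^ 2 :=
    (hwc.continuous.pow 2).add ((hwc.continuous_deriv le_rfl).pow 2)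
  have j1 : IntervalIntegrable (fun t => 2 * (K ^ 2 * (M * ε) ^ 2) * Wb b t ^ 2) volume
      (-(T + 1)) (T + 1) := (iWb.1.const_mul _).intervalIntegrable
  have j2 : IntervalIntegrable (fun t => 6 * (K1 * dl) ^ 2 * β t ^ 2) volume
      (-(T + 1)) (T + 1) := (continuous_const.mul (cβ.pow 2)).intervalIntegrable _ _
  have j3 : IntervalIntegrable (fun _ : ℝ => 2 * (K2 * S) ^ 2) volume (-(T + 1)) (T + 1) :=
    intervalIntegrable_const
  have j4 : IntervalIntegrable (fun t => wO I a t ^ 2 + deriv (wO I a) t ^ 2) volume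
      (-(T + 1)) (T + 1) := cw.intervalIntegrable _ _
  have cφ : Continuous fun t => phiO I P O a t ^ 2 + deriv (phiO I P O a) t ^ 2 :=
    (hφc.continuous.pow 2).add ((hφc.continuous_deriv le_rfl).pow 2)
  have k1 : ∫ t in (-(T + 1))..(T + 1), 2 * (K ^ 2 * (M * ε) ^ 2) * Wb b t ^ 2 ≤
      2 * (K ^ 2 * (M * ε) ^ 2) * (2 * Wm ^ 2 * b) := by
    rw [intervalIntegral.integral_const_mul, intervalIntegral.integral_of_le hle]
    refine mul_le_mul_of_nonneg_left ?_ (by positivity)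
    exact (setIntegral_le_integral iWb.1 (ae_of_all _ fun t => sq_nonneg _)).trans iWb.2
  have k2 : ∫ t in (-(T + 1))..(T + 1), 6 * (K1 * dl) ^ 2 * β t ^ 2 ≤
      6 * (K1 * dl) ^ 2 * (Kc 2 * win Finset.univ fun i => ht (O i)) := by
    rw [intervalIntegral.integral_const_mul, intervalIntegral.integral_of_le hle]
    refine mul_le_mul_of_nonneg_left ?_ (by positivity)
    exact (setIntegral_le_integral iβ.1 (ae_of_all _ fun t => sq_nonneg _)).trans iβ'
  have k3 : ∫ _ in (-(T + 1))..(T + 1), 2 * (K2 * S) ^ 2 = 2 * (K2 * S) ^ 2 * (2 * (T + 1)) := by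
    rw [intervalIntegral.integral_const, smul_eq_mul]
    ring
  have e0 : Nl (datO I P O) T a =
      ∫ t in (-(T + 1))..(T + 1), (phiO I P O a t ^ 2 + deriv (phiO I P O a) t ^ 2) := rfl
  rw [e0]
  refine (intervalIntegral.integral_mono_on hle (cφ.intervalIntegrable _ _)
    ((((j1.add j2).add j3).add j4).const_mul 3) fun t _ => hpt t).trans ?_
  rw [intervalIntegral.integral_const_mul, intervalIntegral.integral_add ((j1.add j2).add j3) j4,
    intervalIntegral.integral_add (j1.add j2) j3, intervalIntegral.integral_add j1 j2, k3]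
  have e5 : ∫ t in (-(T + 1))..(T + 1), (wO I a t ^ 2 + deriv (wO I a) t ^ 2) = NW I T a := rfl
  rw [e5]
  refine le_trans ?_ (nt_arith (K := K) (Wm := Wm) (K1 := K1) (K2 := K2) (q := M * ε) (d := dl)
    (r := S) (N := NW I T a) hKc.le hb hw hT)
  linarith

/-! ### the linear term -/

/-- **the linear term of the remainder** -/
theorem exists_muphi {j0 e0 : ℝ} (hj : NUC43.Adm j0 e0) : ∃ K : ℝ, 1 ≤ K ∧ ∀ {r : ℕ} {I : Inp} {P : Par}
    {O : Fin r → Xo} {dl ε M b : ℝ} {e : ℝ → ℝ}, P.jL = j0 → P.e = e0 → IOk dl ε M b e I P r → ∀ a,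
      ∀ W : ℝ, (∀ t, |wO I a t| ≤ W) →
      Integrable (fun t => NUC43.muC P.jL P.e O a t * phiO I P O a t) ∧
      |∫ t, NUC43.muC P.jL P.e O a t * phiO I P O a t| ≤
        K * (r * (M * ε + (∑ i, rr P O i) + W) + dl * win Finset.univ (fun i => ht (O i))) := by
  obtain ⟨K, hK, H⟩ := exists_Qr
  obtain ⟨K3, hK3, H3⟩ := exists_mu_w hj
  obtain ⟨Mm, hMm, Hm⟩ := NUC43.muC_bd hj
  have hs := sin16
  have hW := Wm_nonneg
  obtain ⟨K1, hK1⟩ : ∃ K1 : ℝ, K1 = 400 / Real.sin (1 / 16 * NUMF.l) ^ 4 := ⟨_, rfl⟩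
  obtain ⟨K2, hK2⟩ : ∃ K2 : ℝ, K2 = 6 / Real.sin (1 / 16 * NUMF.l) ^ 2 := ⟨_, rfl⟩
  have p1 : 0 < K1 := by rw [hK1]; positivity
  have p2 : 0 < K2 := by rw [hK2]; positivity
  have hKc := Kc_pos (c := 2) (by norm_num)
  have hKm := Kc_pos (c := min (5 / 2) 2) (by norm_num)
  refine ⟨1 + K3 * (K * Wm) + K3 * K2 + K3 + Mm * K1 * Kc (min (5 / 2) 2), by
    have : 0 ≤ K3 * (K * Wm) + K3 * K2 + K3 + Mm * K1 * Kc (min (5 / 2) 2) := by positivity
    linarith, fun {r I P O dl ε M b e} hP1 hP2 h a W hwb => ?_⟩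
  subst hP1 hP2
  obtain ⟨F', f1, f2, f3, f4⟩ := h.exists_dFB (O := O) a
  obtain ⟨hQc, hQ⟩ := H (O := O) h a
  have hM := h.M0
  have hε := h.eps0
  have hd := h.dl0
  have hr : 0 ≤ ∑ i, rr P O i := Finset.sum_nonneg fun i _ => (h.rr1 i).1
  have hw := win_nonneg (Finset.univ : Finset (Fin r)) fun i => ht (O i)
  have hWW : 0 ≤ W := (abs_nonneg _).trans (hwb 0)
  have hdn := NUC43.dn_muC hj O a
  have hμ : ∀ t, |NUC43.muC P.jL P.e O a t| ≤ Mm * bmaj Finset.univ (fun i => ht (O i)) (5 / 2) t := by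
    intro t
    refine ((Hm (Fin r) O a t).1).trans_eq ?_
    unfold bmaj
    congr 1
    exact Finset.sum_congr rfl fun i _ => by ring_nf
  -- the field is cut in a localised and a bounded part
  set β : ℝ → ℝ := fun t => bmaj Finset.univ (fun i => ht (O i)) 2 t with hβ
  set S : ℝ := ∑ i, rr P O i with hS
  have cβ : Continuous β := bmaj_cont _ _ _
  have hβ0 : ∀ t, 0 ≤ β t := fun t => bmaj_nonneg _ _ _ _
  have cF : Continuous (dFB P O (I.η a) a) := continuous_iff_continuousAt.2 fun t => (f1 t).continuousAt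
  set F1 : ℝ → ℝ := fun t => max (-(K1 * dl * β t)) (min (dFB P O (I.η a) a t) (K1 * dl * β t)) with hF1
  have cF1 : Continuous F1 := by
    rw [hF1]
    exact ((continuous_const.mul cβ).neg).max (cF.min (continuous_const.mul cβ))
  have hkβ : ∀ t, 0 ≤ K1 * dl * β t := fun t => mul_nonneg (mul_nonneg p1.le hd) (hβ0 t)
  have b1 : ∀ t, |F1 t| ≤ K1 * dl * β t := by
    intro t
    have := hkβ t
    rw [abs_le]
    exact ⟨le_max_left _ _, max_le (by linarith) (min_le_right _ _)⟩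
  have b2 : ∀ t, |dFB P O (I.η a) a t - F1 t| ≤ K2 * S := by
    intro t
    have g1 := f3 t
    rw [Bd_eq, Ad_eq, ← hK1, ← hK2] at g1
    have g2 : |dFB P O (I.η a) a t| ≤ K1 * dl * β t + K2 * S := g1
    have g3 := hkβ t
    have g4 : 0 ≤ K2 * S := mul_nonneg p2.le hr
    rw [abs_le] at g2 ⊢
    rw [hF1]
    simp only
    rcases le_total (dFB P O (I.η a) a t) (K1 * dl * β t) with q1 | q1
    · rw [min_eq_left q1]
      rcases le_total (-(K1 * dl * β t)) (dFB P O (I.η a) a t) with q2 | q2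
      · rw [max_eq_right q2]
        constructor <;> linarith
      · rw [max_eq_left q2]
        constructor <;> linarith [g2.1]
    · rw [min_eq_right q1, max_eq_right (by linarith)]
      constructor <;> linarith [g2.2]
  obtain ⟨i1, i2⟩ := mul_int (s := Finset.univ) (τ := fun i => ht (O i)) (c := 5 / 2) (d := 2)
    (A := Mm) (B := K1 * dl) (by norm_num) (by norm_num) hMm (mul_nonneg p1.le hd)
    hdn.cont.aestronglyMeasurable cF1.aestronglyMeasurable hμ b1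
  -- the bounded part
  have cw := (h.wO_C1 a).continuous
  have b3 : ∀ t, |Qr I P O a t + (dFB P O (I.η a) a t - F1 t) + wO I a t| ≤
      K * (M * ε) * Wm + K2 * S + W := by
    intro t
    have q1 : |Qr I P O a t| ≤ K * (M * ε) * Wm :=
      ((hQ t).1).trans (mul_le_mul_of_nonneg_left (Wb_le b t) (by positivity))
    exact (abs_add_three _ _ _).trans (add_le_add (add_le_add q1 (b2 t)) (hwb t))
  obtain ⟨i3, i4⟩ := H3 (O := O) (w := fun t => Qr I P O a t + (dFB P O (I.η a) a t - F1 t) + wO I a t) a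
    ((hQc.continuous.add (cF.sub cF1)).add cw) b3
  have e1 : ∀ t, NUC43.muC P.jL P.e O a t * phiO I P O a t = NUC43.muC P.jL P.e O a t * F1 t +
      NUC43.muC P.jL P.e O a t * (Qr I P O a t + (dFB P O (I.η a) a t - F1 t) + wO I a t) := by
    intro t
    rw [phiO_eq]
    ring
  have e2 : (fun t => NUC43.muC P.jL P.e O a t * phiO I P O a t) = fun t =>
      NUC43.muC P.jL P.e O a t * F1 t +
      NUC43.muC P.jL P.e O a t * (Qr I P O a t + (dFB P O (I.η a) a t - F1 t) + wO I a t) := funext e1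
  rw [e2]
  refine ⟨i1.add i3, ?_⟩
  rw [integral_add i1 i3]
  refine (abs_add_le _ _).trans ?_
  have k1 : |∫ t, NUC43.muC P.jL P.e O a t * F1 t| ≤
      Mm * (K1 * dl) * Kc (min (5 / 2) 2) * win Finset.univ fun i => ht (O i) :=
    abs_integral_le_integral_abs.trans i2
  refine (add_le_add k1 i4).trans ?_
  set w0 : ℝ := win Finset.univ fun i => ht (O i) with hw0
  have r0 : (0 : ℝ) ≤ r := Nat.cast_nonneg r
  obtain ⟨X, hX⟩ : ∃ X : ℝ, X = K3 * (K * Wm) + K3 * K2 + K3 := ⟨_, rfl⟩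
  obtain ⟨Y, hY⟩ : ∃ Y : ℝ, Y = Mm * K1 * Kc (min (5 / 2) 2) := ⟨_, rfl⟩
  have x0 : 0 ≤ X := by rw [hX]; positivity
  have y0 : 0 ≤ Y := by rw [hY]; positivity
  have s1 : K3 * r * (K * (M * ε) * Wm + K2 * S + W) ≤ X * (r * (M * ε + S + W)) := by
    have z1 : 0 ≤ K * Wm := by positivity
    have z2 : 0 ≤ M * ε := by positivity
    have z3 : K * (M * ε) * Wm + K2 * S + W ≤ (K * Wm + K2 + 1) * (M * ε + S + W) := by
      nlinarith [mul_nonneg z1 hr, mul_nonneg z1 hWW, mul_nonneg p2.le z2, mul_nonneg p2.le hWW]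
    calc K3 * r * (K * (M * ε) * Wm + K2 * S + W) ≤
        K3 * r * ((K * Wm + K2 + 1) * (M * ε + S + W)) := mul_le_mul_of_nonneg_left z3 (by positivity)
      _ = X * (r * (M * ε + S + W)) := by rw [hX]; ring
  have s2 : Mm * (K1 * dl) * Kc (min (5 / 2) 2) * w0 = Y * (dl * w0) := by rw [hY]; ring
  rw [s2]
  have z4 : 0 ≤ (r : ℝ) * (M * ε + S + W) := by positivity
  have z5 : 0 ≤ dl * w0 := by positivity
  have e9 : 1 + K3 * (K * Wm) + K3 * K2 + K3 + Mm * K1 * Kc (min (5 / 2) 2) = 1 + X + Y := by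
    rw [hX, hY]; ring
  rw [e9]
  nlinarith [mul_nonneg x0 z5, mul_nonneg y0 z4]

/-- the densities of the spectators against the remainder -/
theorem exists_nuphi : ∃ K : ℝ, 1 ≤ K ∧ ∀ {r : ℕ} {I : Inp} {P : Par}
    {O : Fin r → Xo} {dl ε M b : ℝ} {e : ℝ → ℝ}, IOk dl ε M b e I P r → ∀ a,
      ∀ W : ℝ, (∀ t, |wO I a t| ≤ W) →
      Integrable (fun t => I.ν a t * phiO I P O a t) ∧
      |∫ t, I.ν a t * phiO I P O a t| ≤
        (∫ t, |I.ν a t|) * (K * (M * ε + dl * r + ∑ i, rr P O i) + W) := by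
  obtain ⟨K, hK, H⟩ := exists_phi_le
  refine ⟨K, hK, fun {r I P O dl ε M b e} h a W hW => ?_⟩
  have hc := (h.phi_C1 (O := O) (fun a => h.Qr_C1 a) a).continuous
  have hb : ∀ t, |phiO I P O a t| ≤ K * (M * ε + dl * r + ∑ i, rr P O i) + W := fun t =>
    (H h a t).trans (add_le_add le_rfl (hW t))
  have i1 := int_mul_bc (h.νi a) hc hb
  refine ⟨i1, ?_⟩
  refine abs_integral_le_integral_abs.trans ?_
  rw [← integral_mul_const]
  refine integral_mono i1.abs ((h.νi a).abs.mul_const _) fun t => ?_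
  simp only
  rw [abs_mul]
  exact mul_le_mul_of_nonneg_left (hb t) (abs_nonneg _)

/-- **the whole linear term** -/
theorem exists_muphi_tot {j0 e0 : ℝ} (hj : NUC43.Adm j0 e0) : ∃ K : ℝ, 1 ≤ K ∧ ∀ {r : ℕ} {I : Inp} {P : Par}
    {O : Fin r → Xo} {dl ε M b : ℝ} {e : ℝ → ℝ}, P.jL = j0 → P.e = e0 → IOk dl ε M b e I P r → ∀ a,
      ∀ W : ℝ, (∀ t, |wO I a t| ≤ W) →
      Integrable (fun t => (datO I P O).μ a t * (datO I P O).φ a t) ∧
      |∫ t, (datO I P O).μ a t * (datO I P O).φ a t| ≤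
        K * (r * (M * ε + (∑ i, rr P O i) + W) + dl * win Finset.univ (fun i => ht (O i))) +
        (∫ t, |I.ν a t|) * (K * (M * ε + dl * r + ∑ i, rr P O i) + W) := by
  obtain ⟨K1, hK1, H1⟩ := exists_muphi hj
  obtain ⟨K2, hK2, H2⟩ := exists_nuphi
  refine ⟨max K1 K2, hK1.trans (le_max_left _ _), fun {r I P O dl ε M b e} h1 h2 h a W hW => ?_⟩
  obtain ⟨i1, e1⟩ := H1 (O := O) h1 h2 h a W hW
  obtain ⟨i2, e2⟩ := H2 (O := O) h a W hW
  have hM := h.M0
  have hε := h.eps0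
  have hd := h.dl0
  have hr : 0 ≤ ∑ i, rr P O i := Finset.sum_nonneg fun i _ => (h.rr1 i).1
  have hw := win_nonneg (Finset.univ : Finset (Fin r)) fun i => ht (O i)
  have hWW : 0 ≤ W := (abs_nonneg _).trans (hW 0)
  have hν : 0 ≤ ∫ t, |I.ν a t| := integral_nonneg fun _ => abs_nonneg _
  have e3 : ∀ t, (datO I P O).μ a t * (datO I P O).φ a t =
      NUC43.muC P.jL P.e O a t * phiO I P O a t + I.ν a t * phiO I P O a t := by
    intro t
    show (NUC43.muC P.jL P.e O a t + I.ν a t) * phiO I P O a t = _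
    ring
  simp_rw [e3]
  refine ⟨i1.add i2, ?_⟩
  rw [integral_add i1 i2]
  refine (abs_add_le _ _).trans (add_le_add (e1.trans ?_) (e2.trans ?_))
  · exact mul_le_mul_of_nonneg_right (le_max_left _ _) (by positivity)
  · refine mul_le_mul_of_nonneg_left ?_ hν
    have : K2 * (M * ε + dl * r + ∑ i, rr P O i) ≤ max K1 K2 * (M * ε + dl * r + ∑ i, rr P O i) :=
      mul_le_mul_of_nonneg_right (le_max_right _ _) (by positivity)
    linarith

end

end NUSea.PLX.H0
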