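import Pool.Agent.PLX.Ns
import Pool.Agent.NUC43.CfgS
import Pool.Agent.PLX.NUSea.SEval

/-!
# The constant of the action for a configuration of objects and spectators, two species

`S_cfg`: `NUSea.H0.S_cfg` for two row numbers `s : Bool → ℝ` and two curves with nearly equal currents:

`gas.S = ∑_i (mfo s - 2 π wK h) + ∫ P (s true Re A true + s false Re A false) + bil h' h'
  - ∑_a Re ∫ B_a A_a(ζ_a) + small`, `h = s true P η true`.
-/

set_option autoImplicit false
set_option linter.unusedSectionVars false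

open MeasureTheory Set Filter Topology Complex

namespace NUSea.PLX.H0

noncomputable section

open NUO (Kind Xo kd ht Par PG Off off offs offO fq fg fO FO fO_sum offO_off wnu wK cons potN lpL)
open NUMF (lq lqg)
open NUAct (Ext)

variable [Sea]

variable {δ : ℝ} {Q : Par} {r : ℕ}

/-- the quanta of a list of constituents: species, offset, height -/
def offX (L : List (Bool × Bool × ℂ)) : List (Bool × ℝ × ℝ) :=
  L.flatMap fun x => (offs x).map fun p => (x.1, p)

/-- the quanta of the object `i`: species, offset, height -/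
def offS (Q : Par) {r : ℕ} (O : Fin r → Xo) (i : Fin r) : List (Bool × ℝ × ℝ) := offX (cons Q O i)

lemma offX_map (L : List (Bool × Bool × ℂ)) : (offX L).map Prod.snd = L.flatMap offs := by
  induction L with
  | nil => rfl
  | cons a L ih =>
    unfold offX at ih ⊢
    rw [List.flatMap_cons, List.map_append, ih, List.flatMap_cons, List.map_map]
    congr 1
    exact List.map_id _

lemma offS_map (Q : Par) {r : ℕ} (O : Fin r → Xo) (i : Fin r) :
    (offS Q O i).map Prod.snd = offO Q O i := offX_map _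

lemma offS_mem (h : PG δ Q) (O : Fin r → Xo) (i : Fin r) :
    ∀ p ∈ offS Q O i, Off δ p.2.1 ∧ |p.2.2 - ht (O i)| ≤ 1 := by
  intro p hp
  refine offO_off h O i p.2 ?_
  rw [← offS_map]
  exact List.mem_map_of_mem hp

/-- **the potential of an object on the species `a`, over the quanta** -/
theorem fO_offS (Q : Par) {r : ℕ} (O : Fin r → Xo) (i : Fin r) (a : Bool) (z : ℂ) :
    fO Q O i a z = ((offS Q O i).map fun p =>
      (if a = p.1 then fq p.2.1 else fg p.2.1) (z - p.2.2)).sum := by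
  unfold fO offS offX
  generalize cons Q O i = L
  induction L with
  | nil => simp
  | cons x L ih =>
    rw [List.map_cons, List.sum_cons, List.flatMap_cons, List.map_append, List.sum_append, ← ih,
      NUO.cp_eq, List.map_map]
    rfl

/-- real part of the potential of a quantum on the line -/
lemma quant_re {j : ℝ} (hj : Off δ j) (hδ : 0 < δ) (p : Prop) [Decidable p] (t τ : ℝ) :
    ((if p then fq j else fg j) ((t : ℂ) - τ)).re = if p then lq j (τ - t) else lqg j (τ - t) := by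
  have hl := NUMF.l_pos
  have e0 : ((t : ℂ) - τ).im = 0 := by simp
  have e1 : ((t : ℂ) - τ).re = t - τ := by simp
  split_ifs
  · rw [NUO.fq_re hj (by rw [e0, abs_zero]; positivity), e0, e1, zero_div, sub_zero, ← neg_sub τ t,
      NUO.lq_neg]
  · rw [NUO.fg_re hj (by rw [e0, abs_zero]; positivity), e0, e1, zero_div, sub_zero, ← neg_sub τ t,
      NUO.lqg_neg]

lemma listS_re {L : List (Bool × ℝ × ℝ)} (hδ : 0 < δ) (hL : ∀ p ∈ L, Off δ p.2.1) (a : Bool)
    (t : ℝ) :
    ((L.map fun p => (if a = p.1 then fq p.2.1 else fg p.2.1) ((t : ℂ) - p.2.2)).sum).re =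
      (L.map fun p => if a = p.1 then lq p.2.1 (p.2.2 - t) else lqg p.2.1 (p.2.2 - t)).sum := by
  induction L with
  | nil => simp
  | cons x L ih =>
    rw [List.map_cons, List.sum_cons, List.map_cons, List.sum_cons, Complex.add_re,
      ih fun p hp => hL p (List.mem_cons_of_mem _ hp), quant_re (hL x List.mem_cons_self) hδ]

lemma int_quant (p : Prop) [Decidable p] (j τ : ℝ) :
    Integrable (fun t => P t * if p then lq j (τ - t) else lqg j (τ - t)) ∧
    ∫ t, P t * (if p then lq j (τ - t) else lqg j (τ - t)) = if p then O.cloP j τ else O.cloC j τ := by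
  split_ifs
  · exact ⟨NUSea.O.int_lq j τ, rfl⟩
  · exact ⟨NUSea.O.int_lqg j τ, rfl⟩

lemma listS_int (L : List (Bool × ℝ × ℝ)) (a : Bool) :
    Integrable (fun t => P t * (L.map fun p =>
      if a = p.1 then lq p.2.1 (p.2.2 - t) else lqg p.2.1 (p.2.2 - t)).sum) ∧
    ∫ t, P t * (L.map fun p =>
      if a = p.1 then lq p.2.1 (p.2.2 - t) else lqg p.2.1 (p.2.2 - t)).sum =
      (L.map fun p => if a = p.1 then O.cloP p.2.1 p.2.2 else O.cloC p.2.1 p.2.2).sum := by
  induction L with
  | nil => simp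
  | cons x L ih =>
    obtain ⟨i1, e1⟩ := ih
    obtain ⟨j1, j2⟩ := int_quant (a = x.1) x.2.1 x.2.2
    have e : ∀ t, P t * ((x :: L).map fun p =>
        if a = p.1 then lq p.2.1 (p.2.2 - t) else lqg p.2.1 (p.2.2 - t)).sum =
        P t * (if a = x.1 then lq x.2.1 (x.2.2 - t) else lqg x.2.1 (x.2.2 - t)) +
          P t * (L.map fun p => if a = p.1 then lq p.2.1 (p.2.2 - t) else lqg p.2.1 (p.2.2 - t)).sum := by
      intro t
      rw [List.map_cons, List.sum_cons]
      ring
    simp_rw [e]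
    refine ⟨j1.add i1, ?_⟩
    rw [integral_add j1 i1, e1, j2, List.map_cons, List.sum_cons]

/-- the logarithm of the factors of a configuration -/
lemma log_potN (h : PG δ Q) (O' : Fin r → Xo) (i : Fin r) (a : Bool) (t : ℝ) :
    Real.log (NUO.ppN [(a, false, NUP1.vl NUP1.l t)] (cons Q O' i)) =
      ((offS Q O' i).map fun p => if a = p.1 then lq p.2.1 (p.2.2 - t) else lqg p.2.1 (p.2.2 - t)).sum := by
  have hl := NUMF.l_pos
  have h0 : |((t : ℝ) : ℂ).im| < δ * NUMF.l := by
    rw [Complex.ofReal_im, abs_zero]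
    exact mul_pos h.δ0 hl
  have e1 : NUP1.vl NUP1.l t = (NUMF.l : ℂ) + I * ((t : ℝ) : ℂ) := by
    unfold NUP1.vl
    rw [NUO.l_eq]
    ring
  have h1 := NUO.exp_fO h O' i a h0
  rw [← e1] at h1
  rw [show NUO.ppN [(a, false, NUP1.vl NUP1.l t)] (cons Q O' i) =
    potN Q O' i a (NUP1.vl NUP1.l t) from rfl, h1, Real.log_exp, fO_offS]
  exact listS_re h.δ0 (fun p hp => (offS_mem h O' i p hp).1) a t

/-- **the interaction with the clouds, over the quanta** -/
theorem mfoS_eq (s : Bool → ℝ) (h : PG δ Q) (O' : Fin r → Xo) (i : Fin r) :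
    O.mfo s (cons Q O' i) = ((offS Q O' i).map fun p => O.clo s p.1 p.2.1 p.2.2).sum := by
  have e1 : ∀ t, P t * O.lpS s (cons Q O' i) (NUP1.vl NUP1.l t) =
      s true * (P t * ((offS Q O' i).map fun p =>
        if true = p.1 then lq p.2.1 (p.2.2 - t) else lqg p.2.1 (p.2.2 - t)).sum) +
      s false * (P t * ((offS Q O' i).map fun p =>
        if false = p.1 then lq p.2.1 (p.2.2 - t) else lqg p.2.1 (p.2.2 - t)).sum) := by
    intro t
    unfold O.lpS
    rw [log_potN h, log_potN h]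
    ring
  obtain ⟨i1, v1⟩ := listS_int (offS Q O' i) true
  obtain ⟨i2, v2⟩ := listS_int (offS Q O' i) false
  unfold O.mfo
  simp_rw [e1]
  rw [integral_add (i1.const_mul _) (i2.const_mul _), integral_const_mul, integral_const_mul, v1, v2]
  generalize offS Q O' i = L
  induction L with
  | nil => simp
  | cons x L ih =>
    rw [List.map_cons, List.sum_cons, List.map_cons, List.sum_cons, List.map_cons, List.sum_cons, ← ih]
    obtain ⟨σ, j, τ⟩ := x
    unfold O.clo
    cases σ <;> simp <;> ring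

lemma sum_idxS (O' : Fin r → Xo) {M : Type*} [AddCommMonoid M] (f : Bool × ℝ × ℝ → M) :
    ∑ c : (Σ i : Fin r, Fin (offS Q O' i).length), f ((offS Q O' c.1)[c.2.1]) =
      ∑ i, ((offS Q O' i).map f).sum := by
  rw [Fintype.sum_sigma]
  refine Finset.sum_congr rfl fun i _ => ?_
  exact Fin.sum_univ_fun_getElem (offS Q O' i) f

/-- **The constant of the action of a configuration.** -/
theorem S_cfg {δ : ℝ} (hδ : 0 < δ) (hδ1 : δ ≤ 2 / 7) : ∃ C : ℝ, 1 ≤ C ∧
    ∀ (s : Bool → ℝ) (ε M b K : ℝ) (e : ℝ → ℝ) (η η1 : Bool → ℝ → ℝ) (Q : Par) (r : ℕ)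
      (O' : Fin r → Xo) (A : Bool → ℂ → ℂ),
      PG δ Q → (∀ a, 0 ≤ s a) → (∀ a, Cur (s a) ε M b e (η a)) →
      (∀ a t, HasDerivAt (η a) (η1 a t) t) → Com M s e η η1 → 0 ≤ b → C * (b + 1) ^ 7 * ε ≤ 1 →
      0 ≤ K → (∀ t t', |s true * P t * η true t - s true * P t' * η true t'| ≤ K * |t - t'|) →
      (∀ a, Ext (δ * NUMF.l / 2) (A a)) →
      |(gas s η η1 (fun a z => FO Q O' a z + A a z)).S -
        ((∑ i, (O.mfo s (cons Q O' i) -
          2 * Real.pi * (wK (kd (O' i)) * (s true * P (ht (O' i)) * η true (ht (O' i)))))) +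
        (∫ t : ℝ, P t * (s true * (A true t).re + s false * (A false t).re)) +
        NUCR.bil (hd (s true) (η true) (η1 true)) (hd (s true) (η true) (η1 true)) -
        ∑ a, (∫ t, Bf (s a) (NUKer.iD (η a)) (NUKer.iD (η1 a)) t *
          A a (NUAct.zt (NUKer.iD (η a)) t)).re)| ≤
        C * r * (M * ε + K) + C * (b + 1) ^ 9 * M ^ 2 * ε := by
  obtain ⟨C, hC, H⟩ := Ev.main hδ hδ1
  refine ⟨16 * C, by linarith, ?_⟩
  intro s ε M b K e η η1 Q r O' A hQ hs hcur h1 hcom hb hsm hK hKL hA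
  have hl := NUMF.l_pos
  have hε0 := (hcur true).ε0
  have hM0 := (hcur true).M0 (hs true)
  have hsm' : C * (b + 1) ^ 7 * ε ≤ 1 := by
    refine le_trans ?_ hsm
    have : 0 ≤ C * (b + 1) ^ 7 * ε := by positivity
    nlinarith
  have hdl : 0 < δ * NUMF.l := mul_pos hδ hl
  have hExt : ∀ a, Ext (δ * NUMF.l / 2) (fun z => FO Q O' a z + A a z) := by
    intro a
    have h1 : Ext (δ * NUMF.l / 2) (FO Q O' a) :=
      NUO.ext_FO O' (b := 3 / 4 * (δ * NUMF.l)) (by positivity) (by linarith) hQ a (by linarith)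
    obtain ⟨A1, hA1⟩ := h1.bd
    obtain ⟨A2, hA2⟩ := (hA a).bd
    refine ⟨fun z hz => (h1.diff z hz).add ((hA a).diff z hz), A1 + A2, fun z hz => ?_⟩
    rw [add_mul]
    exact (norm_add_le _ _).trans (add_le_add (hA1 z hz) (hA2 z hz))
  have h2 := H s ε M b K 1 e η η1 (fun a z => FO Q O' a z + A a z) A
    (Σ i : Fin r, Fin (offS Q O' i).length) (fun c => ((offS Q O' c.1)[c.2.1]).1)
    (fun c => ((offS Q O' c.1)[c.2.1]).2.1) (fun c => ((offS Q O' c.1)[c.2.1]).2.2)
    (fun c => ht (O' c.1)) hs hcur h1 hcom hb hsm' hK hKL hExt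
    (fun c => (offS_mem hQ O' c.1 _ (List.getElem_mem c.2.2)).1)
    (fun c => (offS_mem hQ O' c.1 _ (List.getElem_mem c.2.2)).2) (fun a z _ => by
      rw [sum_idxS O' (fun p => (if a = p.1 then fq p.2.1 else fg p.2.1) (z - p.2.2))]
      congr 1
      unfold FO
      exact Finset.sum_congr rfl fun i _ => fO_offS Q O' i a z)
  have s1 : ∑ c : (Σ i : Fin r, Fin (offS Q O' i).length),
      O.clo s ((offS Q O' c.1)[c.2.1]).1 ((offS Q O' c.1)[c.2.1]).2.1
        ((offS Q O' c.1)[c.2.1]).2.2 = ∑ i, O.mfo s (cons Q O' i) := by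
    rw [sum_idxS O' (fun p => O.clo s p.1 p.2.1 p.2.2)]
    exact Finset.sum_congr rfl fun i _ => (mfoS_eq s hQ O' i).symm
  have hw : ∀ (i : Fin r) (f : ℝ → ℝ), ((offS Q O' i).map fun p => f (wnu p.2.1)).sum =
      ((offO Q O' i).map fun p => f (wnu p.1)).sum := by
    intro i f
    rw [← offS_map, List.map_map]
    rfl
  have s2 : ∑ c : (Σ i : Fin r, Fin (offS Q O' i).length),
      wnu ((offS Q O' c.1)[c.2.1]).2.1 * (s true * P (ht (O' c.1)) * η true (ht (O' c.1))) =
      ∑ i, wK (kd (O' i)) * (s true * P (ht (O' i)) * η true (ht (O' i))) := by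
    rw [Fintype.sum_sigma]
    refine Finset.sum_congr rfl fun i _ => ?_
    simp only
    rw [← Finset.sum_mul, Fin.sum_univ_fun_getElem (offS Q O' i) (fun p => wnu p.2.1),
      hw i (fun x => x), (NUC43.wnu_sum hQ O' i).1]
  have s3 : ∑ c : (Σ i : Fin r, Fin (offS Q O' i).length),
      (1 + |wnu ((offS Q O' c.1)[c.2.1]).2.1|) ≤ 8 * r := by
    rw [sum_idxS O' (fun p => 1 + |wnu p.2.1|)]
    refine (Finset.sum_le_sum fun i _ => (le_of_eq (hw i fun x => 1 + |x|)).trans
      (NUC43.wnu_sum hQ O' i).2).trans (le_of_eq ?_)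
    rw [Finset.sum_const, Finset.card_univ, Fintype.card_fin, nsmul_eq_mul]
    ring
  rw [s1, s2] at h2
  have hG : 0 ≤ M * ε + K * (1 + 1) := by positivity
  rw [Finset.sum_sub_distrib, ← Finset.mul_sum]
  have e3 : ∀ X a c d f g : ℝ, X - (a - c + d + f - g) = X - (a + d - c + f - g) := fun _ _ _ _ _ _ => by
    ring
  rw [e3]
  refine h2.trans ?_
  have t1 : C * (∑ c : (Σ i : Fin r, Fin (offS Q O' i).length),
      (1 + |wnu ((offS Q O' c.1)[c.2.1]).2.1|)) *
      (M * ε + K * (1 + 1)) ≤ C * (8 * r) * (M * ε + K * (1 + 1)) := by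
    gcongr
  have t2 : C * (8 * r) * (M * ε + K * (1 + 1)) ≤ 16 * C * r * (M * ε + K) := by
    have hr : (0:ℝ) ≤ r := Nat.cast_nonneg r
    have : 0 ≤ C * r * (M * ε) := by positivity
    nlinarith
  have t3 : C * (b + 1) ^ 9 * M ^ 2 * ε ≤ 16 * C * (b + 1) ^ 9 * M ^ 2 * ε := by
    have : 0 ≤ C * (b + 1) ^ 9 * M ^ 2 * ε := by positivity
    nlinarith
  linarith

end

end NUSea.PLX.H0
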