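import Pool.Agent.PLX.Ns
import Pool.Agent.PLX.NUSea.OOneB
import Pool.Agent.PLX.NUSea.H0.CfgS
import Pool.Agent.PLX.NUSea.H0.DatNC
import Pool.Agent.PLX.NUSea.H0.DatE0
import Pool.Agent.NUGC.CfgC
import Pool.Agent.NUGC.DrT

/-!
# The exponent `En` of the data of a configuration with spectators, general sea

`X = datO I P O` with `I.ν a = muS T a`, `I.τD = tauS T` for a family `T` of sources (spectators) and
any analytic potentials `I.A`, real potentials `I.B`: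

`En = ∑_i [mfo s + s_(sp i) slk - 2 π wK s P η] + 1/2 ∑∑ ER + ∑_i ∑_d ES(O_i, T_d) + 1/2 ∑∑ ES(T, T)
  + ∑_a ∫ s_a P Re A_a - ∑_a Re ∫ B_a A_a(ζ_a) + ∑_a ∫ s_a P B_a + ∑_a ∫ μ_a φ_a + bil h' h' + small`; the
current `s P η` is that of the species `true`, the currents are nearly equal (`Com`).
-/

set_option autoImplicit false
set_option linter.unusedSectionVars false

open MeasureTheory Set Filter Topology Complex

namespace NUSea.PLX.H0

noncomputable section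

open NUO (Kind Xo kd ht Par PG wK cons lpL slkK)
open NUC43 (slk tauC muC sgX sgY sgT Adm)
open NUH0 (slO slO_bc)
open NUGC (Sr ES muS tauS obSr)
open Pool.Agent.NUM3 (ER)

variable [Sea]

variable {r : ℕ}

/-! ### the exponent -/

/-- **The exponent of a configuration with spectators.** -/
theorem En_cfgC {δ : ℝ} (hδ : 0 < δ) (hδ1 : δ ≤ 2 / 7) : ∃ C : ℝ, 1 ≤ C ∧
    ∀ (ε M b K : ℝ) (e : ℝ → ℝ) (I : Inp) (Q : Par) (r : ℕ) (O' : Fin r → Xo) (κ : Type) [Fintype κ]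
      (T : κ → Sr), PG δ Q → Adm Q.jL Q.e → (∀ a, 0 ≤ I.s a) → (∀ a, Cur (I.s a) ε M b e (I.η a)) →
      (∀ a t, HasDerivAt (I.η a) (I.η1 a t) t) → Com M I.s e I.η I.η1 → 0 ≤ b →
      C * (b + 1) ^ 7 * ε ≤ 1 → 0 ≤ K →
      (∀ t t', |I.s true * P t * I.η true t - I.s true * P t' * I.η true t'| ≤ K * |t - t'|) →
      (∀ a, NUAct.Ext (δ * NUMF.l / 2) (I.A a)) → (∀ a, Integrable fun t => P t * I.B a t) →
      (∀ d, (T d).Ok) → (∀ i d, NUGC.Sym (obSr Q.jL Q.e (O' i)) (T d)) →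
      (∀ a, I.ν a = muS T a) → I.τD = tauS T →
      |(datO I Q O').En - ((∑ i, (O.mfo I.s (cons Q O' i) +
          I.s (NUO.sp (O' i)) * slkK (fun t => ∫ u, P u * slk (u - t)) (kd (O' i)) (ht (O' i)) -
          2 * Real.pi * (wK (kd (O' i)) * (I.s true * P (ht (O' i)) * I.η true (ht (O' i)))))) +
        1 / 2 * (∑ i, ∑ k, ER (sgX Q.jL Q.e) (sgY Q.jL Q.e) (sgT Q.jL Q.e)
          (NUO.sp (O' i) == NUO.sp (O' k)) (kd (O' i)) (kd (O' k)) (ht (O' i)) (ht (O' k))) +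
        (∑ i, ∑ d, ES (obSr Q.jL Q.e (O' i)) (T d)) + 1 / 2 * (∑ d, ∑ d', ES (T d) (T d')) +
        (∫ t : ℝ, P t * (I.s true * (I.A true t).re + I.s false * (I.A false t).re)) -
        (∑ a, (∫ t, Bf (I.s a) (NUKer.iD (I.η a)) (NUKer.iD (I.η1 a)) t *
          I.A a (NUAct.zt (NUKer.iD (I.η a)) t)).re) +
        (∑ a, ∫ t, I.s a * P t * I.B a t) +
        (∑ a, ∫ t, (datO I Q O').μ a t * (datO I Q O').φ a t) +
        NUCR.bil (NUSea.PLX.hd (I.s true) (I.η true) (I.η1 true))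
          (NUSea.PLX.hd (I.s true) (I.η true) (I.η1 true)))| ≤
        C * r * (M * ε + K) + C * (b + 1) ^ 9 * M ^ 2 * ε := by
  obtain ⟨C, hC, H⟩ := S_cfg hδ hδ1
  refine ⟨C, hC, ?_⟩
  intro ε M b K e I Q r O' κ _ T hQ hA hs hcur h1 hcom hb hsm hK hKL hAe hB hT hsy hν hτ
  have h2 := H I.s ε M b K e I.η I.η1 Q r O' I.A hQ hs hcur h1 hcom hb hsm hK hKL hAe
  have hS : (datO I Q O').gas.S = (gas I.s I.η I.η1 (fun a z => NUO.FO Q O' a z + I.A a z)).S := rfl
  have hE := NUGC.cfgM_energy hA O' hT hsy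
  have e1 : (∫ t, (datO I Q O').τ t * (datO I Q O').Gt t) =
      ∫ t, NUGC.tauM Q.jL Q.e O' T t * NUC43.lgp (NUGC.tauM Q.jL Q.e O' T) t := by
    have : (datO I Q O').τ = NUGC.tauM Q.jL Q.e O' T := by
      funext t
      show tauC Q.jL Q.e O' t + I.τD t = _
      rw [hτ]
      rfl
    unfold Dat.Gt NUC43.lgp
    rw [this]
  have e2 : ∀ a, (∫ t, (datO I Q O').μ a t * (datO I Q O').Vm a t) =
      ∫ t, NUGC.muM Q.jL Q.e O' T a t * ∫ u, NUGC.muM Q.jL Q.e O' T a u * NUMF.V (t - u) := by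
    intro a
    have : (datO I Q O').μ a = NUGC.muM Q.jL Q.e O' T a := by
      funext t
      show muC Q.jL Q.e O' a t + I.ν a t = _
      rw [hν]
      rfl
    unfold Dat.Vm
    rw [this]
  have e3 : ∀ a, (∫ t, (datO I Q O').ρ a t * (datO I Q O').E a t) =
      I.s a * (∫ t, P t * slO O' a t) + ∫ t, I.s a * P t * I.B a t := by
    intro a
    have i1 := (slO_int O' a).1.const_mul (I.s a)
    have i2 : Integrable fun t => I.s a * P t * I.B a t :=
      ((hB a).const_mul (I.s a)).congr (Eventually.of_forall fun t => by simp only []; ring)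
    rw [← integral_const_mul, ← integral_add i1 i2]
    congr 1
    funext t
    show I.s a * P t * (slO O' a t + I.B a t) = _
    ring
  have e4 := slO_sum I.s O'
  have hEn : (datO I Q O').En =
      (gas I.s I.η I.η1 (fun a z => NUO.FO Q O' a z + I.A a z)).S +
      (1 / 2 * (∑ i, ∑ k, ER (sgX Q.jL Q.e) (sgY Q.jL Q.e)
      (sgT Q.jL Q.e) (NUO.sp (O' i) == NUO.sp (O' k)) (kd (O' i)) (kd (O' k)) (ht (O' i)) (ht (O' k))) +
      (∑ i, ∑ d, ES (obSr Q.jL Q.e (O' i)) (T d)) + 1 / 2 * (∑ d, ∑ d', ES (T d) (T d'))) +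
      (∑ i, I.s (NUO.sp (O' i)) *
        slkK (fun t => ∫ u, P u * slk (u - t)) (kd (O' i)) (ht (O' i))) +
      (∑ a, ∫ t, I.s a * P t * I.B a t) + ∑ a, ∫ t, (datO I Q O').μ a t * (datO I Q O').φ a t := by
    unfold Dat.En
    rw [hS, e1]
    simp_rw [e2, e3]
    rw [← hE, ← e4, Fintype.sum_bool, Fintype.sum_bool, Fintype.sum_bool, Fintype.sum_bool, Fintype.sum_bool]
    ring
  have e5 : (∑ i, (O.mfo I.s (cons Q O' i) +
      I.s (NUO.sp (O' i)) * slkK (fun t => ∫ u, P u * slk (u - t)) (kd (O' i)) (ht (O' i)) -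
      2 * Real.pi * (wK (kd (O' i)) * (I.s true * P (ht (O' i)) * I.η true (ht (O' i)))))) =
      (∑ i, (O.mfo I.s (cons Q O' i) -
        2 * Real.pi * (wK (kd (O' i)) * (I.s true * P (ht (O' i)) * I.η true (ht (O' i)))))) +
      (∑ i, I.s (NUO.sp (O' i)) *
        slkK (fun t => ∫ u, P u * slk (u - t)) (kd (O' i)) (ht (O' i))) := by
    rw [← Finset.sum_add_distrib]
    exact Finset.sum_congr rfl fun i _ => by ring
  rw [e5, hEn]
  refine le_trans (le_of_eq ?_) h2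
  congr 1
  ring

end

end NUSea.PLX.H0
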