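import Pool.Agent.PLX.Ns
import Pool.Agent.PLX.NUSea.Com
import Pool.Agent.PLX.NUSea.Two
import Pool.Agent.NUSp.Tot
import Pool.Agent.NUO.DispW

/-!
# The current against the spectators, general sea (TARGET-C, G4)

`Ψ` = sum of the potentials of a group of spectators on the two species, neutral: `Ψ = a ± i φ +
O(κ e^{-2|Re z - τ|})` (`NUSp.Asy b κ 0 a φ τ Ψ`), `h = s P η` the current.  Then

`- Re ∫ B Ψ(ζ) = - 2 φ h(τ) + O(κ sup |h'|) + O((|a| + |φ| + κ) b M ε)`.

PLX: `exists_lin`, `exists_lin_sum` for one curve (free `s`); `exists_linS`: each species its curve, the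
currents nearly equal (`Com`), the potentials `F a` of the two species, `F true + F false = ∑ d, Ψ d`.
-/

set_option autoImplicit false
set_option linter.unusedSectionVars false

open MeasureTheory Set Filter Topology Complex

namespace NUSea.PLX.H0

open NUMF (l l_pos)
open NUKer NUAct
open NUSp (Asy)

noncomputable section

variable [Sea]

variable {s ε M b : ℝ} {e η η1 : ℝ → ℝ}

lemma lc_le (h : Cur s ε M b e η) (t : ℝ) : |η t| ≤ e t := by
  have := h.oc.le t
  rwa [iD, norm_mul, Complex.norm_I, mul_one, Complex.norm_real, Real.norm_eq_abs] at this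

lemma lc_out (h : Cur s ε M b e η) {t : ℝ} (ht : b < |t|) : η t = 0 := by
  have := lc_le h t
  rw [h.supp t ht] at this
  exact abs_nonpos_iff.1 this

/-- real integral of `e^{-2|t - τ|}` -/
lemma int_e2 (τ : ℝ) : Integrable (fun t : ℝ => Real.exp (-2 * |t - τ|)) ∧
    ∫ t : ℝ, Real.exp (-2 * |t - τ|) = 1 := by
  have h := NUDispW.int_exp_abs (c := 2) (by norm_num) τ
  have e : (fun t : ℝ => Real.exp (-2 * |t - τ|)) = fun x => Real.exp (-(2 * |x - τ|)) := by
    funext t; ring_nf
  rw [e]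
  exact ⟨h.1, h.2.trans (by norm_num)⟩

/-- a current against a jump -/
lemma jump {h h' : ℝ → ℝ} {b τ : ℝ} (hd : ∀ t, HasDerivAt h (h' t) t) (hc : Continuous h')
    (h0 : ∀ t, b < |t| → h t = 0) (hb : 0 ≤ b) :
    ∫ t, h' t * (if τ ≤ t then (1:ℝ) else -1) = -2 * h τ := by
  obtain ⟨R, hR⟩ : ∃ R : ℝ, R = b + 1 + |τ| := ⟨_, rfl⟩
  have hτ := abs_nonneg τ
  have hτ1 := neg_abs_le τ
  have hτ2 := le_abs_self τ
  have hsup : ∀ t, b < |t| → h' t = 0 := by
    intro t ht
    have hev : h =ᶠ[𝓝 t] fun _ => 0 := by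
      filter_upwards [(continuous_abs.tendsto t).eventually (lt_mem_nhds ht)] with u hu
      exact h0 u hu
    have h1 := (hd t).congr_of_eventuallyEq hev.symm
    exact (hd t).unique ((hasDerivAt_const t (0:ℝ)).congr_of_eventuallyEq hev)
  have hRp : b < |R| := by rw [abs_of_pos (by linarith)]; linarith
  have hRm : b < |-R| := by rw [abs_neg]; exact hRp
  have e0 : ∫ t, h' t * (if τ ≤ t then (1:ℝ) else -1) =
      ∫ t in (-R)..R, h' t * (if τ ≤ t then (1:ℝ) else -1) := by
    rw [intervalIntegral.integral_of_le (by linarith), ← integral_Icc_eq_integral_Ioc]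
    refine (setIntegral_eq_integral_of_forall_compl_eq_zero fun t ht => ?_).symm
    have : b < |t| := by
      by_contra hh
      exact ht (abs_le.1 ((not_lt.1 hh).trans (by linarith)))
    rw [hsup t this, zero_mul]
  have hm : Measurable fun t : ℝ => if τ ≤ t then (1:ℝ) else -1 :=
    Measurable.ite measurableSet_Ici measurable_const measurable_const
  have hii : ∀ x y : ℝ, IntervalIntegrable (fun t => h' t * (if τ ≤ t then (1:ℝ) else -1)) volume x y := by
    intro x y
    have h1 := hc.intervalIntegrable (μ := volume) x y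
    have : IntervalIntegrable (fun t => (if τ ≤ t then (1:ℝ) else -1) * h' t) volume x y := by
      rw [intervalIntegrable_iff] at h1 ⊢
      exact Integrable.bdd_mul (c := 1) h1 hm.aestronglyMeasurable (Eventually.of_forall fun t => by
        split_ifs <;> simp)
    refine this.congr fun t _ => ?_
    exact mul_comm _ _
  rw [e0, ← intervalIntegral.integral_add_adjacent_intervals (hii (-R) τ) (hii τ R)]
  have e1 : ∫ t in (-R)..τ, h' t * (if τ ≤ t then (1:ℝ) else -1) = -(h τ - h (-R)) := by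
    rw [← intervalIntegral.integral_eq_sub_of_hasDerivAt (fun t _ => hd t)
      (hc.intervalIntegrable _ _), ← intervalIntegral.integral_neg]
    refine intervalIntegral.integral_congr_ae ?_
    have hne : ∀ᵐ t : ℝ, t ≠ τ := by
      have : volume ({τ} : Set ℝ) = 0 := by simp
      exact compl_mem_ae_iff.2 this
    filter_upwards [hne] with t ht ht2
    rw [uIoc_of_le (by linarith)] at ht2
    rw [if_neg (not_le.2 (lt_of_le_of_ne ht2.2 ht))]
    ring
  have e2 : ∫ t in τ..R, h' t * (if τ ≤ t then (1:ℝ) else -1) = h R - h τ := by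
    rw [← intervalIntegral.integral_eq_sub_of_hasDerivAt (fun t _ => hd t)
      (hc.intervalIntegrable _ _)]
    refine intervalIntegral.integral_congr fun t ht => ?_
    rw [uIcc_of_le (by linarith)] at ht
    rw [if_pos ht.1, mul_one]
  rw [e1, e2, h0 R hRp, h0 (-R) hRm]
  ring

/-- the function on a path near the line -/
lemma asy_le {B κ a φ τ : ℝ} {Ψ : ℂ → ℂ} (h : Asy B κ 0 a φ τ Ψ) {z : ℂ} (hz : |z.im| < B) :
    |(Ψ z).im - φ * (if τ ≤ z.re then (1:ℝ) else -1)| ≤ κ * Real.exp (-2 * |z.re - τ|) ∧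
    ‖Ψ z‖ ≤ |a| + |φ| + κ := by
  have hk : 0 ≤ κ := by
    by_contra hh
    have h1 := h.ar ((τ : ℂ) + z.im * I) (by simpa using hz) (by simp)
    have h2 := norm_nonneg (Ψ ((τ : ℂ) + z.im * I) - ((0:ℝ) * (((τ : ℂ) + z.im * I) - τ) + a + φ * I))
    have h3 : κ * Real.exp (-2 * |((τ : ℂ) + z.im * I).re - τ|) < 0 :=
      mul_neg_of_neg_of_pos (not_le.1 hh) (Real.exp_pos _)
    linarith
  have hexp : Real.exp (-2 * |z.re - τ|) ≤ 1 := by
    rw [Real.exp_le_one_iff]
    have := abs_nonneg (z.re - τ)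
    linarith
  rcases le_or_gt τ z.re with hτ | hτ
  · have h1 := h.ar z hz hτ
    have e1 : ((0:ℝ) : ℂ) * (z - τ) + a + φ * I = a + φ * I := by simp
    rw [e1] at h1
    constructor
    · rw [if_pos hτ, mul_one]
      refine le_trans ?_ h1
      have e : (Ψ z - (a + φ * I)).im = (Ψ z).im - φ := by simp
      rw [← e]
      exact Complex.abs_im_le_norm _
    · have h2 : ‖(a : ℂ) + φ * I‖ ≤ |a| + |φ| := by
        refine (norm_add_le _ _).trans (le_of_eq ?_)
        rw [norm_mul, Complex.norm_I, mul_one, Complex.norm_real, Complex.norm_real,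
          Real.norm_eq_abs, Real.norm_eq_abs]
      have h3 : ‖Ψ z‖ ≤ ‖Ψ z - (a + φ * I)‖ + ‖(a : ℂ) + φ * I‖ := by
        have := norm_add_le (Ψ z - (a + φ * I)) ((a : ℂ) + φ * I)
        rwa [sub_add_cancel] at this
      have h4 : κ * Real.exp (-2 * |z.re - τ|) ≤ κ := mul_le_of_le_one_right hk hexp
      linarith
  · have h1 := h.al z hz hτ.le
    have e1 : -((0:ℝ) : ℂ) * (z - τ) + a - φ * I = a - φ * I := by simp
    rw [e1] at h1
    constructor
    · rw [if_neg (not_le.2 hτ)]
      refine le_trans ?_ h1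
      have e : (Ψ z - (a - φ * I)).im = (Ψ z).im - φ * -1 := by simp
      rw [← e]
      exact Complex.abs_im_le_norm _
    · have h2 : ‖(a : ℂ) - φ * I‖ ≤ |a| + |φ| := by
        refine (norm_sub_le _ _).trans (le_of_eq ?_)
        rw [norm_mul, Complex.norm_I, mul_one, Complex.norm_real, Complex.norm_real,
          Real.norm_eq_abs, Real.norm_eq_abs]
      have h3 : ‖Ψ z‖ ≤ ‖Ψ z - (a - φ * I)‖ + ‖(a : ℂ) - φ * I‖ := by
        have := norm_add_le (Ψ z - (a - φ * I)) ((a : ℂ) - φ * I)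
        rwa [sub_add_cancel] at this
      have h4 : κ * Real.exp (-2 * |z.re - τ|) ≤ κ := mul_le_of_le_one_right hk hexp
      linarith

/-- **the current against a neutral group of spectators** -/
theorem exists_lin : ∃ C : ℝ, 1 ≤ C ∧ ∀ {s ε M b : ℝ} {e η η1 : ℝ → ℝ}, 0 ≤ s → ε ≤ 1 / 20 →
    Cur s ε M b e η → (∀ t, HasDerivAt η (η1 t) t) → 0 ≤ b →
    ∀ {B κ a φ τ A : ℝ} {Ψ : ℂ → ℂ}, ε < B → Asy B κ 0 a φ τ Ψ →
      (∀ z : ℂ, |z.im| < B → DifferentiableAt ℂ Ψ z) → (∀ t, |hd s η η1 t| ≤ A) →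
      Integrable (fun t => Bf s (iD η) (iD η1) t * Ψ (zt (iD η) t)) ∧
      |-(∫ t, Bf s (iD η) (iD η1) t * Ψ (zt (iD η) t)).re + 2 * φ * (s * P τ * η τ)| ≤
        κ * A + C * (|a| + |φ| + κ) * b * (M * ε) := by
  obtain ⟨C0, hC0, H0⟩ := exists_BB
  refine ⟨2 * C0, by linarith, ?_⟩
  intro s ε M b e η η1 hs hε hcur h1 hb B κ a φ τ A Ψ hεB hΨ hdiff hA
  have hBB := H0 hs hε hcur h1
  have hη : ∀ t, |η t| ≤ ε := fun t => (lc_le hcur t).trans (hcur.le t)
  have him : ∀ t, (zt (iD η) t).im = η t := fun t => by simp [NUAct.zt, iD]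
  have hre : ∀ t, (zt (iD η) t).re = t := fun t => by simp [NUAct.zt, iD]
  have hz : ∀ t, |(zt (iD η) t).im| < B := fun t => by rw [him]; exact (hη t).trans_lt hεB
  have hηc : Continuous η := continuous_iff_continuousAt.2 fun t => (h1 t).continuousAt
  have hzc : Continuous (zt (iD η)) := by
    have : zt (iD η) = fun t : ℝ => (t : ℂ) + (η t : ℂ) * I := by
      funext t
      simp [NUAct.zt, iD]
    rw [this]
    fun_prop
  have hΨc : Continuous fun t => Ψ (zt (iD η) t) :=
    continuous_iff_continuousAt.2 fun t => (hdiff _ (hz t)).continuousAt.comp hzc.continuousAt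
  obtain ⟨N, hN⟩ : ∃ N : ℝ, N = |a| + |φ| + κ := ⟨_, rfl⟩
  have hΨb : ∀ t, ‖Ψ (zt (iD η) t)‖ ≤ N := fun t => by rw [hN]; exact (asy_le hΨ (hz t)).2
  have hN0 : 0 ≤ N := (norm_nonneg _).trans (hΨb 0)
  have hM0 := hcur.M0 hs
  have hε0 := hcur.ε0
  have hMε : 0 ≤ M * ε := mul_nonneg hM0 hε0
  -- compact supports
  have hcs : ∀ {f : ℝ → ℂ}, Continuous f → (∀ t, b < |t| → f t = 0) → Integrable f := by
    intro f hf h0
    refine hf.integrable_of_hasCompactSupport ?_
    refine HasCompactSupport.of_support_subset_isCompact (isCompact_Icc (a := -b) (b := b)) ?_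
    intro t ht
    by_contra hh
    exact ht (h0 t (by
      by_contra h2
      exact hh (abs_le.1 (not_lt.1 h2))))
  have i0 : Integrable (fun t => Bf s (iD η) (iD η1) t * Ψ (zt (iD η) t)) :=
    hcs (hBB.cont.mul hΨc) fun t ht => by rw [hBB.supp t ht, zero_mul]
  have i1 : Integrable (fun t => ((hd s η η1 t : ℂ) * I) * Ψ (zt (iD η) t)) :=
    hcs (((Complex.continuous_ofReal.comp hBB.hc).mul continuous_const).mul hΨc) fun t ht => by
      rw [hBB.hsupp t ht]; simp
  have i2 : Integrable (fun t => Br s (iD η) (iD η1) t * Ψ (zt (iD η) t)) :=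
    hcs (hBB.rc.mul hΨc) fun t ht => by rw [hBB.rsupp t ht, zero_mul]
  refine ⟨i0, ?_⟩
  have e1 : ∫ t, Bf s (iD η) (iD η1) t * Ψ (zt (iD η) t) =
      (∫ t, ((hd s η η1 t : ℂ) * I) * Ψ (zt (iD η) t)) + ∫ t, Br s (iD η) (iD η1) t * Ψ (zt (iD η) t) := by
    rw [← integral_add i1 i2]
    congr 1
    funext t
    rw [B_eq]
    ring
  have e2 : (∫ t, ((hd s η η1 t : ℂ) * I) * Ψ (zt (iD η) t)).re =
      -∫ t, hd s η η1 t * (Ψ (zt (iD η) t)).im := by
    have := integral_re i1
    simp only [RCLike.re_to_complex] at this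
    rw [← this, ← integral_neg]
    congr 1
    funext t
    have : ((hd s η η1 t : ℂ) * I) * Ψ (zt (iD η) t) = (hd s η η1 t : ℂ) * (I * Ψ (zt (iD η) t)) := by
      ring
    rw [this, Complex.re_ofReal_mul, Complex.I_mul_re]
    ring
  -- the rest
  have b2 : |(∫ t, Br s (iD η) (iD η1) t * Ψ (zt (iD η) t)).re| ≤ 2 * C0 * N * b * (M * ε) := by
    refine (Complex.abs_re_le_norm _).trans ?_
    have e3 : ∫ t, Br s (iD η) (iD η1) t * Ψ (zt (iD η) t) =
        ∫ t in Icc (-b) b, Br s (iD η) (iD η1) t * Ψ (zt (iD η) t) := by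
      refine (setIntegral_eq_integral_of_forall_compl_eq_zero fun t ht => ?_).symm
      have : b < |t| := by
        by_contra hh
        exact ht (abs_le.1 (not_lt.1 hh))
      rw [hBB.rsupp t this, zero_mul]
    rw [e3]
    have h5 := norm_setIntegral_le_of_norm_le_const (μ := volume) (s := Icc (-b) b)
      (f := fun t => Br s (iD η) (iD η1) t * Ψ (zt (iD η) t)) (C := C0 * (M * ε) * N)
      (by simp) (fun t _ => by
        rw [norm_mul]
        exact mul_le_mul (hBB.rle t) (hΨb t) (norm_nonneg _) (by positivity))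
    refine h5.trans (le_of_eq ?_)
    rw [Measure.real, Real.volume_Icc, ENNReal.toReal_ofReal (by linarith)]
    ring
  -- the main part
  have hh : ∀ t, b < |t| → s * P t * η t = 0 := fun t ht => by
    rw [lc_out hcur ht, mul_zero]
  have hj := jump (τ := τ) (hasDerivAt_hd s h1) hBB.hc hh hb
  have hA0 : 0 ≤ A := (abs_nonneg _).trans (hA 0)
  obtain ⟨ie, ee⟩ := int_e2 τ
  have hm : Measurable fun t : ℝ => if τ ≤ t then (1:ℝ) else -1 :=
    Measurable.ite measurableSet_Ici measurable_const measurable_const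
  have ih : Integrable (hd s η η1) := by
    refine hBB.hc.integrable_of_hasCompactSupport ?_
    refine HasCompactSupport.of_support_subset_isCompact (isCompact_Icc (a := -b) (b := b)) ?_
    intro t ht
    by_contra hh2
    exact ht (hBB.hsupp t (by
      by_contra h2
      exact hh2 (abs_le.1 (not_lt.1 h2))))
  have ij : Integrable fun t => hd s η η1 t * (if τ ≤ t then (1:ℝ) else -1) := by
    have := ih.bdd_mul (c := 1) hm.aestronglyMeasurable (Eventually.of_forall fun t => by
        split_ifs <;> simp)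
    exact this.congr (Eventually.of_forall fun t => mul_comm _ _)
  have ii : Integrable fun t => hd s η η1 t * (Ψ (zt (iD η) t)).im := by
    have := ih.bdd_mul (c := N) (Complex.continuous_im.comp hΨc).aestronglyMeasurable
      (Eventually.of_forall fun t => (Complex.abs_im_le_norm _).trans (hΨb t))
    exact this.congr (Eventually.of_forall fun t => mul_comm _ _)
  have e4 : (∫ t, hd s η η1 t * (Ψ (zt (iD η) t)).im) + 2 * φ * (s * P τ * η τ) =
      ∫ t, hd s η η1 t * ((Ψ (zt (iD η) t)).im - φ * (if τ ≤ t then (1:ℝ) else -1)) := by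
    have e5 : ∀ t, hd s η η1 t * ((Ψ (zt (iD η) t)).im - φ * (if τ ≤ t then (1:ℝ) else -1)) =
        hd s η η1 t * (Ψ (zt (iD η) t)).im - φ * (hd s η η1 t * (if τ ≤ t then (1:ℝ) else -1)) := by
      intro t; ring
    simp_rw [e5]
    rw [integral_sub ii (ij.const_mul φ), integral_const_mul, hj]
    ring
  have b1 : |(∫ t, hd s η η1 t * (Ψ (zt (iD η) t)).im) + 2 * φ * (s * P τ * η τ)| ≤ κ * A := by
    rw [e4, ← Real.norm_eq_abs]
    have : κ * A = ∫ t : ℝ, A * (κ * Real.exp (-2 * |t - τ|)) := by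
      rw [integral_const_mul, integral_const_mul, ee]
      ring
    rw [this]
    refine norm_integral_le_of_norm_le ((ie.const_mul κ).const_mul A) (Eventually.of_forall fun t => ?_)
    rw [norm_mul, Real.norm_eq_abs, Real.norm_eq_abs]
    have h6 := (asy_le hΨ (hz t)).1
    rw [hre] at h6
    exact mul_le_mul (hA t) h6 (abs_nonneg _) hA0
  rw [e1, Complex.add_re, e2, ← hN]
  rw [abs_le] at b1 b2 ⊢
  constructor <;> linarith [b1.1, b1.2, b2.1, b2.2]

/-- **the current against a finite family of neutral groups** -/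
theorem exists_lin_sum : ∃ C : ℝ, 1 ≤ C ∧ ∀ {s ε M b : ℝ} {e η η1 : ℝ → ℝ}, 0 ≤ s → ε ≤ 1 / 20 →
    Cur s ε M b e η → (∀ t, HasDerivAt η (η1 t) t) → 0 ≤ b →
    ∀ {δ : Type*} [Fintype δ] {B A : ℝ} {κ a φ τ : δ → ℝ} {Ψ : δ → ℂ → ℂ}, ε < B →
      (∀ d, Asy B (κ d) 0 (a d) (φ d) (τ d) (Ψ d)) →
      (∀ d (z : ℂ), |z.im| < B → DifferentiableAt ℂ (Ψ d) z) → (∀ t, |hd s η η1 t| ≤ A) →
      |-(∫ t, Bf s (iD η) (iD η1) t * ∑ d, Ψ d (zt (iD η) t)).re +
          2 * ∑ d, φ d * (s * P (τ d) * η (τ d))| ≤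
        (∑ d, κ d) * A + C * (∑ d, (|a d| + |φ d| + κ d)) * b * (M * ε) := by
  obtain ⟨C, hC, H⟩ := exists_lin
  refine ⟨C, hC, ?_⟩
  intro s ε M b e η η1 hs hε hcur h1 hb δ _ B A κ a φ τ Ψ hεB hΨ hdiff hA
  have h := fun d => H hs hε hcur h1 hb hεB (hΨ d) (hdiff d) hA
  have e1 : ∫ t, Bf s (iD η) (iD η1) t * ∑ d, Ψ d (zt (iD η) t) =
      ∑ d, ∫ t, Bf s (iD η) (iD η1) t * Ψ d (zt (iD η) t) := by
    simp_rw [Finset.mul_sum]
    exact integral_finsetSum _ fun d _ => (h d).1
  have e2 : -(∫ t, Bf s (iD η) (iD η1) t * ∑ d, Ψ d (zt (iD η) t)).re +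
      2 * ∑ d, φ d * (s * P (τ d) * η (τ d)) =
      ∑ d, (-(∫ t, Bf s (iD η) (iD η1) t * Ψ d (zt (iD η) t)).re +
        2 * φ d * (s * P (τ d) * η (τ d))) := by
    rw [e1, Complex.re_sum, Finset.sum_add_distrib, Finset.sum_neg_distrib, Finset.mul_sum]
    congr 1
    exact Finset.sum_congr rfl fun d _ => by ring
  rw [e2]
  refine (Finset.abs_sum_le_sum_abs _ _).trans ((Finset.sum_le_sum fun d _ => (h d).2).trans
    (le_of_eq ?_))
  rw [Finset.sum_add_distrib, ← Finset.sum_mul, ← Finset.sum_mul, ← Finset.sum_mul, ← Finset.mul_sum]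

/-! ### each species its curve -/

/-- the transported density has total mass zero -/
theorem Bf_int (hs : 0 ≤ s) (hε : ε ≤ 1 / 20) (h : Cur s ε M b e η)
    (h1 : ∀ t, HasDerivAt η (η1 t) t) : ∫ t, Bf s (iD η) (iD η1) t = 0 := by
  obtain ⟨η2, hD, -⟩ := h.disp' hs h1
  have hp := hD.path hε
  have hl := l_pos
  have he : NUAct.Ext (l / 7) (fun _ : ℂ => (1:ℂ)) :=
    NUAct.Ext_of_lin (K := 1) (fun z _ => differentiableAt_const _) (fun z _ => by
      rw [norm_one, one_mul]
      have := abs_nonneg z.re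
      linarith)
  obtain ⟨i1, e1⟩ := cv_gen s le_rfl hp he
  simp only [mul_one] at i1 e1
  have i2 : Integrable fun t : ℝ => ((s * P t : ℝ) : ℂ) := by
    obtain ⟨C, hC0, hC⟩ := rho_bd s
    refine Integrable.mono' (((NUDispW.int_exp_abs (c := 8 / 3) (by norm_num) 0).1).const_mul C)
      (rho_cont s).aestronglyMeasurable (Eventually.of_forall fun t => (hC t).trans (le_of_eq ?_))
    rw [sub_zero, neg_mul]
  have e2 : ∀ t, Bf s (iD η) (iD η1) t =
      (s : ℂ) * (Pc (NUAct.zt (iD η) t) * NUAct.zd (iD η1) t) - ((s * P t : ℝ) : ℂ) := fun t => rfl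
  simp_rw [e2]
  rw [integral_sub i1 i2, e1, sub_self]

/-- Lipschitz bound near the line from a growth bound -/
theorem lip_strip {F : ℂ → ℂ} {B G r ε : ℝ} (hr : 0 < r) (hr1 : r ≤ 1) (hB : ε + r ≤ B)
    (hF : ∀ z : ℂ, |z.im| < B → DifferentiableAt ℂ F z)
    (hG : ∀ z w : ℂ, |z.im| < B → |w.im| < B → ‖F z - F w‖ ≤ G * (1 + ‖z - w‖))
    {z w : ℂ} (hz : |z.im| ≤ ε) (hw : |w.im| ≤ ε) : ‖F z - F w‖ ≤ 4 * G / r * ‖z - w‖ := by
  have hε : 0 ≤ ε := (abs_nonneg _).trans hz
  have hG0 : 0 ≤ G := by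
    have h0 := (norm_nonneg _).trans (hG 0 0 (by simp; linarith) (by simp; linarith))
    simpa using h0
  have hd : ∀ z : ℂ, |z.im| ≤ ε → ‖deriv F z‖ ≤ 4 * G / r := by
    intro z hz
    have him : ∀ w ∈ Metric.closedBall z (r / 2), |w.im| < B := by
      intro w hw
      rw [Metric.mem_closedBall, dist_eq_norm] at hw
      have h1 := Complex.abs_im_le_norm (w - z)
      rw [Complex.sub_im] at h1
      have h2 := abs_sub_abs_le_abs_sub w.im z.im
      linarith
    have h1 : DiffContOnCl ℂ (fun w => F w - F z) (Metric.ball z (r / 2)) := by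
      refine DifferentiableOn.diffContOnCl fun w hw => ?_
      rw [closure_ball z (by positivity)] at hw
      exact ((hF w (him w hw)).sub_const _).differentiableWithinAt
    have h2 := Complex.norm_deriv_le_of_forall_mem_sphere_norm_le (c := z) (R := r / 2)
      (C := 2 * G) (by positivity) h1 (fun w hw => by
        have hw' : ‖w - z‖ = r / 2 := by rwa [mem_sphere_iff_norm] at hw
        refine (hG w z (him w (Metric.sphere_subset_closedBall hw)) (by linarith)).trans ?_
        rw [hw']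
        nlinarith)
    have h3 : deriv (fun w => F w - F z) z = deriv F z := by
      rw [deriv_sub_const]
    rw [h3] at h2
    refine h2.trans (le_of_eq ?_)
    field_simp
    ring
  have hcv : Convex ℝ {z : ℂ | |z.im| ≤ ε} := by
    have e : {z : ℂ | |z.im| ≤ ε} = Complex.imLm ⁻¹' (Icc (-ε) ε) := by
      ext z
      simp [abs_le]
    rw [e]
    exact (convex_Icc _ _).linear_preimage _
  exact hcv.norm_image_sub_le_of_norm_deriv_le (f := F)
    (fun x hx => hF x (lt_of_le_of_lt (show |x.im| ≤ ε from hx) (by linarith)))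
    (fun x hx => hd x hx) hw hz

/-- **the potentials of a group of spectators against the densities of the two species**, each species
on its own curve, the currents nearly equal -/
theorem exists_linS : ∃ C : ℝ, 1 ≤ C ∧ ∀ {s : Bool → ℝ} {ε M b : ℝ} {e : ℝ → ℝ}
    {η η1 : Bool → ℝ → ℝ}, (∀ a, 0 ≤ s a) → ε ≤ 1 / 20 → (∀ a, Cur (s a) ε M b e (η a)) →
    (∀ a t, HasDerivAt (η a) (η1 a t) t) → Com M s e η η1 → 0 ≤ b →
    ∀ {δ : Type*} [Fintype δ] {B A G r : ℝ} {κ a φ τ : δ → ℝ} {Ψ : δ → ℂ → ℂ} {F : Bool → ℂ → ℂ},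
      0 < r → r ≤ 1 → ε + r ≤ B → (∀ d, Asy B (κ d) 0 (a d) (φ d) (τ d) (Ψ d)) →
      (∀ d (z : ℂ), |z.im| < B → DifferentiableAt ℂ (Ψ d) z) →
      (∀ x (z : ℂ), |z.im| < B → DifferentiableAt ℂ (F x) z) →
      (∀ x (z w : ℂ), |z.im| < B → |w.im| < B → ‖F x z - F x w‖ ≤ G * (1 + ‖z - w‖)) →
      (∀ z : ℂ, |z.im| < B → F true z + F false z = ∑ d, Ψ d z) →
      (∀ t, |hd (s true) (η true) (η1 true) t| ≤ A) →
      (∀ x, Integrable fun t => Bf (s x) (iD (η x)) (iD (η1 x)) t * F x (zt (iD (η x)) t)) ∧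
      |-(∑ x, ∫ t, Bf (s x) (iD (η x)) (iD (η1 x)) t * F x (zt (iD (η x)) t)).re +
          2 * ∑ d, φ d * (s true * P (τ d) * η true (τ d))| ≤
        (∑ d, κ d) * A + C * (∑ d, (|a d| + |φ d| + κ d)) * b * (M * ε) +
          C * (b + 1) ^ 2 * (G / r) * (M * ε) := by
  obtain ⟨C1, hC1, H1⟩ := exists_lin_sum
  obtain ⟨C2, hC2, H2⟩ := exists_BB
  obtain ⟨C3, hC3, H3⟩ := exists_com
  obtain ⟨CP, hCP, HP⟩ := P_le
  refine ⟨C1 + 4 * (C3 * CP + 2 * C2) + 16 * C2, by
    have : 0 < C3 * CP := by positivity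
    linarith, ?_⟩
  intro s ε M b e η η1 hs hε hcur h1 hcom hb δ _ B A G r κ a φ τ Ψ F hr hr1 hB hΨ hΨd hF hG hsum hA
  have hBB := fun x => H2 (hs x) hε (hcur x) (h1 x)
  have hε0 : 0 ≤ ε := (hcur true).ε0
  have hM0 : 0 ≤ M := (hcur true).M0 (hs true)
  have hMε : 0 ≤ M * ε := mul_nonneg hM0 hε0
  have hG0 : 0 ≤ G := by
    have h0 := (norm_nonneg _).trans (hG true 0 0 (by simp; linarith) (by simp; linarith))
    simpa using h0
  have hη : ∀ x t, |η x t| ≤ ε := fun x t => (lc_le (hcur x) t).trans ((hcur x).le t)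
  have him : ∀ x t, (zt (iD (η x)) t).im = η x t := fun x t => by simp [NUAct.zt, iD]
  have hze : ∀ x t, |(zt (iD (η x)) t).im| ≤ ε := fun x t => by rw [him]; exact hη x t
  have hz : ∀ x t, |(zt (iD (η x)) t).im| < B := fun x t => (hze x t).trans_lt (by linarith)
  have hζc : ∀ x, Continuous (zt (iD (η x))) := by
    intro x
    have hηc : Continuous (η x) := continuous_iff_continuousAt.2 fun t => (h1 x t).continuousAt
    have : zt (iD (η x)) = fun t : ℝ => (t : ℂ) + (η x t : ℂ) * I := by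
      funext t
      simp [NUAct.zt, iD]
    rw [this]
    fun_prop
  have hFc : ∀ x y, Continuous fun t => F x (zt (iD (η y)) t) := fun x y =>
    continuous_iff_continuousAt.2 fun t =>
      (hF x _ (hz y t)).continuousAt.comp (hζc y).continuousAt
  have hcs : ∀ {f : ℝ → ℂ}, Continuous f → (∀ t, b < |t| → f t = 0) → Integrable f := by
    intro f hf h0
    refine hf.integrable_of_hasCompactSupport ?_
    refine HasCompactSupport.of_support_subset_isCompact (isCompact_Icc (a := -b) (b := b)) ?_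
    intro t ht
    by_contra hh
    exact ht (h0 t (by
      by_contra h2
      exact hh (abs_le.1 (not_lt.1 h2))))
  have iB : ∀ x, Integrable (Bf (s x) (iD (η x)) (iD (η1 x))) := fun x =>
    hcs (hBB x).cont (hBB x).supp
  have i0 : ∀ x y z, Integrable fun t => Bf (s y) (iD (η y)) (iD (η1 y)) t * F x (zt (iD (η z)) t) :=
    fun x y z => hcs ((hBB y).cont.mul (hFc x z)) fun t ht => by rw [(hBB y).supp t ht, zero_mul]
  refine ⟨fun x => i0 x x x, ?_⟩
  have m1 := H1 (hs true) hε (hcur true) (h1 true) hb (by linarith : ε < B) hΨ hΨd hA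
  have e1 : (∫ t, Bf (s true) (iD (η true)) (iD (η1 true)) t * ∑ d, Ψ d (zt (iD (η true)) t)) =
      (∫ t, Bf (s true) (iD (η true)) (iD (η1 true)) t * F true (zt (iD (η true)) t)) +
      ∫ t, Bf (s true) (iD (η true)) (iD (η1 true)) t * F false (zt (iD (η true)) t) := by
    rw [← integral_add (i0 true true true) (i0 false true true)]
    congr 1
    funext t
    rw [← hsum _ (hz true t)]
    ring
  -- the difference
  obtain ⟨c0, hc0⟩ : ∃ c0 : ℂ, c0 = F false 0 := ⟨_, rfl⟩
  have e2 : (∫ t, Bf (s false) (iD (η false)) (iD (η1 false)) t * F false (zt (iD (η false)) t)) -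
      (∫ t, Bf (s true) (iD (η true)) (iD (η1 true)) t * F false (zt (iD (η true)) t)) =
      (∫ t, (Bf (s false) (iD (η false)) (iD (η1 false)) t - Bf (s true) (iD (η true)) (iD (η1 true)) t) *
        (F false (zt (iD (η false)) t) - c0)) +
      ∫ t, Bf (s true) (iD (η true)) (iD (η1 true)) t *
        (F false (zt (iD (η false)) t) - F false (zt (iD (η true)) t)) := by
    have j1 : Integrable fun t => (Bf (s false) (iD (η false)) (iD (η1 false)) t -
        Bf (s true) (iD (η true)) (iD (η1 true)) t) * (F false (zt (iD (η false)) t) - c0) := by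
      have := ((i0 false false false).sub (i0 false true false)).sub
        (((iB false).sub (iB true)).mul_const c0)
      refine this.congr (Eventually.of_forall fun t => ?_)
      simp only [Pi.sub_apply]
      ring
    have j2 : Integrable fun t => Bf (s true) (iD (η true)) (iD (η1 true)) t *
        (F false (zt (iD (η false)) t) - F false (zt (iD (η true)) t)) := by
      refine ((i0 false true false).sub (i0 false true true)).congr (Eventually.of_forall fun t => ?_)
      simp only [Pi.sub_apply]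
      ring
    have z0 := Bf_int (hs false) hε (hcur false) (h1 false)
    have z1 := Bf_int (hs true) hε (hcur true) (h1 true)
    have e3 : (∫ t, (Bf (s false) (iD (η false)) (iD (η1 false)) t -
        Bf (s true) (iD (η true)) (iD (η1 true)) t) * c0) = 0 := by
      rw [integral_mul_const, integral_sub (iB false) (iB true), z0, z1, sub_self, zero_mul]
    have jz : Integrable fun t => (Bf (s false) (iD (η false)) (iD (η1 false)) t -
        Bf (s true) (iD (η true)) (iD (η1 true)) t) * c0 := ((iB false).sub (iB true)).mul_const c0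
    have j12 : Integrable fun t => (Bf (s false) (iD (η false)) (iD (η1 false)) t -
        Bf (s true) (iD (η true)) (iD (η1 true)) t) * (F false (zt (iD (η false)) t) - c0) +
        Bf (s true) (iD (η true)) (iD (η1 true)) t *
          (F false (zt (iD (η false)) t) - F false (zt (iD (η true)) t)) := j1.add j2
    have e4 : ∀ t, Bf (s false) (iD (η false)) (iD (η1 false)) t * F false (zt (iD (η false)) t) -
        Bf (s true) (iD (η true)) (iD (η1 true)) t * F false (zt (iD (η true)) t) =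
        ((Bf (s false) (iD (η false)) (iD (η1 false)) t - Bf (s true) (iD (η true)) (iD (η1 true)) t) *
          (F false (zt (iD (η false)) t) - c0) +
        Bf (s true) (iD (η true)) (iD (η1 true)) t *
          (F false (zt (iD (η false)) t) - F false (zt (iD (η true)) t))) +
        (Bf (s false) (iD (η false)) (iD (η1 false)) t -
          Bf (s true) (iD (η true)) (iD (η1 true)) t) * c0 := by
      intro t
      ring
    rw [← integral_sub (i0 false false false) (i0 false true true),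
      integral_congr_ae (Eventually.of_forall e4), integral_add j12 jz, integral_add j1 j2, e3,
      add_zero]
  -- sizes
  have hP1 : ∀ t, P t ≤ CP := by
    intro t
    refine (HP t).trans ?_
    have : Real.exp (-(8 / 3) * |t|) ≤ 1 := by
      rw [Real.exp_le_one_iff]
      have := abs_nonneg t
      linarith
    nlinarith
  have d1 : ∀ t, ‖Bf (s false) (iD (η false)) (iD (η1 false)) t -
      Bf (s true) (iD (η true)) (iD (η1 true)) t‖ ≤ (C3 * CP + 2 * C2) * (M * ε) := by
    intro t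
    rw [B_eq, B_eq]
    have e3 : ((hd (s false) (η false) (η1 false) t : ℂ) * I + Br (s false) (iD (η false)) (iD (η1 false)) t) -
        ((hd (s true) (η true) (η1 true) t : ℂ) * I + Br (s true) (iD (η true)) (iD (η1 true)) t) =
        ((hd (s false) (η false) (η1 false) t - hd (s true) (η true) (η1 true) t : ℝ) : ℂ) * I +
        (Br (s false) (iD (η false)) (iD (η1 false)) t - Br (s true) (iD (η true)) (iD (η1 true)) t) := by
      push_cast
      ring
    rw [e3]
    refine (norm_add_le _ _).trans ?_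
    rw [norm_mul, Complex.norm_I, mul_one, Complex.norm_real, Real.norm_eq_abs]
    have g1 := (H3 hcom false t).2
    have g2 := (hBB false).rle t
    have g3 := (hBB true).rle t
    have g4 := norm_sub_le (Br (s false) (iD (η false)) (iD (η1 false)) t)
      (Br (s true) (iD (η true)) (iD (η1 true)) t)
    have g5 : C3 * (M * (P t * e t)) ≤ C3 * CP * (M * ε) := by
      have a1 : P t * e t ≤ CP * ε :=
        mul_le_mul (hP1 t) ((hcur true).le t) ((hcur true).nonneg t) hCP.le
      calc C3 * (M * (P t * e t)) ≤ C3 * (M * (CP * ε)) := by gcongr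
        _ = _ := by ring
    linarith
  have d2 : ∀ t, |t| ≤ b → ‖F false (zt (iD (η false)) t) - c0‖ ≤ G * (b + 2) := by
    intro t ht
    rw [hc0]
    refine (hG false _ _ (hz false t) (by simp; linarith)).trans ?_
    refine mul_le_mul_of_nonneg_left ?_ hG0
    rw [sub_zero]
    have g1 : zt (iD (η false)) t = (t : ℂ) + (η false t : ℂ) * I := by simp [NUAct.zt, iD]
    rw [g1]
    have g2 := norm_add_le (t : ℂ) ((η false t : ℂ) * I)
    rw [norm_mul, Complex.norm_I, mul_one, Complex.norm_real, Complex.norm_real, Real.norm_eq_abs,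
      Real.norm_eq_abs] at g2
    have g3 := hη false t
    linarith
  have d3 : ∀ t, ‖F false (zt (iD (η false)) t) - F false (zt (iD (η true)) t)‖ ≤
      4 * G / r * (2 * ε) := by
    intro t
    refine (lip_strip hr hr1 hB (hF false) (hG false) (hze false t) (hze true t)).trans ?_
    have g0 : 0 ≤ 4 * G / r := by positivity
    refine mul_le_mul_of_nonneg_left ?_ g0
    have g1 : zt (iD (η false)) t - zt (iD (η true)) t = ((η false t - η true t : ℝ) : ℂ) * I := by
      simp only [NUAct.zt, iD]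
      push_cast
      ring
    rw [g1, norm_mul, Complex.norm_I, mul_one, Complex.norm_real, Real.norm_eq_abs]
    have g2 := abs_sub (η false t) (η true t)
    have g3 := hη false t
    have g4 := hη true t
    linarith
  have hset : ∀ {f : ℝ → ℂ} {c : ℝ}, (∀ t, b < |t| → f t = 0) → (∀ t, |t| ≤ b → ‖f t‖ ≤ c) →
      ‖∫ t, f t‖ ≤ c * (2 * b) := by
    intro f c h0 hc
    have e3 : ∫ t, f t = ∫ t in Icc (-b) b, f t := by
      refine (setIntegral_eq_integral_of_forall_compl_eq_zero fun t ht => ?_).symm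
      refine h0 t ?_
      by_contra hh
      exact ht (abs_le.1 (not_lt.1 hh))
    rw [e3]
    have h5 := norm_setIntegral_le_of_norm_le_const (μ := volume) (s := Icc (-b) b)
      (f := f) (C := c) (by simp) (fun t ht => hc t (abs_le.2 ht))
    refine h5.trans (le_of_eq ?_)
    rw [Measure.real, Real.volume_Icc, ENNReal.toReal_ofReal (by linarith)]
    ring
  have b1 := hset (f := fun t => (Bf (s false) (iD (η false)) (iD (η1 false)) t -
      Bf (s true) (iD (η true)) (iD (η1 true)) t) * (F false (zt (iD (η false)) t) - c0))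
    (c := (C3 * CP + 2 * C2) * (M * ε) * (G * (b + 2)))
    (fun t ht => by simp only [(hBB false).supp t ht, (hBB true).supp t ht, sub_zero, zero_mul])
    (fun t ht => by
      rw [norm_mul]
      exact mul_le_mul (d1 t) (d2 t ht) (norm_nonneg _) (by positivity))
  have b2 := hset (f := fun t => Bf (s true) (iD (η true)) (iD (η1 true)) t *
        (F false (zt (iD (η false)) t) - F false (zt (iD (η true)) t)))
    (c := C2 * M * (4 * G / r * (2 * ε)))
    (fun t ht => by simp only [(hBB true).supp t ht, zero_mul])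
    (fun t ht => by
      rw [norm_mul]
      exact mul_le_mul ((hBB true).le t) (d3 t) (norm_nonneg _) (by positivity))
  -- conclusion
  obtain ⟨X, hX⟩ : ∃ X : ℂ, X = (∫ t, Bf (s false) (iD (η false)) (iD (η1 false)) t *
      F false (zt (iD (η false)) t)) - (∫ t, Bf (s true) (iD (η true)) (iD (η1 true)) t *
      F false (zt (iD (η true)) t)) := ⟨_, rfl⟩
  have b3 : ‖X‖ ≤ (4 * (C3 * CP + 2 * C2) + 16 * C2) * (b + 1) ^ 2 * (G / r) * (M * ε) := by
    rw [hX, e2]
    refine (norm_add_le _ _).trans ((add_le_add b1 b2).trans ?_)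
    have g1 : G ≤ G / r := by
      rw [le_div_iff₀ hr]
      nlinarith
    have g2 : 0 ≤ G / r := by positivity
    have g3 : 0 ≤ C3 * CP + 2 * C2 := by positivity
    have k1 : (C3 * CP + 2 * C2) * (M * ε) * (G * (b + 2)) * (2 * b) ≤
        4 * (C3 * CP + 2 * C2) * (b + 1) ^ 2 * (G / r) * (M * ε) := by
      have q1 : (b + 2) * (2 * b) ≤ 4 * (b + 1) ^ 2 := by nlinarith
      calc (C3 * CP + 2 * C2) * (M * ε) * (G * (b + 2)) * (2 * b) =
          (C3 * CP + 2 * C2) * (M * ε) * (G * ((b + 2) * (2 * b))) := by ring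
        _ ≤ (C3 * CP + 2 * C2) * (M * ε) * (G / r * (4 * (b + 1) ^ 2)) := by gcongr
        _ = _ := by ring
    have k2 : C2 * M * (4 * G / r * (2 * ε)) * (2 * b) ≤
        16 * C2 * (b + 1) ^ 2 * (G / r) * (M * ε) := by
      have q1 : b ≤ (b + 1) ^ 2 := by nlinarith
      calc C2 * M * (4 * G / r * (2 * ε)) * (2 * b) = 16 * C2 * b * (G / r) * (M * ε) := by ring
        _ ≤ 16 * C2 * (b + 1) ^ 2 * (G / r) * (M * ε) := by gcongr
    linarith
  have b4 : |X.re| ≤ (4 * (C3 * CP + 2 * C2) + 16 * C2) * (b + 1) ^ 2 * (G / r) * (M * ε) :=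
    (Complex.abs_re_le_norm _).trans b3
  rw [e1] at m1
  have e5 : (∑ x, ∫ t, Bf (s x) (iD (η x)) (iD (η1 x)) t * F x (zt (iD (η x)) t)) =
      ((∫ t, Bf (s true) (iD (η true)) (iD (η1 true)) t * F true (zt (iD (η true)) t)) +
      ∫ t, Bf (s true) (iD (η true)) (iD (η1 true)) t * F false (zt (iD (η true)) t)) + X := by
    rw [Fintype.sum_bool, hX]
    ring
  rw [e5, Complex.add_re]
  obtain ⟨Y, hY⟩ : ∃ Y : ℝ, Y = ((∫ t, Bf (s true) (iD (η true)) (iD (η1 true)) t *
      F true (zt (iD (η true)) t)) + ∫ t, Bf (s true) (iD (η true)) (iD (η1 true)) t *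
      F false (zt (iD (η true)) t)).re := ⟨_, rfl⟩
  rw [← hY] at m1 ⊢
  obtain ⟨N, hN⟩ : ∃ N : ℝ, N = ∑ d, (|a d| + |φ d| + κ d) := ⟨_, rfl⟩
  rw [← hN] at m1 ⊢
  have hN0 : 0 ≤ N := by
    rw [hN]
    exact Finset.sum_nonneg fun d _ =>
      (norm_nonneg _).trans (asy_le (hΨ d) (z := 0) (by simp; linarith)).2
  have k3 : C1 * N * b * (M * ε) ≤ (C1 + 4 * (C3 * CP + 2 * C2) + 16 * C2) * N * b * (M * ε) := by
    have : C1 ≤ C1 + 4 * (C3 * CP + 2 * C2) + 16 * C2 := by
      have : 0 ≤ C3 * CP := by positivity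
      linarith
    gcongr
  have k4 : (4 * (C3 * CP + 2 * C2) + 16 * C2) * (b + 1) ^ 2 * (G / r) * (M * ε) ≤
      (C1 + 4 * (C3 * CP + 2 * C2) + 16 * C2) * (b + 1) ^ 2 * (G / r) * (M * ε) := by
    have : 4 * (C3 * CP + 2 * C2) + 16 * C2 ≤ C1 + 4 * (C3 * CP + 2 * C2) + 16 * C2 := by linarith
    gcongr
  rw [abs_le] at m1 b4 ⊢
  constructor <;> linarith [m1.1, m1.2, b4.1, b4.2]

end

end NUSea.PLX.H0
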