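import Pool.Agent.PLX.Ns
import Pool.Agent.PLX.NUSea.H0.DatNC
import Pool.Agent.NUGC.CfgC
import Pool.Agent.NUSp.Tot

/-!
# Spectators in the data of a configuration, general sea, two row numbers, two curves: the remainder `wO` and the densities

`Spc b κ cm I c h f f1 T R R'`: the extra analytic potentials of `I` are the sums of the potentials
`f i a` (groups of spectators, ends) of class `NUO.PotB`; the extra densities are those of the sources
`T`; on the axis the potentials, with the extra real potential, are those of the sources up to `R a`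
(`C^1`).

* `Spc.wO_eq`: `wO = ∑ (Re f(ζ t) - Re f(t)) + R`;
* `Spc.xi`: `C^1`, size, derivative; `Spc.xi_energy`, `Spc.NW_le`: local energy;
* `muS_le`, `muS_le0`, `muS_le1`, `muS_l1`: the densities of sources with the decay `Dk M`;
* `Spc.νc`, .., `Spc.wc`, `Spc.wb`: the fields of `IOk`; `Spc.iok`.
-/

set_option autoImplicit false
set_option linter.unusedSectionVars false

open MeasureTheory Set Filter Topology

namespace NUSea.PLX.H0

open NUMF NUO NUKer NUAct
open NUGC (Sr muS tauS linS)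
open NUSp (re_curve dre_curve)
open NU42 (norm_iD)

noncomputable section

lemma exp_abs_int {c : ℝ} (hc : 0 < c) (a : ℝ) :
    Integrable (fun x : ℝ => Real.exp (-c * |x - a|)) ∧ ∫ x : ℝ, Real.exp (-c * |x - a|) = 2 / c := by
  have h := NUDispW.int_exp_abs hc a
  have e : (fun x : ℝ => Real.exp (-(c * |x - a|))) = fun x => Real.exp (-c * |x - a|) := by
    funext x
    congr 1
    ring
  rwa [e] at h

/-! ### densities of sources -/

section dens

variable {κ' : Type*} [Fintype κ'] {T : κ' → Sr} {M T1 : ℝ}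

/-- the densities of a source are at most `M e^{-5/2 |t|}` -/
def Dk (M : ℝ) (S : Sr) : Prop := ∀ a t, |S.f a t| ≤ M * Real.exp (-(5 / 2) * |t|)

lemma exists_Dk {S : Sr} (h : S.Ok) : ∃ M : ℝ, 0 ≤ M ∧ ∀ t, Dk M { S with t := t } := by
  obtain ⟨M1, p1, h1⟩ := (h.df true).bd
  obtain ⟨M2, p2, h2⟩ := (h.df false).bd
  refine ⟨max M1 M2, p1.trans (le_max_left _ _), fun t0 a t => ?_⟩
  have hE := Real.exp_pos (-(5 / 2) * |t|)
  cases a
  · exact (h2 t).trans (mul_le_mul_of_nonneg_right (le_max_right _ _) hE.le)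
  · exact (h1 t).trans (mul_le_mul_of_nonneg_right (le_max_left _ _) hE.le)

lemma Dk.mono {M M' : ℝ} {S : Sr} (h : Dk M S) (hM : M ≤ M') : Dk M' S := fun a t =>
  (h a t).trans (mul_le_mul_of_nonneg_right hM (Real.exp_pos _).le)

lemma Dk.nonneg {M : ℝ} {S : Sr} (h : Dk M S) : 0 ≤ M := by
  have h1 := (abs_nonneg _).trans (h true 0)
  simpa using h1

theorem muS_le (h : ∀ d, Dk M (T d)) (a : Bool) (t : ℝ) :
    |muS T a t| ≤ M * ∑ d, Real.exp (-(5 / 2) * |t - (T d).t|) := by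
  unfold muS
  rw [Finset.mul_sum]
  exact (Finset.abs_sum_le_sum_abs _ _).trans (Finset.sum_le_sum fun d _ => h d a _)

/-- mass of the densities -/
theorem muS_l1 (hok : ∀ d, (T d).Ok) (h : ∀ d, Dk M (T d)) (a : Bool) :
    ∫ t, |muS T a t| ≤ M * Fintype.card κ' := by
  by_cases h0 : IsEmpty κ'
  · have e1 : ∀ t, muS T a t = 0 := fun t => by unfold muS; simp
    simp [e1]
  rw [not_isEmpty_iff] at h0
  obtain ⟨d0⟩ := h0
  have hM := (h d0).nonneg
  have i1 : ∀ d, Integrable fun t : ℝ => Real.exp (-(5 / 2) * |t - (T d).t|) := fun d =>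
    (exp_abs_int (by norm_num) (T d).t).1
  have e1 : ∀ d, ∫ t : ℝ, Real.exp (-(5 / 2) * |t - (T d).t|) = 4 / 5 := fun d => by
    rw [(exp_abs_int (by norm_num) (T d).t).2]
    norm_num
  refine (integral_mono (NUGC.dn_muS hok a).int.abs
    ((integrable_finsetSum Finset.univ fun d _ => i1 d).const_mul M) fun t => muS_le h a t).trans ?_
  rw [integral_const_mul, integral_finsetSum _ fun d _ => i1 d]
  refine mul_le_mul_of_nonneg_left ?_ hM
  simp_rw [e1]
  rw [Finset.sum_const, Finset.card_univ, nsmul_eq_mul]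
  have : (0:ℝ) ≤ Fintype.card κ' := Nat.cast_nonneg _
  linarith

/-- weight `x` of the density of the splitting -/
theorem tauS_x (hok : ∀ d, (T d).Ok) : Integrable fun x => tauS T x * x := by
  have hd := NUGC.dn_tauS hok
  have h2 : Integrable fun x => |x| * tauS T x := by
    refine (hd.wint.sub hd.int).congr (ae_of_all _ fun x => ?_)
    simp only [Pi.sub_apply]
    ring
  refine h2.mono (Continuous.aestronglyMeasurable (hd.cont.mul continuous_id))
    (ae_of_all _ fun x => ?_)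
  rw [norm_mul, norm_mul, Real.norm_eq_abs |x|, abs_abs, Real.norm_eq_abs x, mul_comm]

end dens

/-! ### the remainder -/

section

variable [Sea]

variable {ι κ' : Type*} [Fintype ι] [Fintype κ']

/-- spectators in the data `I` -/
structure Spc (b κ cm : ℝ) (I : Inp) (c : ι → Bool → ℝ) (h : ι → ℝ) (f f1 : ι → Bool → ℂ → ℂ)
    (T : κ' → Sr) (R R' : Bool → ℝ → ℝ) : Prop where
  lb : NUMF.l / 5 ≤ b
  κ0 : 0 ≤ κ
  pot : ∀ i a, PotB b κ (c i a) (h i) (f i a) (f1 i a)
  cm : ∀ i a, |c i a| ≤ cm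
  A : ∀ a z, I.A a z = ∑ i, f i a z
  ok : ∀ d, (T d).Ok
  ν : I.ν = muS T
  τ : I.τD = tauS T
  lin : ∀ (a : Bool) (t : ℝ), (∑ i, (f i a t).re) + I.B a t - linS T a t = R a t
  dR : ∀ (a : Bool) (t : ℝ), HasDerivAt (R a) (R' a t) t
  cR : ∀ a, Continuous (R' a)

variable {b κ cm : ℝ} {I : Inp} {c : ι → Bool → ℝ} {h : ι → ℝ} {f f1 : ι → Bool → ℂ → ℂ}
  {T : κ' → Sr} {R R' : Bool → ℝ → ℝ}

/-- profile of the heights -/
def pf (h : ι → ℝ) (t : ℝ) : ℝ := ∑ i, Real.exp (-2 * |t - h i|)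

lemma pf_nonneg (h : ι → ℝ) (t : ℝ) : 0 ≤ pf h t := Finset.sum_nonneg fun _ _ => (Real.exp_pos _).le

lemma pf_le (h : ι → ℝ) (t : ℝ) : pf h t ≤ Fintype.card ι := by
  refine (Finset.sum_le_card_nsmul _ _ 1 fun d _ => ?_).trans (by simp)
  rw [Real.exp_le_one_iff]
  have := abs_nonneg (t - h d)
  linarith

lemma pf_cont (h : ι → ℝ) : Continuous (pf h) := by
  unfold pf
  exact continuous_finsetSum _ fun i _ => by fun_prop

lemma pf_int (h : ι → ℝ) : Integrable (pf h) ∧ ∫ t, pf h t = Fintype.card ι := by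
  have i1 : ∀ i, Integrable fun t : ℝ => Real.exp (-2 * |t - h i|) := fun i =>
    (exp_abs_int (by norm_num) (h i)).1
  refine ⟨integrable_finsetSum _ fun i _ => i1 i, ?_⟩
  unfold pf
  rw [integral_finsetSum _ fun i _ => i1 i]
  have e1 : ∀ i, ∫ t : ℝ, Real.exp (-2 * |t - h i|) = 1 := fun i => by
    rw [(exp_abs_int (by norm_num) (h i)).2]
    norm_num
  simp_rw [e1]
  simp

/-- the derivative of a potential is continuous on the strip -/
lemma f1_cont {b κ c τ : ℝ} {f f1 : ℂ → ℂ} (h : PotB b κ c τ f f1) :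
    ContinuousOn f1 {z : ℂ | |z.im| < b} := by
  intro z hz
  have h1 := h.hasDerivAt_iter 1 hz
  have h2 : HasDerivAt f1 (iteratedDeriv 2 f z) z := by
    refine h1.congr_of_eventuallyEq ?_
    filter_upwards [(PotB.isOpen_strip b).mem_nhds hz] with w hw
    rw [iteratedDeriv_one, h.deriv_eq hw]
  exact h2.continuousAt.continuousWithinAt

/-- constant of the remainder -/
def Kw (κ cm : ℝ) : ℝ := 2 * NUSp.kc κ cm (1 / 20)

lemma Kw_nonneg (hκ : 0 ≤ κ) : 0 ≤ Kw κ cm := by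
  unfold Kw NUSp.kc
  positivity

namespace Spc

variable (S : Spc b κ cm I c h f f1 T R R')

include S

/-- the remainder: displacement of the curve and `R` -/
theorem wO_eq (a : Bool) (t : ℝ) : wO I a t =
    (∑ i, ((f i a (zt (iD (I.η a)) t)).re - (f i a t).re)) + R a t := by
  have h1 := NUGC.muS_eq S.ok a t
  have e1 : wO I a t = (I.A a (NUAct.zt (iD (I.η a)) t)).re + I.B a t - Dat.sg a * NUC43.lgp I.τD t -
      Vn I a t := rfl
  have e2 : Vn I a t = ∫ u, muS T a u * V (t - u) := by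
    unfold Vn
    rw [S.ν]
  have e4 : Dat.sg a = NUC43.sg a := rfl
  have e3 := S.lin a t
  rw [e1, e2, S.τ, e4, S.A, Complex.re_sum, Finset.sum_sub_distrib, ← e3]
  linarith

/-- the derivative of the remainder -/
theorem xi_aux (a : Bool) (hη : ∀ t, |I.η a t| ≤ 1 / 40) (hd : ∀ t, HasDerivAt (I.η a) (I.η1 a t) t) (t : ℝ) :
    HasDerivAt (wO I a) ((∑ i, ((f1 i a (t + (I.η a t : ℂ) * Complex.I) *
      (1 + I.η1 a t * Complex.I)).re - (f1 i a t).re)) + R' a t) t ∧
    |wO I a t - R a t| ≤ Kw κ cm / 2 * |I.η a t| * pf h t ∧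
    |(∑ i, ((f1 i a (t + (I.η a t : ℂ) * Complex.I) * (1 + I.η1 a t * Complex.I)).re -
      (f1 i a t).re))| ≤ Kw κ cm / 2 * (|I.η a t| + |I.η1 a t|) * pf h t := by
  have hl : (1:ℝ) / 40 + 1 / 20 < NUMF.l / 5 := by
    unfold NUMF.l
    have := Real.pi_gt_d2
    linarith
  have hlb := S.lb
  have hzt : ∀ t, zt (iD (I.η a)) t = (t : ℂ) + (I.η a t : ℂ) * Complex.I := fun t => rfl
  have hb : |I.η a t| < b := (hη t).trans_lt (by linarith)
  have d1 := fun i => dre_curve (S.pot i a) (b' := 1 / 40) (ρ := 1 / 20) (by norm_num) (by norm_num)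
    (by linarith) (hη t) (hd t)
  have d0 : ∀ i, HasDerivAt (fun t : ℝ => (f i a t).re) (f1 i a t).re t := by
    intro i
    have h1 := ((S.pot i a).hd (t : ℂ) (by simpa using (S.pot i a).b0)).comp_ofReal
    exact Complex.reCLM.hasFDerivAt.comp_hasDerivAt t h1
  have hk : ∀ i, NUSp.kc κ (c i a) (1 / 20) ≤ NUSp.kc κ cm (1 / 20) := by
    intro i
    have h1 := S.cm i a
    have h2 := le_abs_self cm
    unfold NUSp.kc
    have h3 : |c i a| ≤ |cm| := h1.trans h2
    gcongr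
  have hE : ∀ i, 0 ≤ Real.exp (-2 * |t - h i|) := fun i => (Real.exp_pos _).le
  have hkw : Kw κ cm / 2 = NUSp.kc κ cm (1 / 20) := by unfold Kw; ring
  have hκ : ι → κ ≤ NUSp.kc κ cm (1 / 20) := by
    intro i
    have h0 := (S.pot i a).κ0
    unfold NUSp.kc
    have : 0 ≤ (κ + 2 * |cm|) * Real.exp 2 / (1 / 20) := by positivity
    linarith
  refine ⟨?_, ?_, ?_⟩
  · have e1 : wO I a = fun t => (∑ i, ((f i a (t + (I.η a t : ℂ) * Complex.I)).re - (f i a t).re)) +
        R a t := funext fun t => by rw [S.wO_eq a t]; rfl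
    rw [e1]
    exact (HasDerivAt.fun_sum fun i _ => (d1 i).1.sub (d0 i)).add (S.dR a t)
  · rw [S.wO_eq a t, add_sub_cancel_right, hkw, pf, Finset.mul_sum]
    refine (Finset.abs_sum_le_sum_abs _ _).trans (Finset.sum_le_sum fun i _ => ?_)
    have h1 := re_curve (S.pot i a) (t := t) hb
    rw [hzt]
    refine h1.trans ?_
    exact mul_le_mul_of_nonneg_right (mul_le_mul_of_nonneg_right (hκ i) (abs_nonneg _)) (hE i)
  · rw [hkw, pf, Finset.mul_sum]
    refine (Finset.abs_sum_le_sum_abs _ _).trans (Finset.sum_le_sum fun i _ => ?_)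
    refine (d1 i).2.trans ?_
    exact mul_le_mul_of_nonneg_right (mul_le_mul_of_nonneg_right (hk i) (by positivity)) (hE i)

/-- **the remainder of the spectators is `C^1`; size and derivative** -/
theorem xi {s : Bool → ℝ} {ε M bb : ℝ} {e : ℝ → ℝ} (hcur : ∀ a, Cur (s a) ε M bb e (I.η a)) (hε : ε ≤ 1 / 40)
    (hd : ∀ a t, HasDerivAt (I.η a) (I.η1 a t) t) (a : Bool) : ∃ xi1 : ℝ → ℝ,
      (∀ t, HasDerivAt (wO I a) (xi1 t) t) ∧ Continuous xi1 ∧
      (∀ t, |wO I a t - R a t| ≤ Kw κ cm * e t * pf h t) ∧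
      ∀ t, |xi1 t - R' a t| ≤ Kw κ cm * e t * pf h t := by
  have g0 : ∀ t, |I.η a t| ≤ e t := fun t => (norm_iD (I.η a) t).symm.le.trans (((hcur a).oc.le t))
  have g1 : ∀ t, |I.η1 a t| ≤ e t := fun t => (norm_iD (I.η1 a) t).symm.le.trans (((hcur a).oc1 (hd a)).le t)
  have g2 : ∀ t, |I.η a t| ≤ 1 / 40 := fun t => (g0 t).trans (((hcur a).le t).trans hε)
  have key := fun t => S.xi_aux a g2 (hd a) t
  have hc1 : Continuous (I.η1 a) := by
    have h1 := Complex.continuous_im.comp ((hcur a).oc1 (hd a)).cont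
    refine h1.congr fun t => ?_
    simp [iD]
  have hc0 : Continuous (I.η a) := continuous_iff_continuousAt.2 fun t => (hd a t).continuousAt
  refine ⟨_, fun t => (key t).1, ?_, fun t => ?_, fun t => ?_⟩
  · refine (continuous_finsetSum _ fun i _ => ?_).add (S.cR a)
    have hf1 := f1_cont (S.pot i a)
    have hl : (1:ℝ) / 40 < NUMF.l / 5 := by
      unfold NUMF.l
      have := Real.pi_gt_d2
      linarith
    have hlb := S.lb
    have k1 : Continuous fun t : ℝ => f1 i a (t + (I.η a t : ℂ) * Complex.I) :=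
      hf1.comp_continuous (by fun_prop) fun t => by
        show |((t : ℂ) + (I.η a t : ℂ) * Complex.I).im| < b
        have e1 : ((t : ℂ) + (I.η a t : ℂ) * Complex.I).im = I.η a t := by simp
        rw [e1]
        exact (g2 t).trans_lt (by linarith)
    have k2 : Continuous fun t : ℝ => f1 i a (t : ℂ) :=
      hf1.comp_continuous Complex.continuous_ofReal fun t => by
        show |(t : ℂ).im| < b
        simpa using (S.pot i a).b0
    exact (Complex.continuous_re.comp (k1.mul (by fun_prop))).sub (Complex.continuous_re.comp k2)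
  · refine (key t).2.1.trans (mul_le_mul_of_nonneg_right ?_ (pf_nonneg _ _))
    have hK := Kw_nonneg (cm := cm) S.κ0
    have h1 := g0 t
    have h2 := (abs_nonneg _).trans h1
    nlinarith [mul_nonneg hK h2]
  · rw [add_sub_cancel_right]
    refine (key t).2.2.trans (mul_le_mul_of_nonneg_right ?_ (pf_nonneg _ _))
    have hK := Kw_nonneg (cm := cm) S.κ0
    have h1 := g0 t
    have h2 := g1 t
    nlinarith

/-- size of the remainder -/
theorem wO_le {s : Bool → ℝ} {ε M bb : ℝ} {e : ℝ → ℝ} (hcur : ∀ a, Cur (s a) ε M bb e (I.η a)) (hε : ε ≤ 1 / 40)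
    (hd : ∀ a t, HasDerivAt (I.η a) (I.η1 a t) t) (a : Bool) (t : ℝ) :
    |wO I a t| ≤ |R a t| + Kw κ cm * ε * Fintype.card ι := by
  obtain ⟨xi1, -, -, h3, -⟩ := S.xi hcur hε hd a
  have hK := Kw_nonneg (cm := cm) S.κ0
  have h4 := h3 t
  have h5 := (hcur a).le t
  have h6 : 0 ≤ e t := (norm_nonneg _).trans ((hcur a).oc.le t)
  have h7 := pf_le h t
  have h8 := pf_nonneg h t
  have h9 := abs_add_le (R a t) (wO I a t - R a t)
  rw [add_sub_cancel] at h9
  have h11 : 0 ≤ Kw κ cm * ε := mul_nonneg hK (h6.trans h5)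
  have h10 : Kw κ cm * e t * pf h t ≤ Kw κ cm * ε * Fintype.card ι := by gcongr
  linarith

/-- **local energy of the remainder** -/
theorem xi_energy {s : Bool → ℝ} {ε M bb : ℝ} {e : ℝ → ℝ} (hcur : ∀ a, Cur (s a) ε M bb e (I.η a)) (hε : ε ≤ 1 / 40)
    (hd : ∀ a t, HasDerivAt (I.η a) (I.η1 a t) t) (a : Bool) {xi1 : ℝ → ℝ}
    (hx : ∀ t, HasDerivAt (wO I a) (xi1 t) t) {x : ℝ} (hx0 : 0 ≤ x) :
    ∫ t in (-x)..x, (wO I a t ^ 2 + xi1 t ^ 2) ≤
      2 * (∫ t in (-x)..x, (R a t ^ 2 + R' a t ^ 2)) + 4 * (Kw κ cm * ε * Fintype.card ι) ^ 2 := by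
  obtain ⟨y1, k1, k2, k3, k4⟩ := S.xi hcur hε hd a
  have exy : xi1 = y1 := funext fun t => (hx t).unique (k1 t)
  subst exy
  have hK := Kw_nonneg (cm := cm) S.κ0
  have hR : Continuous (R a) := continuous_iff_continuousAt.2 fun t => (S.dR a t).continuousAt
  have hR' := S.cR a
  have hw : Continuous (wO I a) := continuous_iff_continuousAt.2 fun t => (hx t).continuousAt
  have hle : -x ≤ x := by linarith
  have hcp := pf_cont h
  set X : ℝ := Kw κ cm * ε with hX
  set n : ℝ := (Fintype.card ι : ℝ) with hn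
  have hn0 : 0 ≤ n := Nat.cast_nonneg _
  have pt : ∀ t, wO I a t ^ 2 + xi1 t ^ 2 ≤
      2 * (R a t ^ 2 + R' a t ^ 2) + 4 * X ^ 2 * n * pf h t := by
    intro t
    have h5 := (hcur a).le t
    have h6 : 0 ≤ e t := (norm_nonneg _).trans ((hcur a).oc.le t)
    have h7 := pf_le h t
    have h8 := pf_nonneg h t
    have hX0 : 0 ≤ X := by
      rw [hX]
      exact mul_nonneg hK (h6.trans h5)
    have a1 : |wO I a t - R a t| ≤ X * pf h t := (k3 t).trans (by
      rw [hX]
      gcongr)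
    have a2 : |xi1 t - R' a t| ≤ X * pf h t := (k4 t).trans (by
      rw [hX]
      gcongr)
    have b1 : (wO I a t - R a t) ^ 2 ≤ (X * pf h t) ^ 2 := by
      rw [← sq_abs]
      gcongr
    have b2 : (xi1 t - R' a t) ^ 2 ≤ (X * pf h t) ^ 2 := by
      rw [← sq_abs]
      gcongr
    have b3 : (X * pf h t) ^ 2 ≤ X ^ 2 * n * pf h t := by
      rw [mul_pow, sq (pf h t), mul_assoc]
      exact mul_le_mul_of_nonneg_left (mul_le_mul_of_nonneg_right h7 h8) (sq_nonneg X)
    nlinarith [sq_nonneg (R a t - (wO I a t - R a t)), sq_nonneg (R' a t - (xi1 t - R' a t))]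
  have j1 : Continuous fun t => wO I a t ^ 2 + xi1 t ^ 2 := by fun_prop
  have j2 : Continuous fun t => R a t ^ 2 + R' a t ^ 2 := by fun_prop
  have j3 : Continuous fun t => 4 * X ^ 2 * n * pf h t := by fun_prop
  refine (intervalIntegral.integral_mono_on hle (j1.intervalIntegrable _ _)
    (((j2.intervalIntegrable _ _).const_mul 2).add (j3.intervalIntegrable _ _)) fun t _ => pt t).trans ?_
  rw [intervalIntegral.integral_add ((j2.intervalIntegrable _ _).const_mul 2)
    (j3.intervalIntegrable _ _), intervalIntegral.integral_const_mul,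
    intervalIntegral.integral_const_mul]
  have q1 : ∫ t in (-x)..x, pf h t ≤ n := by
    rw [intervalIntegral.integral_of_le hle]
    exact (setIntegral_le_integral (pf_int h).1 (ae_of_all _ fun t => pf_nonneg h t)).trans
      (pf_int h).2.le
  have q2 : 4 * X ^ 2 * n * ∫ t in (-x)..x, pf h t ≤ 4 * X ^ 2 * n * n :=
    mul_le_mul_of_nonneg_left q1 (by positivity)
  have q3 : 4 * (X * n) ^ 2 = 4 * X ^ 2 * n * n := by ring
  rw [q3]
  linarith

/-! ### the fields of `IOk` -/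

theorem wc {s : Bool → ℝ} {ε M bb : ℝ} {e : ℝ → ℝ} (hcur : ∀ a, Cur (s a) ε M bb e (I.η a)) (hε : ε ≤ 1 / 40)
    (hd : ∀ a t, HasDerivAt (I.η a) (I.η1 a t) t) (a : Bool) : ContDiff ℝ 1 (wO I a) := by
  obtain ⟨xi1, h1, h2, -, -⟩ := S.xi hcur hε hd a
  rw [contDiff_one_iff_deriv]
  refine ⟨fun t => (h1 t).differentiableAt, ?_⟩
  rw [show deriv (wO I a) = xi1 from funext fun t => (h1 t).deriv]
  exact h2

theorem wb {s : Bool → ℝ} {ε M bb : ℝ} {e : ℝ → ℝ} (hcur : ∀ a, Cur (s a) ε M bb e (I.η a)) (hε : ε ≤ 1 / 40)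
    (hd : ∀ a t, HasDerivAt (I.η a) (I.η1 a t) t) {CR : ℝ} (hR : ∀ a t, |R a t| ≤ CR) (a : Bool) :
    ∃ C, ∀ t, |wO I a t| ≤ C :=
  ⟨CR + Kw κ cm * ε * Fintype.card ι, fun t =>
    (S.wO_le hcur hε hd a t).trans (add_le_add (hR a t) le_rfl)⟩

/-- local energy in the form of `DatNC` -/
theorem NW_le {s : Bool → ℝ} {ε M bb : ℝ} {e : ℝ → ℝ} (hcur : ∀ a, Cur (s a) ε M bb e (I.η a)) (hε : ε ≤ 1 / 40)
    (hd : ∀ a t, HasDerivAt (I.η a) (I.η1 a t) t) (a : Bool) {T0 : ℝ} (hT : 0 ≤ T0) : NW I T0 a ≤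
      2 * (∫ t in (-(T0 + 1))..(T0 + 1), (R a t ^ 2 + R' a t ^ 2)) +
        4 * (Kw κ cm * ε * Fintype.card ι) ^ 2 := by
  have h1 := S.wc hcur hε hd a
  exact S.xi_energy hcur hε hd a (xi1 := deriv (wO I a))
    (fun t => ((h1.differentiable (by norm_num)) t).hasDerivAt) (by linarith)

theorem Ae (a : Bool) : Ext (NUMF.l / 10) (I.A a) := by
  have hl := NUMF.l_pos
  have hlb := S.lb
  have h1 : ∀ i, Ext (NUMF.l / 10) (f i a) := fun i =>
    NUSp.ext_of_potB (S.pot i a) (b' := NUMF.l / 10) (by linarith)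
  have e1 : I.A a = fun z => ∑ i, f i a z := funext fun z => S.A a z
  rw [e1]
  choose A hA using fun i => (h1 i).bd
  refine ⟨fun z hz => ?_, ∑ i, A i, fun z hz => ?_⟩
  · exact DifferentiableAt.fun_sum fun i _ => (h1 i).diff z hz
  · rw [Finset.sum_mul]
    exact (norm_sum_le _ _).trans (Finset.sum_le_sum fun i _ => hA i z hz)

theorem νc (a : Bool) : Continuous (I.ν a) := by
  rw [S.ν]
  exact (NUGC.dn_muS S.ok a).cont

theorem νi (a : Bool) : Integrable (I.ν a) := by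
  rw [S.ν]
  exact (NUGC.dn_muS S.ok a).int

theorem νb (a : Bool) : ∃ C, ∀ t, |I.ν a t| ≤ C := by
  rw [S.ν]
  obtain ⟨C, -, hC⟩ := (NUGC.dn_muS S.ok a).bdd
  exact ⟨C, hC⟩

theorem τi : Integrable I.τD := by
  rw [S.τ]
  exact (NUGC.dn_tauS S.ok).int

theorem τ1 : Integrable fun x => I.τD x * x := by
  rw [S.τ]
  exact tauS_x S.ok

/-- **the hypotheses of the instance** -/
theorem iok {dl ε M bb : ℝ} {e : ℝ → ℝ} {P : Par} {r : ℕ} (s0 : ∀ a, 0 ≤ I.s a) (b0 : 0 ≤ bb)
    (hcur : ∀ a, Cur (I.s a) ε M bb e (I.η a)) (hd : ∀ a t, HasDerivAt (I.η a) (I.η1 a t) t)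
    (hcom : Com M I.s e I.η I.η1) (hε : ε ≤ 1 / 40)
    (pg : PG (1 / 8) P) (d1 : ∀ t, P.d r + P.rad r t / NUMF.l + ε / NUMF.l ≤ dl) (d2 : dl ≤ 1 / 16)
    (Bc : ∀ a, Continuous (I.B a)) (Bb : ∀ a, ∃ C, ∀ t, |I.B a t| ≤ C) {CR : ℝ}
    (hR : ∀ a t, |R a t| ≤ CR) : IOk dl ε M bb e I P r where
  s0 := s0
  b0 := b0
  cur := hcur
  der := hd
  com := hcom
  ε1 := hε
  pg := pg
  d1 := d1
  d2 := d2
  Ae := S.Ae
  Bc := Bc
  Bb := Bb
  νc := S.νc
  νi := S.νi
  νb := S.νb
  τi := S.τi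
  τ1 := S.τ1
  wc := S.wc hcur hε hd
  wb := S.wb hcur hε hd hR

end Spc

/-! ### ends and groups -/

open NUSp (Grp gp gp1 gq gn th th1 DD)

/-- the potentials of the ends and of the groups -/
def fD (p q : ℂ) {n : ℕ} (G : Fin n → Grp) : Option (Fin n) → Bool → ℂ → ℂ
  | none, _ => th p q
  | some i, a => gp a (G i)

/-- their derivatives -/
def fD1 (p q : ℂ) {n : ℕ} (G : Fin n → Grp) : Option (Fin n) → Bool → ℂ → ℂ
  | none, _ => th1 p q
  | some i, a => gp1 a (G i)

/-- the charges -/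
def cD {n : ℕ} (G : Fin n → Grp) : Option (Fin n) → Bool → ℝ
  | none, _ => 0
  | some i, a => gq a (G i)

/-- the heights -/
def hD (p : ℂ) {n : ℕ} (τ : Fin n → ℝ) : Option (Fin n) → ℝ
  | none => p.im
  | some i => τ i

theorem sum_fD (p q : ℂ) {n : ℕ} (G : Fin n → Grp) (a : Bool) (z : ℂ) :
    ∑ i, fD p q G i a z = DD p q (List.ofFn G) a z := by
  rw [Fintype.sum_option]
  unfold DD
  rw [List.map_ofFn, List.sum_ofFn]
  rfl

lemma hcq_le (s : Bool) (x : Bool × ℂ) : |NUSp.hcq s x| ≤ 3 := by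
  unfold NUSp.hcq
  split_ifs <;> norm_num

lemma cq_le (s : Bool) (x : Bool × Bool × ℂ) : |cq s x| ≤ 6 := by
  unfold cq
  rcases x with ⟨σ, ty, w⟩
  cases s <;> cases σ <;> cases ty <;> norm_num

theorem gq_le (s : Bool) (G : Grp) : |gq s G| ≤ gn G := by
  unfold gq gn
  have h1 : ∀ L : List (Bool × ℂ), |(L.map fun h => NUSp.hcq s h).sum| ≤ 3 * L.length := by
    intro L
    induction L with
    | nil => simp
    | cons a L ih =>
      rw [List.map_cons, List.sum_cons, List.length_cons]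
      have := hcq_le s a
      have := abs_add_le (NUSp.hcq s a) (L.map fun h => NUSp.hcq s h).sum
      push_cast
      linarith
  have h2 : ∀ L : List (Bool × Bool × ℂ), |(L.map fun h => cq s h).sum| ≤ 6 * L.length := by
    intro L
    induction L with
    | nil => simp
    | cons a L ih =>
      rw [List.map_cons, List.sum_cons, List.length_cons]
      have := cq_le s a
      have := abs_add_le (cq s a) (L.map fun h => cq s h).sum
      push_cast
      linarith
  exact (abs_add_le _ _).trans (add_le_add (h1 _) (h2 _))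

theorem pot_D {δ b N : ℝ} {p q : ℂ} {n : ℕ} {G : Fin n → Grp} {τ : Fin n → ℝ} (hb0 : 0 < b)
    (hb : b < δ * NUMF.l) (hk : 0 ≤ kb δ b) (hp : Away δ p) (hq : Away δ q) (h : q.im = p.im)
    (hG : ∀ i, (G i).Ok δ (τ i)) (hN : 2 ≤ N) (hn : ∀ i, gn (G i) ≤ N) (i : Option (Fin n)) (a : Bool) :
    PotB b (N * kb δ b) (cD G i a) (hD p τ i) (fD p q G i a) (fD1 p q G i a) := by
  rcases i with _ | i
  · exact (NUSp.potB_th hb0 hb hp hq h).mono (mul_le_mul_of_nonneg_right hN hk)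
  · exact (NUSp.potB_gp hb0 hb a (hG i)).mono (mul_le_mul_of_nonneg_right (hn i) hk)

theorem cD_le {N : ℝ} {n : ℕ} {G : Fin n → Grp} (hN : 2 ≤ N) (hn : ∀ i, gn (G i) ≤ N)
    (i : Option (Fin n)) (a : Bool) : |cD G i a| ≤ N := by
  rcases i with _ | i
  · show |(0:ℝ)| ≤ N
    rw [abs_zero]
    linarith
  · exact (gq_le a (G i)).trans (hn i)

end

end

end NUSea.PLX.H0
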