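import Pool.Agent.PLX.Ns
import Pool.Agent.PLX.NUSea.H0.SpG0
import Pool.Agent.PLX.NUSea.H0.WoC
import Pool.Agent.PLX.NUSea.H0.DatE0
import Pool.Agent.NUSp.Axis
import Pool.Agent.NUSp.Pin

/-!
# Families of groups of spectators in the data of a configuration, general sea

`Gd`: class, line, species of the half quantum, height; `g : Fin n → Gd` a family; ends `p`, `q` at
the real parts `-l/2`, `l/2` and at one height.

* `TG_sym`, `exists_nuG` (`Gd`, `TG` are in `SpG0`);
* `SpI p q g I B'`: the extra data of `I` are those of the family: `A = DD p q (groups)`,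
  `ν = muS (TG g)`, `τD = tauS (TG g)`, `B` any `C^1` function with derivative `B'`;
* **`exists_spG`**: `IOk`, the size of `wO`, its local energy, the bound of `ν`, uniformly in the family.
-/

set_option autoImplicit false
set_option linter.unusedSectionVars false

open MeasureTheory Set Filter Topology

namespace NUSea.PLX.H0

open NUMF NUO NUKer NUAct
open NUGC (Sr muS tauS linS obSr Ek)
open NUSp (Cl Grp grp gp gp1 gq gn th th1 DD kG psG wG srcG qc)

noncomputable section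

variable {n : ℕ}

variable (g : Fin n → Gd)

/-- uniform decay of the densities of the elementary spectators -/
theorem exists_DkG : ∃ M : ℝ, 0 ≤ M ∧ ∀ (a : Bool) (k : Ek) (τ : ℝ), Dk M (Ek.src a k τ) := by
  choose M h0 hM using fun (a : Bool) (k : Ek) => exists_Dk (Ek.src_ok a k 0)
  obtain ⟨m, hm⟩ : ∃ m : ℝ, m = ∑ a : Bool, (M a .h5 + M a .hm + M a .h1 + M a .hs + M a .q1 +
      M a .qs + M a .sr) := ⟨_, rfl⟩
  have hle : ∀ a k, M a k ≤ m := by
    intro a k
    rw [hm, Fintype.sum_bool]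
    have p := fun a k => h0 a k
    have b1 := p true .h5
    have b2 := p true .hm
    have b3 := p true .h1
    have b4 := p true .hs
    have b5 := p true .q1
    have b6 := p true .qs
    have b7 := p true .sr
    have c1 := p false .h5
    have c2 := p false .hm
    have c3 := p false .h1
    have c4 := p false .hs
    have c5 := p false .q1
    have c6 := p false .qs
    have c7 := p false .sr
    cases a <;> cases k <;> linarith
  exact ⟨m, (h0 true .h5).trans (hle _ _), fun a k τ => (hM a k τ).mono (hle a k)⟩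

/-- **the densities of a family** -/
theorem exists_nuG : ∃ M : ℝ, 0 ≤ M ∧ ∀ (n : ℕ) (g : Fin n → Gd), (∀ x, Dk M (TG g x)) ∧
    (∀ a t, |muS (TG g) a t| ≤ M * ∑ i, Real.exp (-(5 / 2 * |t - (g i).τ|))) ∧
    ∀ a, ∫ t, |muS (TG g) a t| ≤ M * n := by
  obtain ⟨M, h0, hM⟩ := exists_DkG
  refine ⟨3 * M, by positivity, fun n g => ?_⟩
  have hD : ∀ x, Dk M (TG g x) := fun x => hM _ _ _
  refine ⟨fun x => (hD x).mono (by linarith), fun a t => ?_, fun a => ?_⟩
  · refine (muS_le hD a t).trans ?_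
    rw [sum_TG, mul_comm 3 M, mul_assoc]
    refine mul_le_mul_of_nonneg_left ?_ h0
    rw [Finset.mul_sum]
    refine Finset.sum_le_sum fun i _ => ?_
    have e : ∀ j : Fin (kG (g i).c (g i).rt).length,
        Real.exp (-(5 / 2) * |t - (TG g ⟨i, j⟩).t|) = Real.exp (-(5 / 2 * |t - (g i).τ|)) := fun j => by
      rw [TG_t]
      congr 1
      ring
    simp_rw [e]
    rw [Finset.sum_const, Finset.card_univ, Fintype.card_fin, nsmul_eq_mul]
    have h3 : ((kG (g i).c (g i).rt).length : ℝ) ≤ 3 := by exact_mod_cast NUSp.kG_len _ _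
    exact mul_le_mul_of_nonneg_right h3 (Real.exp_pos _).le
  · refine (muS_l1 (TG_ok g) hD a).trans ?_
    have := card_IG g
    nlinarith

variable [Sea]

/-- symmetric energies with the objects -/
theorem TG_sym {j e : ℝ} (hj : NUC43.Adm j e) {r : ℕ} (O : Fin r → Xo) (i : Fin r) (x : IG g) :
    NUGC.Sym (obSr j e (O i)) (TG g x) := by
  obtain ⟨α, hα⟩ := (((kG (g x.1).c (g x.1).rt).get x.2).2).chg
  exact sym_ob hj hα (O i) _ _

/-- the extra data of `I` are those of a family of groups and of the ends -/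
structure SpI (p q : ℂ) (g : Fin n → Gd) (I : Inp) (B' : Bool → ℝ → ℝ) : Prop where
  hp : p.re = -(NUMF.l / 2)
  hq : q.re = NUMF.l / 2
  him : q.im = p.im
  A : ∀ a z, I.A a z = DD p q (List.ofFn fun i => (g i).G) a z
  ν : I.ν = muS (TG g)
  τ : I.τD = tauS (TG g)
  dB : ∀ (a : Bool) (t : ℝ), HasDerivAt (I.B a) (B' a t) t
  cB : ∀ a, Continuous (B' a)

variable {g} {p q : ℂ} {I : Inp} {B' : Bool → ℝ → ℝ}

/-- **the spectators in the form of `WoC`** -/
theorem SpI.spc (h : SpI p q g I B') : Spc (NUMF.l / 5) kG0 15 I (cD fun i => (g i).G)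
    (hD p fun i => (g i).τ) (fD p q fun i => (g i).G) (fD1 p q fun i => (g i).G) (TG g) I.B B' where
  lb := le_rfl
  κ0 := kG0_nonneg
  pot := pot_D (by have := NUMF.l_pos; positivity) l5 kb4 (away_p h.hp) (away_q h.hq) h.him
    (fun i => (g i).ok) (by norm_num) fun i => NUSp.gn_grp _ _ _
  cm := cD_le (by norm_num) fun i => NUSp.gn_grp _ _ _
  A a z := by rw [h.A, sum_fD]
  ok := TG_ok g
  ν := h.ν
  τ := h.τ
  lin a t := by
    rw [Fintype.sum_option]
    have e1 : (fD p q (fun i => (g i).G) none a t).re = 0 := NUSp.th_re h.hp h.hq h.him t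
    have e2 : ∀ i, (fD p q (fun i => (g i).G) (some i) a t).re = (gp a (g i).G t).re := fun i => rfl
    rw [e1]
    simp_rw [e2]
    rw [linS_TG]
    ring
  dR := h.dB
  cR := h.cB

/-- **families of groups in the data**: everything uniform in the family -/
theorem exists_spG : ∃ K : ℝ, 1 ≤ K ∧ ∀ (n : ℕ) (g : Fin n → Gd) (p q : ℂ) (I : Inp)
    (B' : Bool → ℝ → ℝ), SpI p q g I B' → ∀ (ε M b : ℝ) (e : ℝ → ℝ),
      (∀ a, Cur (I.s a) ε M b e (I.η a)) → (∀ a t, HasDerivAt (I.η a) (I.η1 a t) t) → ε ≤ 1 / 40 →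
    (∀ a t, |wO I a t| ≤ |I.B a t| + K * (n + 1) * ε) ∧
    (∀ a, ContDiff ℝ 1 (wO I a)) ∧
    (∀ a T, 0 ≤ T → ∫ t in (-(T + 1))..(T + 1), (wO I a t ^ 2 + deriv (wO I a) t ^ 2) ≤
      2 * (∫ t in (-(T + 1))..(T + 1), (I.B a t ^ 2 + B' a t ^ 2)) + (K * (n + 1) * ε) ^ 2) ∧
    (∀ a t, |I.ν a t| ≤ K * ∑ i, Real.exp (-(5 / 2 * |t - (g i).τ|))) ∧
    (∀ a, ∫ t, |I.ν a t| ≤ K * n) ∧
    (∫ x, I.τD x = -∑ i, NUC43.sg (g i).σ * qc (g i).c / 2) ∧
    (∀ a, Ext (NUMF.l / 10) (I.A a)) ∧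
    ∀ (CB dl : ℝ) (P : Par) (r : ℕ), (∀ a t, |I.B a t| ≤ CB) → (∀ a, 0 ≤ I.s a) →
      Com M I.s e I.η I.η1 → 0 ≤ b → PG (1 / 8) P →
      (∀ t, P.d r + P.rad r t / NUMF.l + ε / NUMF.l ≤ dl) → dl ≤ 1 / 16 → IOk dl ε M b e I P r := by
  obtain ⟨M, hM0, HM⟩ := exists_nuG
  have hK := Kw_nonneg (cm := 15) kG0_nonneg
  refine ⟨1 + M + 2 * Kw kG0 15, by linarith, ?_⟩
  intro n g p q I B' h ε Mm b e hcur hd hε
  obtain ⟨-, h2, h3⟩ := HM n g
  have S := h.spc
  have hε0 := (hcur true).ε0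
  have hn : (0:ℝ) ≤ n := Nat.cast_nonneg n
  have hcard : ((Fintype.card (Option (Fin n)) : ℕ) : ℝ) = n + 1 := by
    rw [Fintype.card_option, Fintype.card_fin]
    push_cast
    ring
  have hS0 : ∀ t, 0 ≤ ∑ i, Real.exp (-(5 / 2 * |t - (g i).τ|)) := fun t =>
    Finset.sum_nonneg fun _ _ => (Real.exp_pos _).le
  refine ⟨fun a t => ?_, S.wc hcur hε hd, fun a T hT => ?_, fun a t => ?_, fun a => ?_, ?_, S.Ae, ?_⟩
  · refine (S.wO_le hcur hε hd a t).trans (add_le_add le_rfl ?_)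
    rw [hcard]
    have : 0 ≤ (n + 1) * ε := by positivity
    nlinarith
  · refine (S.NW_le hcur hε hd a hT).trans (add_le_add le_rfl ?_)
    rw [hcard]
    have h0 : 0 ≤ (n + 1) * ε := by positivity
    have h4 : 0 ≤ Kw kG0 15 * ε * (n + 1) := by
      have := mul_nonneg hK h0
      nlinarith
    calc 4 * (Kw kG0 15 * ε * (n + 1)) ^ 2 = (2 * Kw kG0 15 * ((n + 1) * ε)) ^ 2 := by ring
      _ ≤ ((1 + M + 2 * Kw kG0 15) * ((n + 1) * ε)) ^ 2 := by
        refine pow_le_pow_left₀ (by positivity) ?_ 2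
        exact mul_le_mul_of_nonneg_right (by linarith) h0
      _ = _ := by ring
  · rw [h.ν]
    refine (h2 a t).trans (mul_le_mul_of_nonneg_right ?_ (hS0 t))
    linarith
  · rw [h.ν]
    refine (h3 a).trans (mul_le_mul_of_nonneg_right ?_ hn)
    linarith
  · rw [h.τ]
    exact int_tauG g
  · intro CB dl P r hB s0 hcom b0 pg d1 d2
    exact S.iok s0 b0 hcur hd hcom hε pg d1 d2
      (fun a => continuous_iff_continuousAt.2 fun t => (h.dB a t).continuousAt)
      (fun a => ⟨CB, hB a⟩) hB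

end

end NUSea.PLX.H0
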