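import Pool.Agent.PLX.Ns
import Pool.Agent.NUSea.Sea
import Pool.Agent.NUO.GasPot

/-!
# Real and imaginary part of a point of the curve `A'` (used part of `NUSea/H0/ShlC2`)
-/

set_option autoImplicit false
set_option linter.unusedSectionVars false

namespace NUSea.PLX.H0

noncomputable section

theorem pA_re (η : ℝ → ℝ) (t : ℝ) : (NUO.pA η t).re = NUP1.l - η t := by
  unfold NUO.pA NUP1.vl
  simp

theorem pA_im (η : ℝ → ℝ) (t : ℝ) : (NUO.pA η t).im = t := by
  unfold NUO.pA NUP1.vl
  simp

end

end NUSea.PLX.H0
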